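import Pool.Agent.H98.AL.GEN
import Pool.Agent.H85.SF.Def

/-! # [H85 SA K0] THE ALGORITHM (clause (4) of SpecialFields, think 1931): the certificate on polynomials

`P2 = ℤ[t, y]` (H98/AL/Defs: `vl F t y` the value, `shf c F = F(t - c y, y)`, `hm P e A B = ∑_{l ≤ e} P_l A^l B^(e-l)`).
`em s = s(t)`, `emT s = s(y)` in `ℤ[t,y]`. A function on the curve `G(t,y) = 0` is a pair `A/D`.
`Sz Z s`: degree and sum of the absolute values of the coefficients of `s` are at most `Z`.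
`Bd G Z D A`: `A/D` is regular at infinity: `∑_{j ≤ N} s_j(t) A^(N-j) D^j = G Q`, `s_0 ≠ 0`, `deg s_j ≤ deg s_0`.
`Ig G Z D A`: `e A/D` is integral over `ℤ[t]`: the same with `s_0 = e ≠ 0`.
`Eqv G A B`: `A = B` on the curve: `μ (A - B) = G Q`, `μ ≠ 0`. -/

namespace Pool.Agent.H85.SA

open Pool.Agent.H98.AL

/-- `s(t)` -/
noncomputable def em (s : Polynomial ℤ) : P2 := Polynomial.aeval (MvPolynomial.X 0) s

/-- `s(y)` -/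
noncomputable def emT (s : Polynomial ℤ) : P2 := Polynomial.aeval (MvPolynomial.X 1) s

/-- degree and sum of the absolute values of the coefficients at most `Z` -/
def Sz (Z : ℕ) (s : Polynomial ℤ) : Prop :=
  s.natDegree ≤ Z ∧ ∑ i ∈ Finset.range (Z + 1), |s.coeff i| ≤ (Z : ℤ)

/-- `A = B` on the curve `G = 0` -/
def Eqv (G A B : P2) : Prop := ∃ (μ : ℤ) (Q : P2), μ ≠ 0 ∧ MvPolynomial.C μ * (A - B) = G * Q

/-- `A/D` is regular at infinity -/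
def Bd (G : P2) (Z : ℕ) (D A : P2) : Prop :=
  ∃ (N : ℕ) (s : ℕ → Polynomial ℤ) (Q : P2), 1 ≤ N ∧ N ≤ Z ∧ s 0 ≠ 0 ∧
    (∀ j ≤ N, (s j).natDegree ≤ (s 0).natDegree ∧ Sz Z (s j)) ∧
    ∑ j ∈ Finset.range (N + 1), em (s j) * A ^ (N - j) * D ^ j = G * Q

/-- `e A/D` is integral over `ℤ[t]`, `1 ≤ e ≤ Z` -/
def Ig (G : P2) (Z : ℕ) (D A : P2) : Prop :=
  ∃ (N : ℕ) (e : ℕ) (s : ℕ → Polynomial ℤ) (Q : P2), 1 ≤ N ∧ 1 ≤ e ∧ e ≤ Z ∧ s 0 = Polynomial.C (e : ℤ) ∧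
    ∑ j ∈ Finset.range (N + 1), em (s j) * A ^ (N - j) * D ^ j = G * Q

/-- the data of a certificate -/
structure Dt : Type where
  /-- the coordinate is `t = x + c y` -/
  c : ℕ
  e : ℕ
  s : ℕ
  W : ℕ
  m : ℕ
  /-- bound for the degrees of the `b k i u` -/
  l : ℕ
  D : Polynomial ℤ
  pi : P2
  v : P2
  g : P2
  eta : P2
  z : ℕ → P2
  phi : ℕ → P2
  rho : ℕ → P2
  b : ℕ → ℕ → ℕ → Polynomial ℤ
  lam : ℕ → ℤ
  lam0 : ℤ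
  U : Polynomial ℤ
  V : Polynomial ℤ
  N0 : ℤ

/-- the numerator of `b(a/μ)` for `deg b ≤ l`: `∑_h b_h a^h μ^(l-h)` -/
noncomputable def hmu (b : Polynomial ℤ) (l : ℕ) (a : Polynomial ℤ) (μ : ℤ) : Polynomial ℤ :=
  ∑ h ∈ Finset.range (l + 1), Polynomial.C (b.coeff h * μ ^ (l - h)) * a ^ h

/-- the size of the blocks of level `i₀` -/
def bs (r i₀ : ℕ) : ℕ := (r + i₀ - 1) / i₀

/-- (c7): a number field in which `q` splits, and the jets over the roots `ρ_j/μ`, `j` in one block of length `bs r i₀`, are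
surjective for the levels `u < i₀ W` -/
def Jets (q : Polynomial ℤ) (d : Dt) : Prop :=
  ∃ (M : Polynomial ℤ) (μ ν : ℤ) (ro : ℕ → Polynomial ℤ) (Q : P2), 1 ≤ M.natDegree ∧ μ ≠ 0 ∧ ν ≠ 0 ∧
    MvPolynomial.C ν * ((∏ j ∈ Finset.range q.natDegree, (MvPolynomial.C μ * MvPolynomial.X 0 - emT (ro j))) -
      MvPolynomial.C (μ ^ q.natDegree) * em q) = emT M * Q ∧
    ∀ i₀, 1 ≤ i₀ → i₀ ≤ 4 → ∀ j₀ < q.natDegree, ∀ i₁ < d.s, ∀ u₁ < i₀ * d.W,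
      ∃ (w : ℕ → Polynomial ℤ) (ν' : ℤ), ν' ≠ 0 ∧
        ∀ j < q.natDegree, j / bs q.natDegree i₀ = j₀ / bs q.natDegree i₀ → ∀ i < d.s, ∀ u < i₀ * d.W,
          ∃ (κ : ℤ) (R : Polynomial ℤ), κ ≠ 0 ∧
            Polynomial.C κ * ((∑ k ∈ Finset.range d.m, w k * hmu (d.b k i u) d.l (ro j) μ) -
              if j = j₀ ∧ i = i₁ ∧ u = u₁ then Polynomial.C ν' else 0) = M * R

/-- the certificate (type 1) for the curve `F`, the polynomial `q` and `κ = 300 (n + g)`, of size at most `Z` -/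
structure Cer (F : P2) (q : Polynomial ℤ) (κ Z : ℕ) (d : Dt) : Prop where
  Z2 : 2 ≤ Z
  cZ : d.c ≤ Z
  lc : MvPolynomial.coeff (Finsupp.single 1 (shf d.c F).totalDegree) (shf d.c F) ≠ 0
  dZ : (shf d.c F).totalDegree ≤ Z
  FZ : ∀ t, |MvPolynomial.coeff t (shf d.c F)| ≤ (Z : ℤ)
  e1 : 1 ≤ d.e
  eZ : d.e ≤ Z
  s1 : 1 ≤ d.s
  sZ : d.s ≤ Z
  W1 : 1 ≤ d.W
  WZ : d.W ≤ Z
  mZ : d.m ≤ Z
  lZ : d.l ≤ Z
  D0 : d.D ≠ 0
  DZ : Sz Z d.D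
  qZ : Sz Z q
  -- (c1)
  eq1 : Eqv (shf d.c F) (MvPolynomial.X 0 * d.pi ^ d.e * d.v) (em d.D ^ (d.e + 1))
  bpi : Bd (shf d.c F) Z (em d.D) d.pi
  bv : Bd (shf d.c F) Z (em d.D) d.v
  bt : Bd (shf d.c F) Z (em d.D ^ d.e) (MvPolynomial.X 0 * d.pi ^ d.e)
  -- (c2)
  bg : Bd (shf d.c F) Z (em d.D) d.g
  beta : Bd (shf d.c F) Z (em d.D) d.eta
  eq2 : Eqv (shf d.c F) (hm q q.natDegree d.g (em d.D) * em d.D ^ (4 * d.W + 1))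
    (d.eta * d.pi ^ (4 * d.W) * em d.D ^ q.natDegree)
  -- (c3)
  bz : ∀ i < d.s, Bd (shf d.c F) Z (em d.D) (d.z i)
  brho : ∀ k < d.m, Bd (shf d.c F) Z (em d.D) (d.rho k)
  -- (c4)
  blb : ∀ k < d.m, ∀ i < d.s, ∀ u < 4 * d.W, (d.b k i u).natDegree ≤ d.l ∧ Sz Z (d.b k i u)
  eq4 : ∀ k < d.m, Eqv (shf d.c F) (d.pi ^ (2 * d.W) * d.phi k * em d.D ^ (d.l + 2 * d.W))
    ((∑ i ∈ Finset.range d.s, ∑ u ∈ Finset.range (4 * d.W),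
      hm (d.b k i u) d.l d.g (em d.D) * d.z i * d.pi ^ u * em d.D ^ (4 * d.W - u)) +
      d.rho k * d.pi ^ (4 * d.W) * em d.D ^ d.l)
  -- (c5)
  ig : ∀ k < d.m, Ig (shf d.c F) Z (em d.D) (d.phi k)
  l0 : d.lam0 ≠ 0
  eq5 : Eqv (shf d.c F) (∑ k ∈ Finset.range d.m, MvPolynomial.C (d.lam k) * d.phi k)
    (MvPolynomial.C d.lam0 * em d.D)
  -- (c6)
  n0 : d.N0 ≠ 0
  UZ : Sz Z d.U
  VZ : Sz Z d.V
  eq6 : d.U * q + d.V * Polynomial.derivative q = Polynomial.C d.N0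
  -- (c7)
  jets : Jets q d
  -- (c8)
  num : (88 * d.W + 46) * d.s * q.natDegree ≤ κ

end Pool.Agent.H85.SA
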