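import Pool.Agent.H85.SA.Def
import Pool.Agent.H69.AL.CodeC

/-! # [H85 SA STM] Definitions for the algorithm clause

`OnePlace F`: the function field of the curve `F = 0` has only one place at infinity over `ℚ`.
`Cer0`: the certificate of type 0 (no real point at infinity). -/

namespace Pool.Agent.H85.SA

open Pool.Agent.H98.AL Pool.Agent.H8.Siegel Pool.Agent.H69.AL

/-- the function field of the curve has only one place at infinity over `ℚ` -/
def OnePlace (F : MvPolynomial (Fin 2) ℤ) : Prop :=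
  ∀ (L : Type) [Field L] [CharZero L] (x y : L), MvPolynomial.eval₂ (Int.castRingHom L) ![x, y] F = 0 →
    IntermediateField.adjoin ℚ {x, y} = ⊤ → ∀ V W : ValuationSubring L,
      (∀ r : ℚ, algebraMap ℚ L r ∈ V ∧ algebraMap ℚ L r ∈ W) → ¬ (x ∈ V ∧ y ∈ V) → ¬ (x ∈ W ∧ y ∈ W) → V = W

/-- type 0: the curve has no real point at infinity -/
def Cer0 (F : P2) (Z : ℕ) : Prop :=
  ∃ (p : Polynomial ℤ) (c s e m : ℕ) (N Q R : P2), CertP 1 p c s e m N Q R F ∧
    (∀ r : ℝ, 1 ≤ Z * |Polynomial.aeval r p|) ∧ c ≤ Z ∧ s ≤ Z ∧ e ≤ Z ∧ m ≤ Z ∧ Sz Z p ∧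
    (shf c F).totalDegree ≤ Z ∧ (∀ t, |MvPolynomial.coeff t (shf c F)| ≤ (Z : ℤ)) ∧
    R.totalDegree ≤ Z ∧ ∀ t, |MvPolynomial.coeff t R| ≤ (Z : ℤ)

end Pool.Agent.H85.SA
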