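import Pool.Agent.H85.SA.Spa
import Pool.Agent.H85.SA.Stm
import Pool.Agent.H65.RG.Def

/-! # [H85 SA STG] The final form of the clause: ONE algorithm whose only input is `F`

`AlgG`: there is a partial recursive function of (the list of the terms of) `F`, every value of which is a bound for all integer zeros of `F`, and which
is defined for every absolutely irreducible `F` of degree `n` which has two places at infinity over `ℚ` or for which some polynomial `q`, special for
`300 (n + g)`, has a zero in the residue field of each real place at infinity, genus at most `g`. -/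

namespace Pool.Agent.H85.SA

open Pool.Agent.H98.AL Pool.Agent.H8.Siegel Pool.Agent.H69.AL Pool.Agent.H65.RG

/-- one algorithm with input `F` alone -/
def AlgG : Prop :=
  ∃ A : Code →. ℕ, Partrec A ∧ ∀ c : Code,
    (∀ b ∈ A c, ∀ x y : ℤ, MvPolynomial.eval ![x, y] (toPoly c) = 0 → max |x| |y| ≤ (b : ℤ)) ∧
    (Irreducible (MvPolynomial.map (Int.castRingHom (AlgebraicClosure ℚ)) (toPoly c)) →
      (¬ OnePlace (toPoly c) ∨ ∃ (q : Polynomial ℤ) (B g : ℕ),
        Pool.Agent.H85.SF.Special q B (300 * ((toPoly c).totalDegree + g)) ∧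
          Pool.Agent.H85.SF.AtInf q (toPoly c) ∧ Pool.Agent.H85.SF.GenusLE (toPoly c) g) → (A c).Dom)

/-- the three types of certificates, of size `Z` -/
def CerG (F : P2) (Z : ℕ) : Prop :=
  Cer0 F Z ∨ (∃ d, Cer2 F Z d) ∨ ∃ (q : Polynomial ℤ) (κ : ℕ), Spc q κ Z ∧ ∃ d, Cer F q κ Z d

end Pool.Agent.H85.SA
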