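import Pool.Agent.H85.SA.Bds

/-! # [H85 SA K1c] The jets at the complex roots

Let `τ ∈ ℂ` be a zero of `M` (`deg M ≥ 1`). Evaluate the identity of `Jets` at `X = x`, `T = τ` (`vl .. x τ`, `vl_em`, `vl_emT`): `∏_j (μ x - ρ_j(τ)) = μ^r q(x)` for all `x ∈ ℂ` (`ν ≠ 0`). So with `β_j = ρ_j(τ)/μ`: `q(x) = ∏_j (x - β_j)` for all `x`,
`q = ∏_j (X - β_j)` in `ℂ[X]` (`Polynomial.funext`). `q` is irreducible over `ℤ` and monic, so irreducible over `ℚ`, separable (`Irreducible.separable`), its complex roots are simple: `β` is injective (`Polynomial.nodup_roots`, roots of a product of `X - C`), `q(β_j) = 0`.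
Surjectivity for unit targets: `w, ν'` of `Jets`: `v k = w_k(τ) /(ν' ..)`: `κ (∑_k w_k(τ) hmu(b_k)(τ) - [..] ν') = M(τ) R(τ) = 0`, `hmu b l ρ_j μ` at `τ` is `b(β_j) μ^l` (`deg b ≤ l`): `∑_k w_k(τ) b_(k,i,u)(β_j) = [(j,i,u) = (j₀,i₁,u₁)] ν' μ^(-l)`. General targets: linear combination of the unit targets
(`j₀` in the block, `i₁ < s`, `u₁ < i₀ W`). If the block is empty there is nothing to show. -/

namespace Pool.Agent.H85.SA

open Pool.Agent.H98.AL

/-- values of `hmu` -/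
private theorem hmu_val {b : Polynomial ℤ} {l : ℕ} (hb : b.natDegree ≤ l) (a : Polynomial ℤ) {μ : ℤ} (hμ : μ ≠ 0)
    (τ : ℂ) : Polynomial.aeval τ (hmu b l a μ) =
      Polynomial.aeval (Polynomial.aeval τ a / (μ : ℂ)) b * (μ : ℂ) ^ l := by
  have hμ' : (μ : ℂ) ≠ 0 := Int.cast_ne_zero.2 hμ
  unfold hmu
  rw [Polynomial.aeval_eq_sum_range' (Nat.lt_succ_of_le hb), Finset.sum_mul, map_sum]
  refine Finset.sum_congr rfl fun h hh => ?_
  have h1 : h ≤ l := by
    have := Finset.mem_range.1 hh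
    omega
  have h2 : (μ : ℂ) ^ l = (μ : ℂ) ^ h * (μ : ℂ) ^ (l - h) := by
    rw [← pow_add]
    congr 1
    omega
  have h3 : (algebraMap ℤ ℂ) (b.coeff h * μ ^ (l - h)) = (b.coeff h : ℂ) * (μ : ℂ) ^ (l - h) := by
    rw [map_mul, map_pow]
    rfl
  rw [map_mul, map_pow, Polynomial.aeval_C, h3, zsmul_eq_mul, div_pow, h2]
  have h4 : (μ : ℂ) ^ h ≠ 0 := pow_ne_zero _ hμ'
  field_simp

private theorem vl_prod {ι : Type*} {S : Type*} [CommRing S] (s : Finset ι) (f : ι → P2) (x y : S) :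
    vl (∏ j ∈ s, f j) x y = ∏ j ∈ s, vl (f j) x y :=
  map_prod (MvPolynomial.eval₂Hom (Int.castRingHom S) ![x, y]) f s

theorem jets_sound {q : Polynomial ℤ} (hm : q.Monic) (hi : Irreducible q) {d : Dt} (h : Jets q d)
    (hb : ∀ k < d.m, ∀ i < d.s, ∀ u < 4 * d.W, (d.b k i u).natDegree ≤ d.l) :
    ∃ β : Fin q.natDegree → ℂ, Function.Injective β ∧ (∀ j, Polynomial.aeval (β j) q = 0) ∧
      ∀ i₀, 1 ≤ i₀ → i₀ ≤ 4 → ∀ b' : ℕ, ∀ t : Fin q.natDegree → Fin d.s → ℕ → ℂ, ∃ v : Fin d.m → ℂ,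
        ∀ j : Fin q.natDegree, (j : ℕ) / bs q.natDegree i₀ = b' → ∀ i : Fin d.s, ∀ u < i₀ * d.W,
          ∑ k : Fin d.m, v k * Polynomial.aeval (β j) (d.b k i u) = t j i u := by
  classical
  obtain ⟨M, μ, ν, ro, Q, hM, hμ, hν, hprod, hj⟩ := h
  have hμ' : (μ : ℂ) ≠ 0 := Int.cast_ne_zero.2 hμ
  have hν' : (ν : ℂ) ≠ 0 := Int.cast_ne_zero.2 hν
  -- a zero of `M`
  obtain ⟨τ, hτ⟩ : ∃ τ : ℂ, Polynomial.aeval τ M = 0 := by
    refine IsAlgClosed.exists_aeval_eq_zero ℂ M ?_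
    intro h0
    have := Polynomial.natDegree_eq_zero_iff_degree_le_zero.2 h0.le
    omega
  -- the factorization of `q`
  have hfac : ∀ x : ℂ, Polynomial.aeval x q =
      ∏ j ∈ Finset.range q.natDegree, (x - Polynomial.aeval τ (ro j) / (μ : ℂ)) := by
    intro x
    have h1 := congrArg (fun F : P2 => vl F x τ) hprod
    simp only [vl_mul, vl_sub, vl_C, vl_prod, vl_X0, vl_emT, vl_em, hτ, zero_mul] at h1
    have h2 := sub_eq_zero.1 ((mul_eq_zero.1 h1).resolve_left hν')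
    have h3 : ∏ j ∈ Finset.range q.natDegree, ((μ : ℂ) * x - Polynomial.aeval τ (ro j)) =
        (μ : ℂ) ^ q.natDegree *
          ∏ j ∈ Finset.range q.natDegree, (x - Polynomial.aeval τ (ro j) / (μ : ℂ)) := by
      rw [← Finset.card_range q.natDegree, ← Finset.prod_const, Finset.card_range, ← Finset.prod_mul_distrib]
      refine Finset.prod_congr rfl fun j _ => ?_
      field_simp
    rw [h3] at h2
    have h4 : ((μ ^ q.natDegree : ℤ) : ℂ) = (μ : ℂ) ^ q.natDegree := by push_cast; rfl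
    rw [h4] at h2
    exact (mul_left_cancel₀ (pow_ne_zero _ hμ') h2).symm
  have hpol : q.map (algebraMap ℤ ℂ) =
      ∏ j ∈ Finset.range q.natDegree,
        (Polynomial.X - Polynomial.C (Polynomial.aeval τ (ro j) / (μ : ℂ))) := by
    refine Polynomial.funext fun x => ?_
    rw [Polynomial.eval_prod, Polynomial.eval_map_algebraMap, hfac]
    refine Finset.prod_congr rfl fun j _ => ?_
    rw [Polynomial.eval_sub, Polynomial.eval_X, Polynomial.eval_C]
  have hsep : (q.map (algebraMap ℤ ℂ)).Separable := by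
    have h1 : Irreducible (q.map (algebraMap ℤ ℚ)) :=
      (hm.irreducible_iff_irreducible_map_fraction_map (K := ℚ)).1 hi
    have h2 := h1.separable
    have h3 : q.map (algebraMap ℤ ℂ) = (q.map (algebraMap ℤ ℚ)).map (algebraMap ℚ ℂ) := by
      rw [Polynomial.map_map, ← IsScalarTower.algebraMap_eq]
    rw [h3]
    exact h2.map
  rw [hpol, Polynomial.separable_prod_X_sub_C_iff'] at hsep
  refine ⟨fun j => Polynomial.aeval τ (ro j) / (μ : ℂ), ?_, ?_, ?_⟩
  · intro j j' hjj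
    exact Fin.ext (hsep j (Finset.mem_range.2 j.2) j' (Finset.mem_range.2 j'.2) hjj)
  · intro j
    rw [hfac]
    exact Finset.prod_eq_zero (Finset.mem_range.2 j.2) (sub_self _)
  · intro i₀ hi0 hi4 b' t
    -- the unit targets
    have unit : ∀ p : Fin q.natDegree × Fin d.s × ℕ, ∃ v : Fin d.m → ℂ,
        (p.1 : ℕ) / bs q.natDegree i₀ = b' → p.2.2 < i₀ * d.W →
        ∀ j : Fin q.natDegree, (j : ℕ) / bs q.natDegree i₀ = b' → ∀ i : Fin d.s, ∀ u < i₀ * d.W,
          ∑ k : Fin d.m, v k * Polynomial.aeval (Polynomial.aeval τ (ro j) / (μ : ℂ)) (d.b k i u) =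
            if p = (j, i, u) then 1 else 0 := by
      rintro ⟨j₀, i₁, u₁⟩
      by_cases hu1 : u₁ < i₀ * d.W
      swap
      · exact ⟨0, fun _ h => absurd h hu1⟩
      by_cases hj0 : (j₀ : ℕ) / bs q.natDegree i₀ = b'
      swap
      · exact ⟨0, fun h => absurd h hj0⟩
      obtain ⟨w, ν', hν0, hw⟩ := hj i₀ hi0 hi4 j₀ j₀.2 i₁ i₁.2 u₁ hu1
      have hν0' : (ν' : ℂ) ≠ 0 := Int.cast_ne_zero.2 hν0
      refine ⟨fun k => Polynomial.aeval τ (w k) * (μ : ℂ) ^ d.l / (ν' : ℂ), fun _ _ j hjb i u hu => ?_⟩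
      obtain ⟨κ, R, hκ, hR⟩ := hw j j.2 (hjb.trans hj0.symm) i i.2 u hu
      have hκ' : (κ : ℂ) ≠ 0 := Int.cast_ne_zero.2 hκ
      have h1 := congrArg (fun F : Polynomial ℤ => Polynomial.aeval τ F) hR
      simp only [map_mul, map_sub, map_sum, hτ, zero_mul, Polynomial.aeval_C] at h1
      have hκ2 : (algebraMap ℤ ℂ) κ ≠ 0 := by
        rw [eq_intCast]
        exact hκ'
      have h2 := sub_eq_zero.1 ((mul_eq_zero.1 h1).resolve_left hκ2)
      have h3 : (∑ k ∈ Finset.range d.m, Polynomial.aeval τ (w k) *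
            Polynomial.aeval τ (hmu (d.b k i u) d.l (ro j) μ)) =
          ∑ k : Fin d.m, Polynomial.aeval τ (w k) *
            (Polynomial.aeval (Polynomial.aeval τ (ro j) / (μ : ℂ)) (d.b k i u) * (μ : ℂ) ^ d.l) := by
        rw [Finset.sum_range]
        refine Finset.sum_congr rfl fun k _ => ?_
        rw [hmu_val (hb k k.2 i i.2 u ?_) (ro j) hμ τ]
        calc u < i₀ * d.W := hu
          _ ≤ 4 * d.W := Nat.mul_le_mul_right _ hi4
      rw [h3] at h2
      have h4 : ∑ k : Fin d.m, Polynomial.aeval τ (w k) * (μ : ℂ) ^ d.l / (ν' : ℂ) *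
            Polynomial.aeval (Polynomial.aeval τ (ro j) / (μ : ℂ)) (d.b k i u) =
          (∑ k : Fin d.m, Polynomial.aeval τ (w k) *
            (Polynomial.aeval (Polynomial.aeval τ (ro j) / (μ : ℂ)) (d.b k i u) * (μ : ℂ) ^ d.l)) /
              (ν' : ℂ) := by
        rw [Finset.sum_div]
        refine Finset.sum_congr rfl fun k _ => ?_
        ring
      rw [h4, h2]
      by_cases hc : (j₀, i₁, u₁) = (j, i, u)
      · obtain ⟨h5, h6, h7⟩ : j₀ = j ∧ i₁ = i ∧ u₁ = u := by simpa using hc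
        have hc' : (j : ℕ) = (j₀ : ℕ) ∧ (i : ℕ) = (i₁ : ℕ) ∧ u = u₁ := ⟨by rw [h5], by rw [h6], h7.symm⟩
        rw [if_pos hc, if_pos hc', Polynomial.aeval_C, eq_intCast, div_self hν0']
      · have hc' : ¬ ((j : ℕ) = (j₀ : ℕ) ∧ (i : ℕ) = (i₁ : ℕ) ∧ u = u₁) := by
          rintro ⟨h5, h6, h7⟩
          exact hc (by rw [Fin.ext h5, Fin.ext h6, h7])
        rw [if_neg hc, if_neg hc', map_zero, zero_div]
    choose V hV using unit
    obtain ⟨P, hP⟩ : ∃ P : Finset (Fin q.natDegree × Fin d.s × ℕ),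
        P = (Finset.univ.filter fun j : Fin q.natDegree => (j : ℕ) / bs q.natDegree i₀ = b') ×ˢ
          ((Finset.univ : Finset (Fin d.s)) ×ˢ Finset.range (i₀ * d.W)) := ⟨_, rfl⟩
    have hPm : ∀ p, p ∈ P ↔ (p.1 : ℕ) / bs q.natDegree i₀ = b' ∧ p.2.2 < i₀ * d.W := by
      intro p
      rw [hP, Finset.mem_product, Finset.mem_filter, Finset.mem_product, Finset.mem_range]
      simp
    refine ⟨fun k => ∑ p ∈ P, t p.1 p.2.1 p.2.2 * V p k, fun j hjb i u hu => ?_⟩
    calc ∑ k : Fin d.m, (∑ p ∈ P, t p.1 p.2.1 p.2.2 * V p k) *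
          Polynomial.aeval (Polynomial.aeval τ (ro j) / (μ : ℂ)) (d.b k i u)
        = ∑ p ∈ P, t p.1 p.2.1 p.2.2 * ∑ k : Fin d.m, V p k *
          Polynomial.aeval (Polynomial.aeval τ (ro j) / (μ : ℂ)) (d.b k i u) := by
          simp only [Finset.sum_mul, Finset.mul_sum]
          rw [Finset.sum_comm]
          refine Finset.sum_congr rfl fun p _ => Finset.sum_congr rfl fun k _ => ?_
          ring
      _ = ∑ p ∈ P, t p.1 p.2.1 p.2.2 * (if p = (j, i, u) then 1 else 0) := by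
          refine Finset.sum_congr rfl fun p hp => ?_
          rw [hV p ((hPm p).1 hp).1 ((hPm p).1 hp).2 j hjb i u hu]
      _ = t j i u := by
          simp only [mul_ite, mul_one, mul_zero]
          rw [Finset.sum_ite_eq' P (j, i, u) (fun p => t p.1 p.2.1 p.2.2),
            if_pos ((hPm (j, i, u)).2 ⟨hjb, hu⟩)]

end Pool.Agent.H85.SA
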