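import Pool.Agent.H85.SA.Def

/-! # [H85 SA SPD] The certificate for `Special` (so that the input of the algorithm is `F` alone)

`SpR p B κ`: `Special` with a real constant `B`. `nxt r p`: one step of Graeffe's method, `nxt r p (X²) = (-1)^r p(X) p(-X)`.
`Grid q L u v Δ N X₀`: at all points `x = j/N`, `|x| ≤ X₀ + 2`, either `|x - u_i/v_i| + 1/N ≤ 1/Δ` for some `i < L` or
`|q(x)| > T/N`, `T = X₀² (X₀ + 2)^X₀` a bound for `|q'|` on `[-X₀-2, X₀+2]`: so all real zeros of `q` are at a distance at most `1/Δ` of some `u_i/v_i`.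
`Spc q κ Z`: a certificate (`B' = max (B, (∑ |G_k|)^(1/2^k))`, `B'^(2^k) ≤ P ≤ Z`). -/

namespace Pool.Agent.H85.SA

open Polynomial

/-- `Special` with a real constant -/
def SpR (p : ℤ[X]) (B : ℝ) (κ : ℕ) : Prop :=
  p.Monic ∧ Irreducible p ∧ 2 ≤ p.natDegree ∧ (p.map (Int.castRingHom ℂ)).mahlerMeasure ≤ B ∧
    ∀ α : ℝ, aeval α p = 0 → ∃ u v : ℤ, 1 ≤ v ∧ |(u : ℝ)| ≤ B ∧ (v : ℝ) ≤ B ∧
      |α - u / v| ^ p.natDegree * (2 ^ p.natDegree * B) ^ κ ≤ 1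

/-- one step of Graeffe's method for polynomials of degree `r` -/
noncomputable def nxt (r : ℕ) (p : ℤ[X]) : ℤ[X] :=
  ∑ n ∈ Finset.range (r + 1),
    C ((-1) ^ r * ∑ j ∈ Finset.range (2 * n + 1), (-1) ^ j * p.coeff j * p.coeff (2 * n - j)) * X ^ n

/-- the real zeros of `q` are close to the `u_i/v_i` -/
def Grid (q : ℤ[X]) (L : ℕ) (u v : ℕ → ℤ) (Δ N X₀ : ℕ) : Prop :=
  1 ≤ N ∧ Sz X₀ q ∧ ∀ j < 2 * (X₀ + 2) * N + 1,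
    (∃ i < L, (Δ : ℤ) * (|((j : ℤ) - (X₀ + 2) * N) * v i - u i * N| + v i) ≤ N * v i) ∨
      ((X₀ ^ 2 * (X₀ + 2) ^ X₀ : ℕ) : ℤ) * N ^ q.natDegree <
        N * |∑ i ∈ Finset.range (q.natDegree + 1), q.coeff i * ((j : ℤ) - (X₀ + 2) * N) ^ i * N ^ (q.natDegree - i)|

/-- a certificate: `q` is special for `κ` with a real constant `≤ Z` -/
def Spc (q : ℤ[X]) (κ Z : ℕ) : Prop :=
  q.Monic ∧ Irreducible q ∧ 2 ≤ q.natDegree ∧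
    ∃ (k P B L Δ N X₀ : ℕ) (G : ℕ → ℤ[X]) (u v : ℕ → ℤ),
      G 0 = q ∧ (∀ i < k, G (i + 1) = nxt q.natDegree (G i)) ∧
      ∑ i ∈ Finset.range (q.natDegree + 1), |(G k).coeff i| ≤ (P : ℤ) ∧ 1 ≤ B ∧ B ^ 2 ^ k ≤ P ∧ P ≤ Z ∧
      (∀ i < L, 1 ≤ v i ∧ v i ≤ B ∧ |u i| ≤ B) ∧ 1 ≤ Δ ∧
      (2 ^ q.natDegree) ^ (κ * 2 ^ k) * P ^ κ ≤ Δ ^ (q.natDegree * 2 ^ k) ∧ Grid q L u v Δ N X₀

end Pool.Agent.H85.SA
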