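import Pool.Agent.H85.SA.Datc
import Pool.Agent.H85.SA.Jev
import Pool.Agent.H85.SA.Stm
import Pool.Agent.H85.SA.Spd
import Pool.Agent.H85.SF.Lio
import Pool.Agent.H77.SA.Co2

/-! # [H85 SA K1f] SOUNDNESS of the certificates

`Phi Z = (Z + 1)^5 TT(Z)^(6 E0(Z,Z,Z,Z) Z + 5 Z + 2)` bounds the integer zeros of every curve with a certificate of size `Z`. -/

namespace Pool.Agent.H85.SA

open Pool.Agent.H98.AL Pool.Agent.H77.SF Pool.Agent.H77.SA Pool.Agent.H85.SF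

/-- the bound -/
def Phi (Z : ℕ) : ℕ := (Z + 1) ^ 5 * TT Z ^ (6 * E0 Z Z Z Z * Z + 5 * Z + 2)

theorem TT_pos (Z : ℕ) : 1 ≤ TT Z := by
  unfold TT
  exact Nat.one_le_pow _ _ (by omega)

/-- from `t` to the coordinates -/
theorem xy_bd {F : P2} {c Z : ℕ} (hZ : 1 ≤ Z) (hc : c ≤ Z) (hd : (shf c F).totalDegree ≤ Z)
    (hlc : MvPolynomial.coeff (Finsupp.single 1 (shf c F).totalDegree) (shf c F) ≠ 0)
    (hG : ∀ t, |MvPolynomial.coeff t (shf c F)| ≤ (Z : ℤ)) {x y : ℤ} (h0 : vl (shf c F) (x + c * y) y = 0)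
    {X : ℕ} (hX : 1 ≤ X) (ht : |x + c * y| ≤ (X : ℤ)) : max |x| |y| ≤ (((Z + 1) ^ 5 * X : ℕ) : ℤ) := by
  have hy := y_bd hZ hd hlc hG h0 (X := (X : ℤ)) (by exact_mod_cast hX) ht
  have hZ' : (1 : ℤ) ≤ Z := by exact_mod_cast hZ
  have hX' : (1 : ℤ) ≤ X := by exact_mod_cast hX
  have hcz : (c : ℤ) ≤ Z := by exact_mod_cast hc
  have hx : |x| ≤ |x + c * y| + c * |y| := by
    have h1 : x = (x + c * y) - c * y := by ring
    have h2 := abs_sub (x + c * y) (c * y)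
    rw [← h1, abs_mul, abs_of_nonneg (by positivity : (0 : ℤ) ≤ c)] at h2
    exact h2
  have h3 : (c : ℤ) * |y| ≤ Z * (Z * (Z + 1) ^ 2 * X) := mul_le_mul hcz hy (abs_nonneg _) (by positivity)
  obtain ⟨z, hz⟩ : ∃ z : ℤ, z = (Z : ℤ) := ⟨_, rfl⟩
  obtain ⟨w, hw⟩ : ∃ w : ℤ, w = (X : ℤ) := ⟨_, rfl⟩
  rw [← hz, ← hw] at hy h3
  rw [← hz] at hZ'
  rw [← hw] at hX' ht
  have hA : z * (z + 1) ^ 2 * w ≤ (z + 1) ^ 5 * w := by
    refine mul_le_mul_of_nonneg_right ?_ (by positivity)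
    calc z * (z + 1) ^ 2 ≤ (z + 1) ^ 3 * (z + 1) ^ 2 := by
          refine mul_le_mul_of_nonneg_right ?_ (by positivity)
          have h5 : z + 1 ≤ (z + 1) ^ 3 := le_self_pow₀ (by linarith) (by norm_num)
          linarith
      _ = (z + 1) ^ 5 := by ring
  have hB : w + z * (z * (z + 1) ^ 2 * w) ≤ (z + 1) ^ 5 * w := by
    have h4 : 1 + z * (z * (z + 1) ^ 2) ≤ (z + 1) ^ 5 := by
      have h5 : 1 ≤ (z + 1) ^ 2 := one_le_pow₀ (by linarith)
      have h6 : 1 + z ^ 2 ≤ (z + 1) ^ 3 := by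
        have h7 : (z + 1) ^ 3 = z ^ 3 + 3 * z ^ 2 + 3 * z + 1 := by ring
        have h8 : 0 ≤ z ^ 3 := by positivity
        nlinarith [sq_nonneg z]
      calc 1 + z * (z * (z + 1) ^ 2) ≤ (z + 1) ^ 2 + z ^ 2 * (z + 1) ^ 2 := by
            have h7 : z * (z * (z + 1) ^ 2) = z ^ 2 * (z + 1) ^ 2 := by ring
            linarith
        _ = (1 + z ^ 2) * (z + 1) ^ 2 := by ring
        _ ≤ (z + 1) ^ 3 * (z + 1) ^ 2 := mul_le_mul_of_nonneg_right h6 (by positivity)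
        _ = (z + 1) ^ 5 := by ring
    calc w + z * (z * (z + 1) ^ 2 * w) = (1 + z * (z * (z + 1) ^ 2)) * w := by ring
      _ ≤ (z + 1) ^ 5 * w := mul_le_mul_of_nonneg_right h4 (by positivity)
  push_cast
  rw [← hz, ← hw]
  refine max_le ?_ (hy.trans hA)
  linarith

theorem vl_shf_int {F : P2} (c : ℕ) {x y : ℤ} (h0 : MvPolynomial.eval ![x, y] F = 0) :
    vl (shf c F) (x + c * y) y = 0 := by
  have h1 := vl_shf c F (x + c * y) y
  have h2 : x + (c : ℤ) * y - c * y = x := by ring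
  rw [h2] at h1
  rw [h1]
  unfold vl
  have h3 : (Int.castRingHom ℤ) = RingHom.id ℤ := RingHom.ext_int _ _
  rw [h3]
  exact h0

theorem SpR.B1 {p : Polynomial ℤ} {B : ℝ} {κ : ℕ} (h : SpR p B κ) : 1 ≤ B := by
  have h1 : (1 : ℝ) ≤ (p.map (Int.castRingHom ℂ)).mahlerMeasure := by
    refine Polynomial.one_le_mahlerMeasure_of_one_le_norm_leadingCoeff ?_
    rw [(h.1.map _).leadingCoeff, norm_one]
  exact h1.trans h.2.2.2.1

theorem SpR.roots {p : Polynomial ℤ} {B : ℝ} {κ : ℕ} (h : SpR p B κ) :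
    ((p.map (Int.castRingHom ℂ)).roots.map fun β => max 1 ‖β‖).prod ≤ B := by
  refine le_trans ?_ h.2.2.2.1
  refine Polynomial.prod_max_one_norm_roots_le_mahlerMeasure_of_one_le_leadingCoeff ?_
  rw [(h.1.map _).leadingCoeff, norm_one]

theorem spr_of {p : Polynomial ℤ} {B κ : ℕ} (h : Special p B κ) : SpR p B κ := by
  refine ⟨h.1, h.2.1, h.2.2.1, h.2.2.2.1, fun α hα => ?_⟩
  obtain ⟨u, v, hv, hu, hvB, hd⟩ := h.2.2.2.2 α hα
  exact ⟨u, v, hv, by exact_mod_cast hu, by exact_mod_cast hvB, hd⟩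

/-- **SOUNDNESS (type 1)** -/
theorem sound1R {F : P2} {q : Polynomial ℤ} {B : ℝ} {κ Z : ℕ} {d : Dt} (h : Cer F q κ Z d) (hs : SpR q B κ)
    (hBZ : B ≤ Z) {x y : ℤ} (h0 : MvPolynomial.eval ![x, y] F = 0) : max |x| |y| ≤ (Phi Z : ℤ) := by
  have hZ := h.Z2
  have h0' := vl_shf_int d.c h0
  have hTp := TT_pos Z
  have hT0 := TT_ge Z hZ
  have hTZ : 1 + 2 * Z ≤ TT Z := by
    have h1 : 2 * Z + 2 ≤ (2 * Z + 2) ^ 5 := Nat.le_self_pow (by norm_num) _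
    omega
  set X := TT Z ^ (6 * E0 Z Z Z Z * Z + 5 * Z + 1) with hX
  have hX1 : 1 ≤ X := Nat.one_le_pow _ _ (by omega)
  by_cases hc : |x + d.c * y| ≤ (X : ℤ)
  · refine (xy_bd (by omega) h.cZ h.dZ h.lc h.FZ h0' hX1 hc).trans ?_
    unfold Phi
    have h1 : X ≤ TT Z ^ (6 * E0 Z Z Z Z * Z + 5 * Z + 2) := Nat.pow_le_pow_right (by omega) (by omega)
    exact_mod_cast Nat.mul_le_mul_left _ h1
  exfalso
  push Not at hc
  have hcR : ((X : ℕ) : ℝ) ≤ |((x + d.c * y : ℤ) : ℝ)| := by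
    have h1 : ((X : ℤ) : ℝ) ≤ ((|x + d.c * y| : ℤ) : ℝ) := by exact_mod_cast hc.le
    rw [Int.cast_abs] at h1
    exact_mod_cast h1
  have hTr : (1 : ℝ) ≤ TT Z := by exact_mod_cast hTp
  have hXR : ((X : ℕ) : ℝ) = (TT Z : ℝ) ^ (6 * E0 Z Z Z Z * Z + 5 * Z + 1) := by rw [hX]; push_cast; rfl
  obtain ⟨α, ϖ, z, e, Y, hα, hϖ0, hϖ, hz, he1, heA, hY0, happ⟩ := datc h h0' (by
    refine le_trans ?_ hcR
    rw [hXR]
    exact pow_le_pow_right₀ hTr (by omega))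
  obtain ⟨u, v, hv, hu, hvB, hd⟩ := hs.2.2.2.2 α hα
  have hTT6 : (TT Z : ℝ) ≤ (TT Z : ℝ) ^ 6 := le_self_pow₀ hTr (by norm_num)
  have hZT : (Z : ℝ) ≤ TT Z := by exact_mod_cast (by omega : Z ≤ TT Z)
  have hDat : Dat2 q.natDegree d.s d.m d.W ((TT Z : ℝ) ^ 6) B q α u v ϖ z (fun k i u => d.b k i u) e Y :=
    { r2 := hs.2.2.1
      s1 := h.s1
      W1 := h.W1
      A2 := by
        have h1 : (2 : ℝ) ≤ TT Z := by exact_mod_cast (by omega : 2 ≤ TT Z)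
        linarith
      B1 := hs.B1
      BA := by linarith
      mon := hs.1
      irr := hs.2.1
      deg := rfl
      root := hα
      mah := hs.roots
      cuB := hu
      cw1 := hv
      cwB := hvB
      π0 := hϖ0
      zA := hz
      bA := fun k i u hu β hβ => (val_root hZ hs.1 h.qZ (h.blb k k.2 i i.2 u hu).2 hβ).trans hTT6
      e1 := he1
      eA := heA
      Y0 := hY0
      app := happ
      sur := jets_sound hs.1 hs.2.1 h.jets fun k hk i hi u hu => (h.blb k hk i hi u hu).1 }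
  have hr0 : q.natDegree ≠ 0 := by have := hs.2.2.1; omega
  have hB0 : 0 ≤ B := by linarith [hs.B1]
  refine core2 hDat ?_ ?_
  · have hE : E0 q.natDegree d.s d.m d.W ≤ E0 Z Z Z Z := E0_mono h.qZ.1 h.sZ h.mZ h.WZ
    have he0 : d.e ≠ 0 := by have := h.e1; omega
    refine (pow_le_one_iff_of_nonneg (by positivity) he0).1 ?_
    have h1 : (TT Z : ℝ) ^ (6 * E0 Z Z Z Z * Z + 5 * Z + 1) * |ϖ| ^ d.e ≤ TT Z := by
      have h2 : ((X : ℕ) : ℝ) * |ϖ| ^ d.e ≤ 1 + 2 * Z :=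
        (mul_le_mul_of_nonneg_right hcR (by positivity)).trans hϖ
      rw [hXR] at h2
      have h3 : (1 : ℝ) + 2 * Z ≤ TT Z := by exact_mod_cast hTZ
      linarith
    have h2 : (TT Z : ℝ) ^ (6 * E0 Z Z Z Z * Z) * |ϖ| ^ d.e ≤ 1 := by
      refine le_of_mul_le_mul_left (a := (TT Z : ℝ)) ?_ (by linarith)
      rw [mul_one]
      refine le_trans ?_ h1
      rw [← mul_assoc, ← pow_succ']
      refine mul_le_mul_of_nonneg_right (pow_le_pow_right₀ hTr (by omega)) (by positivity)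
    refine le_trans ?_ h2
    rw [mul_pow, mul_comm, ← pow_mul, ← pow_mul]
    refine mul_le_mul_of_nonneg_right (pow_le_pow_right₀ hTr ?_) (by positivity)
    calc 6 * (E0 q.natDegree d.s d.m d.W * d.e) ≤ 6 * (E0 Z Z Z Z * Z) :=
          Nat.mul_le_mul_left _ (Nat.mul_le_mul hE h.eZ)
      _ = 6 * E0 Z Z Z Z * Z := by ring
  · refine (pow_le_one_iff_of_nonneg (by positivity) hr0).1 ?_
    refine le_trans ?_ hd
    rw [mul_pow, ← pow_mul]
    refine mul_le_mul_of_nonneg_left ?_ (by positivity)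
    refine pow_le_pow_right₀ ?_ h.num
    have h1 : (1 : ℝ) ≤ 2 ^ q.natDegree := one_le_pow₀ (by norm_num)
    have h2 : (1 : ℝ) ≤ B := hs.B1
    nlinarith

theorem sound1 {F : P2} {q : Polynomial ℤ} {B κ Z : ℕ} {d : Dt} (h : Cer F q κ Z d) (hs : Special q B κ)
    (hBZ : B ≤ Z) {x y : ℤ} (h0 : MvPolynomial.eval ![x, y] F = 0) : max |x| |y| ≤ (Phi Z : ℤ) :=
  sound1R h (spr_of hs) (by exact_mod_cast hBZ) h0

end Pool.Agent.H85.SA
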