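import Pool.Agent.H85.SA.Root

/-! # [H85 SA K1e] The numerical data of one large integer point -/

namespace Pool.Agent.H85.SA

open Pool.Agent.H98.AL

theorem TT_ge (Z : ℕ) (hZ : 2 ≤ Z) : (2 * Z + 2) ^ 5 ≤ TT Z := by
  unfold TT
  exact Nat.pow_le_pow_right (by omega) (by omega)

/-- values of a certificate at one integer point -/
theorem datc {F : P2} {q : Polynomial ℤ} {κ Z : ℕ} {d : Dt} (h : Cer F q κ Z d) {t y : ℤ}
    (h0 : vl (shf d.c F) t y = 0) (ht : (TT Z : ℝ) ^ (5 * Z + 1) ≤ |(t : ℝ)|) :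
    ∃ (α ϖ : ℝ) (z : Fin d.s → ℝ) (e : ℤ) (Y : Fin d.m → ℤ), Polynomial.aeval α q = 0 ∧ 0 < |ϖ| ∧
      |(t : ℝ)| * |ϖ| ^ d.e ≤ 1 + 2 * Z ∧ (∀ i, |z i| ≤ (TT Z : ℝ) ^ 6) ∧ 1 ≤ e ∧ (e : ℝ) ≤ (TT Z : ℝ) ^ 6 ∧
      (∃ k, Y k ≠ 0) ∧ ∀ k : Fin d.m, |ϖ ^ (2 * d.W) * ((Y k : ℝ) / e) -
        ∑ i : Fin d.s, ∑ u ∈ Finset.range (4 * d.W), Polynomial.aeval α (d.b k i u) * z i * ϖ ^ u| ≤
          (TT Z : ℝ) ^ 6 * |ϖ| ^ (4 * d.W) := by
  have hZ := h.Z2
  have hZr : (2 : ℝ) ≤ Z := by exact_mod_cast hZ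
  set T : ℝ := (TT Z : ℝ) with hT
  have hT5 : (2 * (Z : ℝ) + 2) ^ 5 ≤ T := by
    have := TT_ge Z hZ
    rw [hT]
    exact_mod_cast this
  have h22 : (6 : ℝ) ≤ 2 * (Z : ℝ) + 2 := by linarith
  have hT1 : 2 * (Z : ℝ) + 2 ≤ T := (le_self_pow₀ (by linarith) (by norm_num)).trans hT5
  have hT6 : (6 : ℝ) ≤ T := h22.trans hT1
  have hT0 : (0 : ℝ) < T := by linarith
  have htT : T ≤ |(t : ℝ)| := (le_self_pow₀ (by linarith) (by omega)).trans ht
  have ht2 : 2 * (Z : ℝ) ≤ |(t : ℝ)| := by linarith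
  have ht1 : (1 : ℝ) ≤ |(t : ℝ)| := by linarith
  have ht0 : (0 : ℝ) < |(t : ℝ)| := by linarith
  -- real values
  have hR : ∀ A : P2, vl A (t : ℝ) (y : ℝ) = ((vl A t y : ℤ) : ℝ) := fun A => by
    have := vl_map (Int.castRingHom ℝ) A t y
    simpa using this.symm
  have h0' : vl (shf d.c F) (t : ℝ) (y : ℝ) = 0 := by rw [hR, h0, Int.cast_zero]
  set D : ℝ := Polynomial.aeval (t : ℝ) d.D with hD
  have hD0 : D ≠ 0 := by
    intro h1
    have h2 := sz_lo h.DZ h.D0 ht2 ht1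
    rw [← hD, h1, abs_zero, mul_zero] at h2
    exact absurd h2 (not_le.2 (by positivity))
  have hDe : vl (em d.D) (t : ℝ) (y : ℝ) = D := vl_em _ _ _
  have hDv : vl (em d.D) (t : ℝ) (y : ℝ) ≠ 0 := by rw [hDe]; exact hD0
  have hbd : ∀ {A : P2}, Bd (shf d.c F) Z (em d.D) A → |vl A (t : ℝ) (y : ℝ) / D| ≤ 1 + 2 * Z := by
    intro A hA
    have := bd_sound hA h0' hDv ht2 ht1
    rwa [hDe] at this
  -- the uniformizer
  obtain ⟨P, hP⟩ : ∃ P : ℝ, P = vl d.pi (t : ℝ) (y : ℝ) / D := ⟨_, rfl⟩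
  have hPD : vl d.pi (t : ℝ) (y : ℝ) = P * D := by rw [hP, div_mul_cancel₀ _ hD0]
  have hPt : |(t : ℝ)| * |P| ^ d.e ≤ 1 + 2 * Z := by
    have h1 := bd_sound h.bt h0' (by rw [vl_pow, hDe]; exact pow_ne_zero _ hD0) ht2 ht1
    rw [vl_mul, vl_pow, vl_pow, vl_X0, hDe, hPD, mul_pow, ← mul_assoc, mul_div_assoc,
      div_self (pow_ne_zero _ hD0), mul_one, abs_mul, abs_pow] at h1
    exact h1
  have hP0 : P ≠ 0 := by
    intro h1
    have h2 := eqv_sound h.eq1 h0'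
    rw [vl_mul, vl_mul, vl_pow, vl_pow, hPD, h1, zero_mul, zero_pow (by have := h.e1; omega), mul_zero,
      zero_mul, hDe] at h2
    exact pow_ne_zero _ hD0 h2.symm
  have hPe : |P| ^ d.e * (T ^ 5) ^ d.e ≤ 1 := by
    have h1 : T ^ (5 * Z + 1) * |P| ^ d.e ≤ 1 + 2 * Z :=
      (mul_le_mul_of_nonneg_right ht (by positivity)).trans hPt
    have h2 : T * (T ^ (5 * Z) * |P| ^ d.e) ≤ T * 1 := by
      calc T * (T ^ (5 * Z) * |P| ^ d.e) = T ^ (5 * Z + 1) * |P| ^ d.e := by ring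
        _ ≤ 1 + 2 * Z := h1
        _ ≤ T * 1 := by linarith
    have h3 : T ^ (5 * Z) * |P| ^ d.e ≤ 1 := le_of_mul_le_mul_left h2 hT0
    refine le_trans ?_ h3
    rw [mul_comm, ← pow_mul]
    refine mul_le_mul_of_nonneg_right ?_ (by positivity)
    exact pow_le_pow_right₀ (by linarith) (Nat.mul_le_mul_left _ h.eZ)
  have hP5 : |P| * T ^ 5 ≤ 1 := by
    rw [← mul_pow] at hPe
    exact (pow_le_one_iff_of_nonneg (by positivity) (by have := h.e1; omega)).1 hPe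
  have hP1 : |P| ≤ 1 := by
    have h1 : (1 : ℝ) ≤ T ^ 5 := one_le_pow₀ (by linarith)
    have h2 := abs_nonneg P
    nlinarith
  have hP4 : |P| ^ (4 * d.W) ≤ |P| := by
    have := h.W1
    exact pow_le_of_le_one (abs_nonneg P) hP1 (by omega)
  -- the function `g`
  obtain ⟨g, hg⟩ : ∃ g : ℝ, g = vl d.g (t : ℝ) (y : ℝ) / D := ⟨_, rfl⟩
  have hgb : |g| ≤ 1 + 2 * Z := by rw [hg]; exact hbd h.bg
  have hqg : |Polynomial.aeval g q| ≤ (1 + 2 * Z) * |P| ^ (4 * d.W) := by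
    have h1 := eqv_sound h.eq2 h0'
    have h2 : vl (hm q q.natDegree d.g (em d.D)) (t : ℝ) (y : ℝ) = Polynomial.aeval g q * D ^ q.natDegree := by
      rw [vl_hm, hDe, hm_val q le_rfl _ _ hD0, ← hg]
    rw [vl_mul, vl_mul, vl_mul, vl_pow, vl_pow, vl_pow, h2, hDe, hPD, mul_pow] at h1
    have h3 : Polynomial.aeval g q = vl d.eta (t : ℝ) (y : ℝ) / D * P ^ (4 * d.W) := by
      have h4 : D ^ q.natDegree * D ^ (4 * d.W + 1) ≠ 0 := mul_ne_zero (pow_ne_zero _ hD0) (pow_ne_zero _ hD0)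
      refine mul_right_cancel₀ h4 ?_
      calc Polynomial.aeval g q * (D ^ q.natDegree * D ^ (4 * d.W + 1))
          = Polynomial.aeval g q * D ^ q.natDegree * D ^ (4 * d.W + 1) := by ring
        _ = vl d.eta (t : ℝ) (y : ℝ) * (P ^ (4 * d.W) * D ^ (4 * d.W)) * D ^ q.natDegree := h1
        _ = vl d.eta (t : ℝ) (y : ℝ) / D * P ^ (4 * d.W) * (D ^ q.natDegree * D ^ (4 * d.W + 1)) := by
          rw [pow_succ]
          field_simp
    rw [h3, abs_mul, abs_pow]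
    exact mul_le_mul_of_nonneg_right (hbd h.beta) (by positivity)
  have hqs : |Polynomial.aeval g q| * (16 * T ^ 3) ≤ 1 := by
    have h1 : |Polynomial.aeval g q| ≤ (1 + 2 * Z) * |P| :=
      hqg.trans (mul_le_mul_of_nonneg_left hP4 (by positivity))
    have h2 : (1 + 2 * (Z : ℝ)) * 16 ≤ T ^ 2 := by
      have h3 : (16 : ℝ) ≤ T := by
        have h4 : (6 : ℝ) ^ 5 ≤ (2 * (Z : ℝ) + 2) ^ 5 := by gcongr
        linarith
      calc (1 + 2 * (Z : ℝ)) * 16 ≤ T * T := mul_le_mul (by linarith) h3 (by norm_num) hT0.le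
        _ = T ^ 2 := by ring
    calc |Polynomial.aeval g q| * (16 * T ^ 3) ≤ (1 + 2 * Z) * |P| * (16 * T ^ 3) :=
          mul_le_mul_of_nonneg_right h1 (by positivity)
      _ = ((1 + 2 * (Z : ℝ)) * 16) * (|P| * T ^ 3) := by ring
      _ ≤ T ^ 2 * (|P| * T ^ 3) := mul_le_mul_of_nonneg_right h2 (by positivity)
      _ = |P| * T ^ 5 := by ring
      _ ≤ 1 := hP5
  obtain ⟨α, hα, hgα⟩ := root_near hZ h.qZ h.UZ h.VZ h.n0 h.eq6 hgb hqs
  rw [← hT] at hgα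
  have hgα2 : |g - α| ≤ 4 * T * (1 + 2 * Z) * |P| ^ (4 * d.W) :=
    hgα.trans (by
      calc 4 * T * |Polynomial.aeval g q| ≤ 4 * T * ((1 + 2 * Z) * |P| ^ (4 * d.W)) :=
            mul_le_mul_of_nonneg_left hqg (by positivity)
        _ = _ := by ring)
  have hgα1 : |g - α| ≤ 1 := by
    have h1 : 4 * T * |Polynomial.aeval g q| ≤ |Polynomial.aeval g q| * (16 * T ^ 3) := by
      have h2 := abs_nonneg (Polynomial.aeval g q)
      have h3 : 4 * T ≤ 16 * T ^ 3 := by nlinarith [sq_nonneg T, mul_pos hT0 hT0]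
      nlinarith
    exact hgα.trans (h1.trans hqs)
  have hg2 : |g| ≤ 2 * Z + 2 := by linarith
  have hα2 : |α| ≤ 2 * Z + 2 := by
    have h1 : |α| ≤ |g| + |g - α| := by
      have := abs_sub_abs_le_abs_sub α g
      rw [abs_sub_comm α g] at this
      linarith
    linarith
  -- the values of the basis
  have hig := fun k : Fin d.m => ig_sound (h.ig k k.2) h0 (by
    intro h1
    refine hDv ?_
    rw [hR, h1, Int.cast_zero])
  choose e n he1 heZ hen using hig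
  have heq : ∀ k : Fin d.m, vl (d.phi k) (t : ℝ) (y : ℝ) / D = (n k : ℝ) / e k := by
    intro k
    have h1 : ((e k : ℤ) : ℝ) * vl (d.phi k) (t : ℝ) (y : ℝ) = n k * vl (em d.D) (t : ℝ) (y : ℝ) := by
      rw [hR, hR]
      exact_mod_cast hen k
    rw [hDe] at h1
    have h2 : (e k : ℝ) ≠ 0 := by
      have := he1 k
      exact_mod_cast (by omega : e k ≠ 0)
    rw [div_eq_div_iff hD0 h2]
    push_cast at h1
    linarith
  have hE : ∀ k : Fin d.m, ((∏ j, e j : ℕ) : ℝ) = e k * ((∏ j ∈ Finset.univ.erase k, e j : ℕ) : ℝ) := by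
    intro k
    rw [← Nat.cast_mul, Finset.mul_prod_erase _ _ (Finset.mem_univ k)]
  have hEpos : 1 ≤ ∏ j, e j := Finset.one_le_prod' fun j _ => he1 j
  have hEle : ∏ j, e j ≤ TT Z := by
    calc ∏ j, e j ≤ ∏ _j : Fin d.m, Z := Finset.prod_le_prod' fun j _ => heZ j
      _ = Z ^ d.m := by rw [Finset.prod_const, Finset.card_univ, Fintype.card_fin]
      _ ≤ Z ^ Z := Nat.pow_le_pow_right (by omega) h.mZ
      _ ≤ (2 * Z + 2) ^ Z := Nat.pow_le_pow_left (by omega) _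
      _ ≤ TT Z := by
        unfold TT
        exact Nat.pow_le_pow_right (by omega) (by omega)
  have hTT6 : T ≤ T ^ 6 := le_self_pow₀ (by linarith) (by norm_num)
  have hY : ∀ k : Fin d.m, (((n k * ((∏ j ∈ Finset.univ.erase k, e j : ℕ) : ℤ) : ℤ) : ℝ) /
      (((∏ j, e j : ℕ) : ℤ) : ℝ)) = vl (d.phi k) (t : ℝ) (y : ℝ) / D := by
    intro k
    rw [heq k, Int.cast_natCast, hE k]
    push_cast
    have h1 : ((∏ j ∈ Finset.univ.erase k, (e j : ℝ))) ≠ 0 := by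
      refine Finset.prod_ne_zero_iff.2 fun j _ => ?_
      have := he1 j
      exact_mod_cast (by omega : e j ≠ 0)
    have h2 : (e k : ℝ) ≠ 0 := by
      have := he1 k
      exact_mod_cast (by omega : e k ≠ 0)
    field_simp
  refine ⟨α, P, fun i => vl (d.z i) (t : ℝ) (y : ℝ) / D, ((∏ j, e j : ℕ) : ℤ),
    fun k => n k * ((∏ j ∈ Finset.univ.erase k, e j : ℕ) : ℤ), hα, abs_pos.2 hP0, hPt, fun i => ?_, ?_, ?_, ?_, ?_⟩
  · have h1 := hbd (h.bz i i.2)
    linarith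
  · exact_mod_cast hEpos
  · rw [Int.cast_natCast]
    refine le_trans ?_ hTT6
    rw [hT]
    exact_mod_cast hEle
  · by_contra hc
    push Not at hc
    have h1 := eqv_sound h.eq5 h0'
    have h2 : ∀ k : Fin d.m, vl (d.phi k) (t : ℝ) (y : ℝ) = 0 := by
      intro k
      have h3 := hY k
      rw [hc k, Int.cast_zero, zero_div] at h3
      rcases div_eq_zero_iff.1 h3.symm with h4 | h4
      · exact h4
      · exact absurd h4 hD0
    have h3 : vl (∑ k ∈ Finset.range d.m, MvPolynomial.C (d.lam k) * d.phi k : P2) (t : ℝ) (y : ℝ) = 0 := by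
      have h4 : vl (∑ k ∈ Finset.range d.m, MvPolynomial.C (d.lam k) * d.phi k : P2) (t : ℝ) (y : ℝ) =
          ∑ k ∈ Finset.range d.m, vl (MvPolynomial.C (d.lam k) * d.phi k : P2) (t : ℝ) (y : ℝ) := by
        unfold vl
        rw [MvPolynomial.eval₂_sum]
      rw [h4]
      refine Finset.sum_eq_zero fun k hk => ?_
      rw [vl_mul, h2 ⟨k, Finset.mem_range.1 hk⟩, mul_zero]
    rw [h3, vl_mul, vl_C, hDe] at h1
    have h5 : ((d.lam0 : ℤ) : ℝ) ≠ 0 := by exact_mod_cast h.l0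
    exact mul_ne_zero h5 hD0 h1.symm
  · intro k
    rw [hY k]
    -- the expansion
    have h1 := eqv_sound (h.eq4 k k.2) h0'
    have hsum : ∀ (f : ℕ → ℕ → P2), vl (∑ i ∈ Finset.range d.s, ∑ u ∈ Finset.range (4 * d.W), f i u : P2) (t : ℝ) (y : ℝ) =
        ∑ i ∈ Finset.range d.s, ∑ u ∈ Finset.range (4 * d.W), vl (f i u) (t : ℝ) (y : ℝ) := by
      intro f
      unfold vl
      rw [MvPolynomial.eval₂_sum]
      refine Finset.sum_congr rfl fun i _ => ?_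
      rw [MvPolynomial.eval₂_sum]
    rw [vl_add, hsum, vl_mul, vl_mul, vl_pow, vl_pow, vl_mul, vl_mul, vl_pow, vl_pow, hDe, hPD] at h1
    have h2 : ∀ i ∈ Finset.range d.s, ∀ u ∈ Finset.range (4 * d.W),
        vl (hm (d.b k i u) d.l d.g (em d.D) * d.z i * d.pi ^ u * em d.D ^ (4 * d.W - u) : P2) (t : ℝ) (y : ℝ) =
          (Polynomial.aeval g (d.b k i u) * (vl (d.z i) (t : ℝ) (y : ℝ) / D) * P ^ u) * D ^ (d.l + 4 * d.W + 1) := by
      intro i hi u hu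
      rw [Finset.mem_range] at hi hu
      rw [vl_mul, vl_mul, vl_mul, vl_pow, vl_pow, vl_hm, hDe, hPD, hm_val _ (h.blb k k.2 i hi u hu).1 _ _ hD0, ← hg]
      have h3 : D ^ (d.l + 4 * d.W + 1) = D ^ d.l * D * (D ^ u * D ^ (4 * d.W - u)) := by
        rw [← pow_add, Nat.add_sub_of_le hu.le]
        ring
      rw [h3, mul_pow]
      field_simp
    rw [Finset.sum_congr rfl fun i hi => Finset.sum_congr rfl fun u hu => h2 i hi u hu] at h1
    have h3 : P ^ (2 * d.W) * (vl (d.phi k) (t : ℝ) (y : ℝ) / D) =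
        (∑ i ∈ Finset.range d.s, ∑ u ∈ Finset.range (4 * d.W),
          Polynomial.aeval g (d.b k i u) * (vl (d.z i) (t : ℝ) (y : ℝ) / D) * P ^ u) +
          vl (d.rho k) (t : ℝ) (y : ℝ) / D * P ^ (4 * d.W) := by
      have h4 : D ^ (d.l + 4 * d.W + 1) ≠ 0 := pow_ne_zero _ hD0
      refine mul_right_cancel₀ h4 ?_
      rw [add_mul, Finset.sum_mul]
      have h5 : ∀ i ∈ Finset.range d.s, (∑ u ∈ Finset.range (4 * d.W),
          Polynomial.aeval g (d.b k i u) * (vl (d.z i) (t : ℝ) (y : ℝ) / D) * P ^ u) * D ^ (d.l + 4 * d.W + 1) =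
          ∑ u ∈ Finset.range (4 * d.W),
          Polynomial.aeval g (d.b k i u) * (vl (d.z i) (t : ℝ) (y : ℝ) / D) * P ^ u * D ^ (d.l + 4 * d.W + 1) :=
        fun i _ => Finset.sum_mul _ _ _
      rw [Finset.sum_congr rfl h5]
      calc P ^ (2 * d.W) * (vl (d.phi k) (t : ℝ) (y : ℝ) / D) * D ^ (d.l + 4 * d.W + 1)
          = (P * D) ^ (2 * d.W) * vl (d.phi k) (t : ℝ) (y : ℝ) * D ^ (d.l + 2 * d.W) := by
            rw [mul_pow]
            have h6 : D ^ (d.l + 4 * d.W + 1) = D ^ (2 * d.W) * D ^ (d.l + 2 * d.W) * D := by ring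
            rw [h6]
            field_simp
        _ = _ := h1
        _ = _ := by
            congr 1
            rw [mul_pow]
            have h6 : D ^ (d.l + 4 * d.W + 1) = D ^ (4 * d.W) * D ^ d.l * D := by ring
            rw [h6]
            field_simp
    have h4 : (∑ i : Fin d.s, ∑ u ∈ Finset.range (4 * d.W),
        Polynomial.aeval α (d.b k i u) * (vl (d.z i) (t : ℝ) (y : ℝ) / D) * P ^ u) =
        ∑ i ∈ Finset.range d.s, ∑ u ∈ Finset.range (4 * d.W),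
          Polynomial.aeval α (d.b k i u) * (vl (d.z i) (t : ℝ) (y : ℝ) / D) * P ^ u :=
      (Finset.sum_range fun i => ∑ u ∈ Finset.range (4 * d.W),
        Polynomial.aeval α (d.b k i u) * (vl (d.z i) (t : ℝ) (y : ℝ) / D) * P ^ u).symm
    rw [h4, h3, add_sub_right_comm, ← Finset.sum_sub_distrib]
    simp only [← Finset.sum_sub_distrib]
    have h5 : ∀ i ∈ Finset.range d.s, ∀ u ∈ Finset.range (4 * d.W),
        |Polynomial.aeval g (d.b k i u) * (vl (d.z i) (t : ℝ) (y : ℝ) / D) * P ^ u -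
          Polynomial.aeval α (d.b k i u) * (vl (d.z i) (t : ℝ) (y : ℝ) / D) * P ^ u| ≤
          T * (4 * T * (1 + 2 * Z) * |P| ^ (4 * d.W)) * (1 + 2 * Z) := by
      intro i hi u hu
      rw [Finset.mem_range] at hi hu
      rw [← sub_mul, ← sub_mul, abs_mul, abs_mul, abs_pow]
      have h6 := (val_lip hZ (h.blb k k.2 i hi u hu).2 hg2 hα2).trans
        (mul_le_mul_of_nonneg_left hgα2 (by positivity))
      have h7 := hbd (h.bz i hi)
      have h8 : |P| ^ u ≤ 1 := pow_le_one₀ (abs_nonneg P) hP1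
      calc |Polynomial.aeval g (d.b k i u) - Polynomial.aeval α (d.b k i u)| *
            |vl (d.z i) (t : ℝ) (y : ℝ) / D| * |P| ^ u
          ≤ (T * (4 * T * (1 + 2 * Z) * |P| ^ (4 * d.W))) * (1 + 2 * Z) * 1 := by
            gcongr
        _ = _ := by ring
    have h6 : |∑ i ∈ Finset.range d.s, ∑ u ∈ Finset.range (4 * d.W),
        (Polynomial.aeval g (d.b k i u) * (vl (d.z i) (t : ℝ) (y : ℝ) / D) * P ^ u -
          Polynomial.aeval α (d.b k i u) * (vl (d.z i) (t : ℝ) (y : ℝ) / D) * P ^ u)| ≤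
        (d.s : ℝ) * ((4 * d.W : ℕ) * (T * (4 * T * (1 + 2 * Z) * |P| ^ (4 * d.W)) * (1 + 2 * Z))) := by
      refine (Finset.abs_sum_le_sum_abs _ _).trans ?_
      refine (Finset.sum_le_card_nsmul _ _ ((4 * d.W : ℕ) * (T * (4 * T * (1 + 2 * Z) * |P| ^ (4 * d.W)) * (1 + 2 * Z)))
        fun i hi => ?_).trans ?_
      · refine (Finset.abs_sum_le_sum_abs _ _).trans ?_
        refine (Finset.sum_le_card_nsmul _ _ _ fun u hu => h5 i hi u hu).trans ?_
        rw [Finset.card_range, nsmul_eq_mul]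
      · rw [Finset.card_range, nsmul_eq_mul]
    have h7 : |vl (d.rho k) (t : ℝ) (y : ℝ) / D * P ^ (4 * d.W)| ≤ (1 + 2 * Z) * |P| ^ (4 * d.W) := by
      rw [abs_mul, abs_pow]
      exact mul_le_mul_of_nonneg_right (hbd (h.brho k k.2)) (by positivity)
    refine (abs_add_le _ _).trans ((add_le_add h6 h7).trans ?_)
    have hs : (d.s : ℝ) ≤ Z := by exact_mod_cast h.sZ
    have hW : (d.W : ℝ) ≤ Z := by exact_mod_cast h.WZ
    have h8 : (d.s : ℝ) * ((4 * d.W : ℕ) * (T * (4 * T * (1 + 2 * Z) * |P| ^ (4 * d.W)) * (1 + 2 * Z))) ≤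
        (16 * (Z : ℝ) ^ 2 * (1 + 2 * Z) ^ 2) * T ^ 2 * |P| ^ (4 * d.W) := by
      push_cast
      calc (d.s : ℝ) * (4 * (d.W : ℝ) * (T * (4 * T * (1 + 2 * Z) * |P| ^ (4 * d.W)) * (1 + 2 * Z)))
          ≤ (Z : ℝ) * (4 * (Z : ℝ) * (T * (4 * T * (1 + 2 * Z) * |P| ^ (4 * d.W)) * (1 + 2 * Z))) := by
            gcongr
        _ = _ := by ring
    have h9 : 16 * (Z : ℝ) ^ 2 * (1 + 2 * Z) ^ 2 ≤ T := by
      refine le_trans ?_ hT5
      have h10 : 16 * (Z : ℝ) ^ 2 * (1 + 2 * Z) ^ 2 ≤ (2 * Z + 2) ^ 4 * 4 := by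
        have h11 : 16 * (Z : ℝ) ^ 2 ≤ (2 * Z + 2) ^ 2 * 4 := by nlinarith
        have h12 : (1 + 2 * (Z : ℝ)) ^ 2 ≤ (2 * Z + 2) ^ 2 := by nlinarith
        calc 16 * (Z : ℝ) ^ 2 * (1 + 2 * Z) ^ 2 ≤ ((2 * Z + 2) ^ 2 * 4) * (2 * Z + 2) ^ 2 := by gcongr
          _ = _ := by ring
      refine h10.trans ?_
      calc (2 * (Z : ℝ) + 2) ^ 4 * 4 ≤ (2 * Z + 2) ^ 4 * (2 * Z + 2) := by gcongr; linarith
        _ = _ := by ring
    have hPn : 0 ≤ |P| ^ (4 * d.W) := by positivity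
    calc _ ≤ (16 * (Z : ℝ) ^ 2 * (1 + 2 * Z) ^ 2) * T ^ 2 * |P| ^ (4 * d.W) + (1 + 2 * Z) * |P| ^ (4 * d.W) :=
          add_le_add h8 le_rfl
      _ ≤ T * T ^ 2 * |P| ^ (4 * d.W) + T * |P| ^ (4 * d.W) := by
          gcongr
          linarith
      _ = (T ^ 3 + T) * |P| ^ (4 * d.W) := by ring
      _ ≤ T ^ 6 * |P| ^ (4 * d.W) := by
          refine mul_le_mul_of_nonneg_right ?_ hPn
          have h11 : T ≤ T ^ 3 := le_self_pow₀ (by linarith) (by norm_num)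
          have h12 : T ^ 3 * 2 ≤ T ^ 3 * T ^ 3 := by
            refine mul_le_mul_of_nonneg_left ?_ (by positivity)
            linarith
          calc T ^ 3 + T ≤ T ^ 3 * 2 := by linarith
            _ ≤ T ^ 3 * T ^ 3 := h12
            _ = T ^ 6 := by ring

end Pool.Agent.H85.SA
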