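import Pool.Agent.H85.SA.Def

/-! # [H85 SA K1a] Soundness of the certificates for one function

(t, y) is a real (integer) zero of `G`. `vl_em`, `vl_emT`: evaluation (`vl` is a ring homomorphism in the polynomial: `vl_add`, `vl_mul` .. in H98/AL/GEN.lean).
* `sz_up`: `|s(x)| ≤ ∑ |s_i| |x|^i ≤ Z X^(deg s)` for `|x| ≤ X`, `1 ≤ X`.
* `sz_lo`: `s ≠ 0`, `|x| ≥ 2Z, 1`: leading coefficient is an integer of absolute value `≥ 1`, the other terms are together at most `Z |x|^(deg - 1) ≤ |x|^deg / 2` (deg = 0: trivial).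
* `bd_sound`: divide `∑ s_j(t) A^(N-j) D^j = 0` by `D^N`: `∑ s_j(t) z^(N-j) = 0`, `z = A/D`; `|s_j(t)| ≤ Z |t|^(deg s_j) ≤ Z |t|^(deg s_0) ≤ 2 Z |s_0(t)|`. If `|z| > 1 + 2Z` then `|z|^N ≤ 2Z ∑_(j=1)^N |z|^(N-j) = 2Z (|z|^N - 1)/(|z| - 1) < |z|^N`, contradiction.
* `ig_sound`: in `ℤ`: `e A^N + s_1 A^(N-1) D + .. + s_N D^N = 0`; multiply by `e^(N-1)`: `(eA)^N + s_1 (eA)^(N-1) D + e s_2 (eA)^(N-2) D^2 .. = 0`: the rational number `eA/D` is integral over `ℤ`, so an integer (`IsIntegrallyClosed ℤ`).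
* `eqv_sound`: `μ (A - B) = G Q`, evaluate, `μ ≠ 0`. -/

namespace Pool.Agent.H85.SA

open Pool.Agent.H98.AL

theorem vl_em {S : Type*} [CommRing S] (s : Polynomial ℤ) (x y : S) : vl (em s) x y = Polynomial.aeval x s := by
  have h1 : vl (em s) x y = (MvPolynomial.eval₂Hom (Int.castRingHom S) ![x, y])
      (Polynomial.eval₂ (algebraMap ℤ P2) (MvPolynomial.X 0) s) := rfl
  have h2 : (MvPolynomial.eval₂Hom (Int.castRingHom S) ![x, y]) (MvPolynomial.X 0 : P2) = x := by
    rw [MvPolynomial.eval₂Hom_X']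
    rfl
  rw [h1, Polynomial.hom_eval₂, h2, Polynomial.aeval_def]
  congr 1
  exact RingHom.ext_int _ _

theorem vl_emT {S : Type*} [CommRing S] (s : Polynomial ℤ) (x y : S) : vl (emT s) x y = Polynomial.aeval y s := by
  have h1 : vl (emT s) x y = (MvPolynomial.eval₂Hom (Int.castRingHom S) ![x, y])
      (Polynomial.eval₂ (algebraMap ℤ P2) (MvPolynomial.X 1) s) := rfl
  have h2 : (MvPolynomial.eval₂Hom (Int.castRingHom S) ![x, y]) (MvPolynomial.X 1 : P2) = y := by
    rw [MvPolynomial.eval₂Hom_X']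
    rfl
  rw [h1, Polynomial.hom_eval₂, h2, Polynomial.aeval_def]
  congr 1
  exact RingHom.ext_int _ _

/-- the sum of the absolute values of the first coefficients -/
private theorem sz_sum {Z : ℕ} {s : Polynomial ℤ} (h : Sz Z s) {n : ℕ} (hn : n ≤ Z + 1) :
    ∑ i ∈ Finset.range n, |(s.coeff i : ℝ)| ≤ Z := by
  have h1 : ∑ i ∈ Finset.range n, |s.coeff i| ≤ (Z : ℤ) :=
    (Finset.sum_le_sum_of_subset_of_nonneg (Finset.range_subset_range.2 hn)
      (fun i _ _ => abs_nonneg _)).trans h.2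
  have h2 : ((∑ i ∈ Finset.range n, |s.coeff i| : ℤ) : ℝ) ≤ ((Z : ℤ) : ℝ) := by exact_mod_cast h1
  push_cast at h2
  exact h2

theorem sz_up {Z : ℕ} {s : Polynomial ℤ} (h : Sz Z s) {x X : ℝ} (hX : 1 ≤ X) (hx : |x| ≤ X) :
    |Polynomial.aeval x s| ≤ Z * X ^ s.natDegree := by
  have hX0 : 0 ≤ X := by linarith
  rw [Polynomial.aeval_eq_sum_range]
  calc |∑ i ∈ Finset.range (s.natDegree + 1), s.coeff i • x ^ i|
      ≤ ∑ i ∈ Finset.range (s.natDegree + 1), |s.coeff i • x ^ i| := Finset.abs_sum_le_sum_abs _ _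
    _ ≤ ∑ i ∈ Finset.range (s.natDegree + 1), |(s.coeff i : ℝ)| * X ^ s.natDegree := by
        refine Finset.sum_le_sum fun i hi => ?_
        have h1 : i ≤ s.natDegree := by
          have := Finset.mem_range.1 hi
          omega
        rw [zsmul_eq_mul, abs_mul, abs_pow]
        refine mul_le_mul_of_nonneg_left ?_ (abs_nonneg _)
        exact (pow_le_pow_left₀ (abs_nonneg _) hx i).trans (pow_le_pow_right₀ hX h1)
    _ = (∑ i ∈ Finset.range (s.natDegree + 1), |(s.coeff i : ℝ)|) * X ^ s.natDegree := by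
        rw [Finset.sum_mul]
    _ ≤ Z * X ^ s.natDegree := by
        refine mul_le_mul_of_nonneg_right (sz_sum h ?_) (pow_nonneg hX0 _)
        have := h.1
        omega

theorem sz_lo {Z : ℕ} {s : Polynomial ℤ} (h : Sz Z s) (h0 : s ≠ 0) {x : ℝ} (hx : 2 * (Z : ℝ) ≤ |x|) (h1 : 1 ≤ |x|) :
    |x| ^ s.natDegree ≤ 2 * |Polynomial.aeval x s| := by
  obtain ⟨n, hn⟩ : ∃ n, n = s.natDegree := ⟨_, rfl⟩
  have hx0 : 0 ≤ |x| := by linarith
  have hlc : (1 : ℝ) ≤ |(s.coeff n : ℝ)| := by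
    have h2 : s.coeff n ≠ 0 := by
      rw [hn]
      exact Polynomial.leadingCoeff_ne_zero.2 h0
    have h3 : 1 ≤ |s.coeff n| := Int.one_le_abs h2
    exact_mod_cast h3
  have hsum : |∑ i ∈ Finset.range n, s.coeff i • x ^ i| ≤ |x| ^ n / 2 := by
    rcases Nat.eq_zero_or_pos n with h2 | h2
    · rw [h2, Finset.range_zero, Finset.sum_empty, abs_zero]
      positivity
    · have h3 : |∑ i ∈ Finset.range n, s.coeff i • x ^ i| ≤ Z * |x| ^ (n - 1) := by
        calc |∑ i ∈ Finset.range n, s.coeff i • x ^ i|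
            ≤ ∑ i ∈ Finset.range n, |s.coeff i • x ^ i| := Finset.abs_sum_le_sum_abs _ _
          _ ≤ ∑ i ∈ Finset.range n, |(s.coeff i : ℝ)| * |x| ^ (n - 1) := by
              refine Finset.sum_le_sum fun i hi => ?_
              have h4 : i ≤ n - 1 := by
                have := Finset.mem_range.1 hi
                omega
              rw [zsmul_eq_mul, abs_mul, abs_pow]
              exact mul_le_mul_of_nonneg_left (pow_le_pow_right₀ h1 h4) (abs_nonneg _)
          _ = (∑ i ∈ Finset.range n, |(s.coeff i : ℝ)|) * |x| ^ (n - 1) := by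
              rw [Finset.sum_mul]
          _ ≤ Z * |x| ^ (n - 1) := by
              refine mul_le_mul_of_nonneg_right (sz_sum h ?_) (pow_nonneg hx0 _)
              have := h.1
              omega
      have h4 : |x| ^ n = |x| ^ (n - 1) * |x| := by
        rw [← pow_succ]
        congr 1
        omega
      have h5 : 0 ≤ |x| ^ (n - 1) := pow_nonneg hx0 _
      rw [h4]
      nlinarith
  have hval : Polynomial.aeval x s = (∑ i ∈ Finset.range n, s.coeff i • x ^ i) + s.coeff n • x ^ n := by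
    rw [Polynomial.aeval_eq_sum_range, ← hn, Finset.sum_range_succ]
  have h6 : |x| ^ n ≤ |s.coeff n • x ^ n| := by
    rw [zsmul_eq_mul, abs_mul, abs_pow]
    exact le_mul_of_one_le_left (pow_nonneg hx0 _) hlc
  have h7 : |s.coeff n • x ^ n| ≤ |Polynomial.aeval x s| + |∑ i ∈ Finset.range n, s.coeff i • x ^ i| := by
    have h8 : s.coeff n • x ^ n = Polynomial.aeval x s - ∑ i ∈ Finset.range n, s.coeff i • x ^ i := by
      rw [hval]
      ring
    rw [h8]
    exact abs_sub _ _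
  rw [← hn]
  linarith

/-- the evaluation of the equation of a certificate -/
private theorem ev_sum {S : Type*} [CommRing S] {G D A Q : P2} {N : ℕ} {s : ℕ → Polynomial ℤ}
    (h : ∑ j ∈ Finset.range (N + 1), em (s j) * A ^ (N - j) * D ^ j = G * Q) {t y : S} (h0 : vl G t y = 0) :
    ∑ j ∈ Finset.range (N + 1), Polynomial.aeval t (s j) * vl A t y ^ (N - j) * vl D t y ^ j = 0 := by
  have h1 := congrArg (fun F : P2 => MvPolynomial.eval₂Hom (Int.castRingHom S) ![t, y] F) h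
  simp only [map_sum, map_mul, map_pow] at h1
  have h2 : ∀ F : P2, (MvPolynomial.eval₂Hom (Int.castRingHom S) ![t, y]) F = vl F t y := fun F => rfl
  simp only [h2, h0, zero_mul, vl_em] at h1
  exact h1

theorem bd_sound {G D A : P2} {Z : ℕ} (h : Bd G Z D A) {t y : ℝ} (h0 : vl G t y = 0) (hD : vl D t y ≠ 0)
    (ht : 2 * (Z : ℝ) ≤ |t|) (h1 : 1 ≤ |t|) : |vl A t y / vl D t y| ≤ 1 + 2 * Z := by
  obtain ⟨N, s, Q, hN1, -, hs0, hs, heq⟩ := h
  have hev := ev_sum heq h0
  obtain ⟨z, hz⟩ : ∃ z : ℝ, z = vl A t y / vl D t y := ⟨_, rfl⟩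
  have hA : vl A t y = z * vl D t y := by
    rw [hz, div_mul_cancel₀ _ hD]
  rw [← hz]
  obtain ⟨a, ha⟩ : ∃ a : ℕ → ℝ, ∀ j, a j = Polynomial.aeval t (s j) := ⟨_, fun j => rfl⟩
  have hev2 : ∑ j ∈ Finset.range (N + 1), a j * z ^ (N - j) = 0 := by
    have h2 : vl D t y ^ N ≠ 0 := pow_ne_zero _ hD
    have h3 : (∑ j ∈ Finset.range (N + 1), a j * z ^ (N - j)) * vl D t y ^ N = 0 := by
      rw [Finset.sum_mul, ← hev]
      refine Finset.sum_congr rfl fun j hj => ?_
      have h4 : j ≤ N := by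
        have := Finset.mem_range.1 hj
        omega
      have h5 : vl D t y ^ N = vl D t y ^ (N - j) * vl D t y ^ j := by
        rw [← pow_add]
        congr 1
        omega
      rw [hA, mul_pow, h5, ha]
      ring
    exact (mul_eq_zero.1 h3).resolve_right h2
  have ht0 : 0 ≤ |t| := by linarith
  have hlo := sz_lo (hs 0 (Nat.zero_le _)).2 hs0 ht h1
  rw [← ha 0] at hlo
  have ha0 : 0 < |a 0| := by
    have h2 : (1 : ℝ) ≤ |t| ^ (s 0).natDegree := one_le_pow₀ h1
    linarith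
  have hup : ∀ j ≤ N, |a j| ≤ 2 * Z * |a 0| := by
    intro j hj
    obtain ⟨h2, h3⟩ := hs j hj
    have h4 := sz_up h3 h1 (le_refl |t|)
    rw [← ha j] at h4
    have h5 : |t| ^ (s j).natDegree ≤ |t| ^ (s 0).natDegree := pow_le_pow_right₀ h1 h2
    have hZ0 : (0 : ℝ) ≤ Z := Nat.cast_nonneg _
    calc |a j| ≤ Z * |t| ^ (s j).natDegree := h4
      _ ≤ Z * (2 * |a 0|) := mul_le_mul_of_nonneg_left (h5.trans hlo) hZ0
      _ = 2 * Z * |a 0| := by ring
  by_contra hcon
  push Not at hcon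
  have hZ0 : (0 : ℝ) ≤ Z := Nat.cast_nonneg _
  have hz1 : 1 < |z| := by linarith
  have hz0 : 0 < |z| := by linarith
  -- the main inequality
  have h6 : |a 0| * |z| ^ N ≤ 2 * Z * |a 0| * ∑ k ∈ Finset.range N, |z| ^ k := by
    have h7 : a 0 * z ^ N = -∑ k ∈ Finset.range N, a (k + 1) * z ^ (N - (k + 1)) := by
      rw [Finset.sum_range_succ'] at hev2
      rw [Nat.sub_zero] at hev2
      linarith
    have h8 : |a 0| * |z| ^ N = |∑ k ∈ Finset.range N, a (k + 1) * z ^ (N - (k + 1))| := by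
      rw [← abs_pow, ← abs_mul, h7, abs_neg]
    rw [h8]
    calc |∑ k ∈ Finset.range N, a (k + 1) * z ^ (N - (k + 1))|
        ≤ ∑ k ∈ Finset.range N, |a (k + 1) * z ^ (N - (k + 1))| := Finset.abs_sum_le_sum_abs _ _
      _ ≤ ∑ k ∈ Finset.range N, 2 * Z * |a 0| * |z| ^ (N - 1 - k) := by
          refine Finset.sum_le_sum fun k hk => ?_
          have h9 := Finset.mem_range.1 hk
          rw [abs_mul, abs_pow]
          have h10 : N - (k + 1) = N - 1 - k := by omega
          rw [h10]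
          exact mul_le_mul_of_nonneg_right (hup _ (by omega)) (pow_nonneg hz0.le _)
      _ = 2 * Z * |a 0| * ∑ k ∈ Finset.range N, |z| ^ (N - 1 - k) := by rw [Finset.mul_sum]
      _ = 2 * Z * |a 0| * ∑ k ∈ Finset.range N, |z| ^ k := by
          rw [Finset.sum_range_reflect (fun k => |z| ^ k) N]
  have h7 : (∑ k ∈ Finset.range N, |z| ^ k) * (|z| - 1) = |z| ^ N - 1 := geom_sum_mul _ _
  have h8 : |z| ^ N ≤ 2 * Z * ∑ k ∈ Finset.range N, |z| ^ k := by
    refine le_of_mul_le_mul_left ?_ ha0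
    calc |a 0| * |z| ^ N ≤ 2 * Z * |a 0| * ∑ k ∈ Finset.range N, |z| ^ k := h6
      _ = |a 0| * (2 * Z * ∑ k ∈ Finset.range N, |z| ^ k) := by ring
  have h9 : |z| ^ N * (|z| - 1) ≤ 2 * Z * (|z| ^ N - 1) := by
    rw [← h7, ← mul_assoc]
    exact mul_le_mul_of_nonneg_right h8 (by linarith)
  have h10 : 0 < |z| ^ N := pow_pos hz0 N
  have h11 : |z| ^ N * (2 * Z) < |z| ^ N * (|z| - 1) := mul_lt_mul_of_pos_left (by linarith) h10
  nlinarith

theorem ig_sound {G D A : P2} {Z : ℕ} (h : Ig G Z D A) {t y : ℤ} (h0 : vl G t y = 0) (hD : vl D t y ≠ 0) :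
    ∃ (e : ℕ) (n : ℤ), 1 ≤ e ∧ e ≤ Z ∧ (e : ℤ) * vl A t y = n * vl D t y := by
  obtain ⟨N, e, s, Q, hN1, he1, heZ, hs0, heq⟩ := h
  have hev := ev_sum heq h0
  obtain ⟨a, ha⟩ : ∃ a : ℕ → ℤ, ∀ j, a j = Polynomial.aeval t (s j) := ⟨_, fun j => rfl⟩
  have ha0 : a 0 = e := by
    rw [ha, hs0, Polynomial.aeval_C]
    rfl
  obtain ⟨p, hp⟩ : ∃ p : Polynomial ℤ, p = ∑ j ∈ Finset.range (N + 1),
    Polynomial.C (a j) * Polynomial.X ^ (N - j) := ⟨_, rfl⟩
  have hdeg : p.natDegree ≤ N := by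
    rw [hp]
    refine Polynomial.natDegree_sum_le_of_forall_le _ _ fun j hj => ?_
    exact (Polynomial.natDegree_C_mul_X_pow_le _ _).trans (Nat.sub_le _ _)
  have hcoef : p.coeff N = e := by
    rw [hp, Polynomial.finsetSum_coeff, Finset.sum_eq_single 0]
    · rw [Polynomial.coeff_C_mul_X_pow, Nat.sub_zero, if_pos rfl, ha0]
    · intro j hj hj0
      rw [Polynomial.coeff_C_mul_X_pow, if_neg]
      have := Finset.mem_range.1 hj
      omega
    · intro h1
      exact absurd (Finset.mem_range.2 (Nat.succ_pos _)) h1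
  have he0 : (e : ℤ) ≠ 0 := by
    have : e ≠ 0 := by omega
    exact_mod_cast this
  have hnd : p.natDegree = N := Polynomial.natDegree_eq_of_le_of_coeff_ne_zero hdeg (by rw [hcoef]; exact he0)
  have hlc : p.leadingCoeff = e := by
    rw [Polynomial.leadingCoeff, hnd, hcoef]
  have hDQ : ((vl D t y : ℤ) : ℚ) ≠ 0 := by exact_mod_cast hD
  obtain ⟨z, hz⟩ : ∃ z : ℚ, z = ((vl A t y : ℤ) : ℚ) / ((vl D t y : ℤ) : ℚ) := ⟨_, rfl⟩
  have hA : ((vl A t y : ℤ) : ℚ) = z * ((vl D t y : ℤ) : ℚ) := by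
    rw [hz, div_mul_cancel₀ _ hDQ]
  have hroot : Polynomial.aeval z p = 0 := by
    have h2 : (((vl D t y : ℤ) : ℚ)) ^ N ≠ 0 := pow_ne_zero _ hDQ
    have h3 : Polynomial.aeval z p * ((vl D t y : ℤ) : ℚ) ^ N = 0 := by
      have h6 : ((∑ j ∈ Finset.range (N + 1), a j * vl A t y ^ (N - j) * vl D t y ^ j : ℤ) : ℚ) = 0 := by
        have h7 : ∑ j ∈ Finset.range (N + 1), a j * vl A t y ^ (N - j) * vl D t y ^ j = 0 := by
          simp only [ha]
          exact hev
        rw [h7, Int.cast_zero]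
      rw [hp, map_sum, Finset.sum_mul, ← h6, Int.cast_sum]
      refine Finset.sum_congr rfl fun j hj => ?_
      have h4 : j ≤ N := by
        have := Finset.mem_range.1 hj
        omega
      have h5 : ((vl D t y : ℤ) : ℚ) ^ N = ((vl D t y : ℤ) : ℚ) ^ (N - j) * ((vl D t y : ℤ) : ℚ) ^ j := by
        rw [← pow_add]
        congr 1
        omega
      rw [map_mul, map_pow, Polynomial.aeval_C, Polynomial.aeval_X, Int.cast_mul, Int.cast_mul, Int.cast_pow,
        Int.cast_pow, hA, mul_pow, h5]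
      have h8 : (algebraMap ℤ ℚ) (a j) = ((a j : ℤ) : ℚ) := rfl
      rw [h8]
      ring
    exact (mul_eq_zero.1 h3).resolve_right h2
  have hint : IsIntegral ℤ (p.leadingCoeff • z) := _root_.isIntegral_leadingCoeff_smul p z hroot
  obtain ⟨n, hn⟩ := IsIntegrallyClosed.isIntegral_iff.1 hint
  refine ⟨e, n, he1, heZ, ?_⟩
  have h9 : ((e : ℤ) : ℚ) * z = (n : ℚ) := by
    rw [hlc, zsmul_eq_mul] at hn
    rw [← hn]
    rfl
  have h10 : (((e : ℤ) * vl A t y : ℤ) : ℚ) = ((n * vl D t y : ℤ) : ℚ) := by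
    rw [Int.cast_mul, hA, ← mul_assoc, h9, Int.cast_mul]
  exact_mod_cast h10

theorem eqv_sound {G A B : P2} (h : Eqv G A B) {S : Type*} [CommRing S] [IsDomain S] [CharZero S] {t y : S}
    (h0 : vl G t y = 0) : vl A t y = vl B t y := by
  obtain ⟨μ, Q, hμ, heq⟩ := h
  have h1 := congrArg (fun F : P2 => vl F t y) heq
  simp only [vl_mul, vl_C, vl_sub, h0, zero_mul] at h1
  have h2 : (μ : S) ≠ 0 := Int.cast_ne_zero.2 hμ
  exact sub_eq_zero.1 ((mul_eq_zero.1 h1).resolve_left h2)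

/-- values of `hm` -/
theorem hm_val {S : Type*} [Field S] (P : Polynomial ℤ) {e : ℕ} (he : P.natDegree ≤ e) (A B : S) (hB : B ≠ 0) :
    hm P e A B = Polynomial.aeval (A / B) P * B ^ e := by
  unfold hm
  rw [Polynomial.aeval_eq_sum_range' (Nat.lt_succ_of_le he), Finset.sum_mul]
  refine Finset.sum_congr rfl fun l hl => ?_
  have h1 : l ≤ e := by
    have := Finset.mem_range.1 hl
    omega
  have h2 : B ^ e = B ^ l * B ^ (e - l) := by
    rw [← pow_add]
    congr 1
    omega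
  rw [zsmul_eq_mul, div_pow, h2]
  have h3 : B ^ l ≠ 0 := pow_ne_zero _ hB
  field_simp

/-- the coordinate `y` -/
theorem y_bd {G : P2} {Z : ℕ} (hZ : 1 ≤ Z) (hd : G.totalDegree ≤ Z)
    (hlc : MvPolynomial.coeff (Finsupp.single 1 G.totalDegree) G ≠ 0)
    (hG : ∀ t, |MvPolynomial.coeff t G| ≤ (Z : ℤ)) {t y : ℤ} (h0 : vl G t y = 0) {X : ℤ} (hX : 1 ≤ X) (ht : |t| ≤ X) :
    |y| ≤ Z * (Z + 1) ^ 2 * X := by
  classical
  have hZ' : (1 : ℤ) ≤ Z := by exact_mod_cast hZ
  have hK : (1 : ℤ) ≤ Z * (Z + 1) ^ 2 := by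
    have : (1 : ℤ) ≤ (Z + 1 : ℤ) ^ 2 := one_le_pow₀ (by linarith)
    nlinarith
  rcases lt_or_ge |y| X with hyX | hyX
  · nlinarith
  obtain ⟨d, hdd⟩ : ∃ d, d = G.totalDegree := ⟨_, rfl⟩
  rw [← hdd] at hd hlc
  obtain ⟨τ, hτ⟩ : ∃ τ : Fin 2 →₀ ℕ, τ = Finsupp.single 1 d := ⟨_, rfl⟩
  rw [← hτ] at hlc
  have hτs : τ ∈ G.support := MvPolynomial.mem_support_iff.2 hlc
  have hτ0 : τ 0 = 0 := by
    rw [hτ, Finsupp.single_apply, if_neg (by decide)]
  have hτ1 : τ 1 = d := by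
    rw [hτ, Finsupp.single_apply, if_pos rfl]
  have hdeg : ∀ u ∈ G.support, u 0 + u 1 ≤ d := by
    intro u hu
    have h1 := MvPolynomial.le_totalDegree hu
    rw [← hdd] at h1
    have h2 : (u.sum fun _ e => e) = u 0 + u 1 := by
      rw [Finsupp.sum_fintype _ _ (fun _ => rfl), Fin.sum_univ_two]
    omega
  have hval := vl_sum G t y
  rw [h0, ← Finset.add_sum_erase _ _ hτs, hτ0, hτ1, pow_zero, one_mul] at hval
  simp only [Int.cast_id] at hval
  obtain ⟨R, hR⟩ : ∃ R : ℤ, R = ∑ u ∈ G.support.erase τ, MvPolynomial.coeff u G * (t ^ u 0 * y ^ u 1) :=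
    ⟨_, rfl⟩
  rw [← hR] at hval
  have hy0 : 0 ≤ |y| := abs_nonneg _
  have hy1 : 1 ≤ |y| := by linarith
  have hcy : |y| ^ d ≤ |R| := by
    have h1 : MvPolynomial.coeff τ G * y ^ d = -R := by linarith
    have h2 : |MvPolynomial.coeff τ G| * |y| ^ d = |R| := by
      rw [← abs_pow, ← abs_mul, ← abs_neg R, ← h1]
    rw [← h2]
    exact le_mul_of_one_le_left (pow_nonneg hy0 _) (Int.one_le_abs hlc)
  rcases Nat.eq_zero_or_pos d with hd0 | hd0
  · -- `G` is a non zero constant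
    exfalso
    have h1 : G.support.erase τ = ∅ := by
      rw [Finset.eq_empty_iff_forall_notMem]
      intro u hu
      obtain ⟨h2, h3⟩ := Finset.mem_erase.1 hu
      apply h2
      have h4 := hdeg u h3
      ext i
      fin_cases i
      · show u 0 = τ 0
        omega
      · show u 1 = τ 1
        omega
    rw [h1, Finset.sum_empty] at hR
    rw [hR, hd0, pow_zero, abs_zero] at hcy
    omega
  -- all other terms
  have hterm : ∀ u ∈ G.support.erase τ, |MvPolynomial.coeff u G * (t ^ u 0 * y ^ u 1)| ≤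
      Z * (X * |y| ^ (d - 1)) := by
    intro u hu
    obtain ⟨h2, h3⟩ := Finset.mem_erase.1 hu
    have h4 := hdeg u h3
    have h5 : |t ^ u 0 * y ^ u 1| ≤ X * |y| ^ (d - 1) := by
      rw [abs_mul, abs_pow, abs_pow]
      have h6 : |t| ^ u 0 ≤ X ^ u 0 := pow_le_pow_left₀ (abs_nonneg _) ht _
      refine (mul_le_mul_of_nonneg_right h6 (pow_nonneg hy0 _)).trans ?_
      rcases Nat.eq_zero_or_pos (u 0) with h7 | h7
      · have h8 : u 1 ≤ d - 1 := by
          have h9 : u 1 ≠ d := by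
            intro h10
            apply h2
            ext i
            fin_cases i
            · show u 0 = τ 0
              omega
            · show u 1 = τ 1
              omega
          omega
        rw [h7, pow_zero, one_mul]
        have h9 : |y| ^ u 1 ≤ |y| ^ (d - 1) := pow_le_pow_right₀ hy1 h8
        exact h9.trans (le_mul_of_one_le_left (pow_nonneg hy0 _) hX)
      · obtain ⟨k, hk⟩ := Nat.exists_eq_succ_of_ne_zero (Nat.pos_iff_ne_zero.1 h7)
        rw [hk, Nat.succ_eq_add_one, pow_succ']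
        have h8 : X ^ k ≤ |y| ^ k := pow_le_pow_left₀ (by linarith) hyX _
        have h9 : k + u 1 ≤ d - 1 := by omega
        calc X * X ^ k * |y| ^ u 1 = X * (X ^ k * |y| ^ u 1) := by ring
          _ ≤ X * (|y| ^ k * |y| ^ u 1) := by
              refine mul_le_mul_of_nonneg_left ?_ (by linarith)
              exact mul_le_mul_of_nonneg_right h8 (pow_nonneg hy0 _)
          _ = X * |y| ^ (k + u 1) := by rw [pow_add]
          _ ≤ X * |y| ^ (d - 1) :=
              mul_le_mul_of_nonneg_left (pow_le_pow_right₀ hy1 h9) (by linarith)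
    rw [abs_mul]
    exact mul_le_mul (hG u) h5 (abs_nonneg _) (by linarith)
  have hcard : ((G.support.erase τ).card : ℤ) ≤ (Z + 1) ^ 2 := by
    have h1 : (G.support.erase τ).card ≤ ((Finset.range (Z + 1)) ×ˢ (Finset.range (Z + 1))).card := by
      refine Finset.card_le_card_of_injOn (fun u => (u 0, u 1)) ?_ ?_
      · intro u hu
        have h2 := hdeg u (Finset.mem_of_mem_erase hu)
        rw [Finset.mem_coe, Finset.mem_product, Finset.mem_range, Finset.mem_range]
        constructor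
        · show u 0 < Z + 1
          omega
        · show u 1 < Z + 1
          omega
      · intro u _ v _ huv
        have h2 : u 0 = v 0 := congrArg Prod.fst huv
        have h3 : u 1 = v 1 := congrArg Prod.snd huv
        ext i
        fin_cases i
        · exact h2
        · exact h3
    rw [Finset.card_product, Finset.card_range] at h1
    have h2 : ((G.support.erase τ).card : ℤ) ≤ (((Z + 1) * (Z + 1) : ℕ) : ℤ) := by exact_mod_cast h1
    push_cast at h2
    linarith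
  have hRb : |R| ≤ (Z + 1) ^ 2 * (Z * (X * |y| ^ (d - 1))) := by
    rw [hR]
    refine (Finset.abs_sum_le_sum_abs _ _).trans ?_
    refine (Finset.sum_le_card_nsmul _ _ _ hterm).trans ?_
    rw [nsmul_eq_mul]
    refine mul_le_mul_of_nonneg_right hcard ?_
    have h1 : 0 ≤ |y| ^ (d - 1) := pow_nonneg hy0 _
    have h2 : 0 ≤ X * |y| ^ (d - 1) := mul_nonneg (by linarith) h1
    nlinarith
  have hyd : |y| ^ d = |y| ^ (d - 1) * |y| := by
    rw [← pow_succ]
    congr 1
    omega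
  have hpos : 0 < |y| ^ (d - 1) := pow_pos (by linarith) _
  refine le_of_mul_le_mul_left ?_ hpos
  calc |y| ^ (d - 1) * |y| = |y| ^ d := hyd.symm
    _ ≤ (Z + 1) ^ 2 * (Z * (X * |y| ^ (d - 1))) := hcy.trans hRb
    _ = |y| ^ (d - 1) * (Z * (Z + 1) ^ 2 * X) := by ring

end Pool.Agent.H85.SA
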