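import Pool.Agent.H85.SA.Bds

/-! # [H85 SA K1b] The real root near `g`

`TT Z = (2Z+2)^(Z+3)`. For `|x| ≤ 2Z + 2` and `Sz Z s`: `|s(x)| ≤ Z (2Z+2)^Z ≤ T`, `|q'(x)| ≤ Z^2 (2Z+2)^Z ≤ T`, `|q''(x)| ≤ Z^3 (2Z+2)^Z ≤ T`.
`ε = |q(g)| ≤ 1/(16 T^3)`. `U(g) q(g) + V(g) q'(g) = N₀`, `|N₀| ≥ 1`: `|V(g) q'(g)| ≥ 1 - T ε ≥ 1/2`, `|q'(g)| ≥ 1/(2T)`. Let `h = 1/(4T^2) ≤ 1`. For `|x - g| ≤ h` (so `|x| ≤ 2Z + 2`): `|q'(x) - q'(g)| ≤ T h = 1/(4T)`,
so `q'(x)` has the sign of `q'(g)` and `|q'(x)| ≥ 1/(4T)`. `|q(g)| = ε ≤ h/(4T)`: the function `q` goes from `q(g)` through `0` on the side of `g` where it decreases in absolute value: at the distance `4 T ε ≤ h` it has changed by at least `ε` (mean value theorem): intermediate value theorem: a zero `α` with `|g - α| ≤ 4 T ε`. -/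

namespace Pool.Agent.H85.SA

open Pool.Agent.H98.AL

/-- the basic bound -/
def TT (Z : ℕ) : ℕ := (2 * Z + 2) ^ (Z + 3)

/-- the value of a polynomial, general form -/
private theorem ev_bd {s : Polynomial ℤ} {Z : ℕ} {M : ℝ} (hn : s.natDegree ≤ Z)
    (hM : ∑ i ∈ Finset.range (Z + 1), |(s.coeff i : ℝ)| ≤ M) {x X : ℝ} (hX : 1 ≤ X) (hx : |x| ≤ X) :
    |Polynomial.aeval x s| ≤ M * X ^ Z := by
  have hX0 : 0 ≤ X := by linarith
  rw [Polynomial.aeval_eq_sum_range' (Nat.lt_succ_of_le hn)]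
  calc |∑ i ∈ Finset.range (Z + 1), s.coeff i • x ^ i|
      ≤ ∑ i ∈ Finset.range (Z + 1), |s.coeff i • x ^ i| := Finset.abs_sum_le_sum_abs _ _
    _ ≤ ∑ i ∈ Finset.range (Z + 1), |(s.coeff i : ℝ)| * X ^ Z := by
        refine Finset.sum_le_sum fun i hi => ?_
        have h1 : i ≤ Z := by
          have := Finset.mem_range.1 hi
          omega
        rw [zsmul_eq_mul, abs_mul, abs_pow]
        refine mul_le_mul_of_nonneg_left ?_ (abs_nonneg _)
        exact (pow_le_pow_left₀ (abs_nonneg _) hx i).trans (pow_le_pow_right₀ hX h1)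
    _ = (∑ i ∈ Finset.range (Z + 1), |(s.coeff i : ℝ)|) * X ^ Z := by
        rw [Finset.sum_mul]
    _ ≤ M * X ^ Z := mul_le_mul_of_nonneg_right hM (pow_nonneg hX0 _)

/-- the coefficients of the derivative -/
private theorem der_sum {s : Polynomial ℤ} {Z : ℕ} {M : ℝ} (hn : s.natDegree ≤ Z)
    (hM : ∑ i ∈ Finset.range (Z + 1), |(s.coeff i : ℝ)| ≤ M) :
    (Polynomial.derivative s).natDegree ≤ Z ∧
      ∑ i ∈ Finset.range (Z + 1), |((Polynomial.derivative s).coeff i : ℝ)| ≤ Z * M := by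
  refine ⟨(Polynomial.natDegree_derivative_le s).trans ((Nat.sub_le _ _).trans hn), ?_⟩
  have hZ0 : (0 : ℝ) ≤ Z := Nat.cast_nonneg _
  have h1 : ∀ i, i ≤ Z → |((Polynomial.derivative s).coeff i : ℝ)| ≤ Z * |(s.coeff (i + 1) : ℝ)| := by
    intro i hi
    rw [Polynomial.coeff_derivative]
    push_cast
    rcases Nat.lt_or_ge i Z with h2 | h2
    · have h3 : ((i : ℝ) + 1) ≤ Z := by exact_mod_cast h2
      have h4 : (0 : ℝ) ≤ (i : ℝ) + 1 := by positivity
      rw [abs_mul, abs_of_nonneg h4, mul_comm]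
      exact mul_le_mul_of_nonneg_right h3 (abs_nonneg _)
    · have h3 : s.coeff (i + 1) = 0 := Polynomial.coeff_eq_zero_of_natDegree_lt (by omega)
      rw [h3]
      simp
  calc ∑ i ∈ Finset.range (Z + 1), |((Polynomial.derivative s).coeff i : ℝ)|
      ≤ ∑ i ∈ Finset.range (Z + 1), Z * |(s.coeff (i + 1) : ℝ)| :=
        Finset.sum_le_sum fun i hi => h1 i (by
          have := Finset.mem_range.1 hi
          omega)
    _ = Z * ∑ i ∈ Finset.range (Z + 1), |(s.coeff (i + 1) : ℝ)| := by rw [Finset.mul_sum]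
    _ ≤ Z * ∑ i ∈ Finset.range (Z + 1 + 1), |(s.coeff i : ℝ)| := by
        refine mul_le_mul_of_nonneg_left ?_ hZ0
        rw [Finset.sum_range_succ' (fun i => |(s.coeff i : ℝ)|) (Z + 1)]
        exact le_add_of_nonneg_right (abs_nonneg _)
    _ = Z * ∑ i ∈ Finset.range (Z + 1), |(s.coeff i : ℝ)| := by
        rw [Finset.sum_range_succ (fun i => |(s.coeff i : ℝ)|) (Z + 1)]
        have h3 : s.coeff (Z + 1) = 0 := Polynomial.coeff_eq_zero_of_natDegree_lt (by omega)
        rw [h3]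
        simp
    _ ≤ Z * M := mul_le_mul_of_nonneg_left hM hZ0

private theorem sz_real {Z : ℕ} {s : Polynomial ℤ} (h : Sz Z s) :
    ∑ i ∈ Finset.range (Z + 1), |(s.coeff i : ℝ)| ≤ Z := by
  have h2 : ((∑ i ∈ Finset.range (Z + 1), |s.coeff i| : ℤ) : ℝ) ≤ ((Z : ℤ) : ℝ) := by exact_mod_cast h.2
  push_cast at h2
  exact h2

/-- the numbers -/
private theorem tt_bd (Z k : ℕ) (hk : k ≤ 3) (hZ : 1 ≤ Z) :
    (Z : ℝ) ^ k * ((2 : ℝ) * Z + 2) ^ Z ≤ TT Z := by
  have hZ1 : (1 : ℝ) ≤ Z := by exact_mod_cast hZ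
  unfold TT
  push_cast
  rw [pow_add, mul_comm ((2 * (Z : ℝ) + 2) ^ Z)]
  refine mul_le_mul_of_nonneg_right ?_ (by positivity)
  calc (Z : ℝ) ^ k ≤ (Z : ℝ) ^ 3 := pow_le_pow_right₀ hZ1 hk
    _ ≤ (2 * (Z : ℝ) + 2) ^ 3 := pow_le_pow_left₀ (by linarith) (by linarith) 3

/-- values, values of the first and of the second derivative -/
private theorem ev_tt {s : Polynomial ℤ} {Z : ℕ} (hZ : 2 ≤ Z) (hs : Sz Z s) {x : ℝ} (hx : |x| ≤ 2 * Z + 2) :
    |Polynomial.aeval x s| ≤ TT Z ∧ |Polynomial.aeval x (Polynomial.derivative s)| ≤ TT Z ∧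
      |Polynomial.aeval x (Polynomial.derivative (Polynomial.derivative s))| ≤ TT Z := by
  have hZ1 : (1 : ℝ) ≤ Z := by exact_mod_cast (by omega : 1 ≤ Z)
  have hX : (1 : ℝ) ≤ 2 * Z + 2 := by linarith
  obtain ⟨h1, h2⟩ := der_sum hs.1 (sz_real hs)
  obtain ⟨h3, h4⟩ := der_sum h1 h2
  refine ⟨?_, ?_, ?_⟩
  · have h5 := ev_bd hs.1 (sz_real hs) hX hx
    have h6 := tt_bd Z 1 (by norm_num) (by omega)
    rw [pow_one] at h6
    exact h5.trans h6
  · have h5 := ev_bd h1 h2 hX hx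
    have h6 := tt_bd Z 2 (by norm_num) (by omega)
    rw [pow_two] at h6
    exact h5.trans h6
  · have h5 := ev_bd h3 h4 hX hx
    have h6 := tt_bd Z 3 (by norm_num) (by omega)
    have h7 : (Z : ℝ) ^ 3 = Z * (Z * Z) := by ring
    rw [h7] at h6
    exact h5.trans h6

/-- the mean value theorem -/
private theorem lip {s : Polynomial ℤ} {C R : ℝ}
    (h : ∀ x : ℝ, |x| ≤ R → |Polynomial.aeval x (Polynomial.derivative s)| ≤ C) {x y : ℝ} (hx : |x| ≤ R)
    (hy : |y| ≤ R) : |Polynomial.aeval x s - Polynomial.aeval y s| ≤ C * |x - y| := by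
  have key := Convex.norm_image_sub_le_of_norm_hasDerivWithin_le
    (f := fun x : ℝ => Polynomial.aeval x s) (f' := fun x : ℝ => Polynomial.aeval x (Polynomial.derivative s))
    (C := C) (s := Set.Icc (-R) R) (x := y) (y := x)
    (fun u _ => (Polynomial.hasDerivAt_aeval s u).hasDerivWithinAt)
    (fun u hu => h u (abs_le.2 hu)) (convex_Icc _ _) (abs_le.1 hy) (abs_le.1 hx)
  exact key

/-- a function which increases has a zero near a small value -/
private theorem zero_incr {f f' : ℝ → ℝ} (hd : ∀ x, HasDerivAt f (f' x) x) {g h c : ℝ} (hc : 0 < c)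
    (hf : ∀ x, |x - g| ≤ h → c ≤ f' x) (hs : |f g| ≤ c * h) :
    ∃ α, f α = 0 ∧ |g - α| ≤ |f g| / c := by
  obtain ⟨δ, hδ⟩ : ∃ δ, δ = |f g| / c := ⟨_, rfl⟩
  have hδ0 : 0 ≤ δ := by rw [hδ]; positivity
  have hcδ : c * δ = |f g| := by
    rw [hδ, mul_div_cancel₀ _ hc.ne']
  have hδh : δ ≤ h := by
    refine le_of_mul_le_mul_left ?_ hc
    rw [hcδ]
    exact hs
  have hcont : Continuous f := continuous_iff_continuousAt.2 fun x => (hd x).continuousAt
  have hdiff : Differentiable ℝ f := fun x => (hd x).differentiableAt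
  have hmv := Convex.mul_sub_le_image_sub_of_le_deriv (convex_Icc (g - δ) (g + δ)) (f := f)
    hcont.continuousOn hdiff.differentiableOn (C := c) (by
      intro x hx
      have h1 := interior_subset hx
      rw [(hd x).deriv]
      refine hf x (abs_le.2 ⟨?_, ?_⟩)
      · linarith [h1.1]
      · linarith [h1.2])
  have h1 : c * δ ≤ f (g + δ) - f g := by
    have h2 := hmv g ⟨by linarith, by linarith⟩ (g + δ) ⟨by linarith, by linarith⟩ (by linarith)
    have h3 : g + δ - g = δ := by ring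
    rwa [h3] at h2
  have h2 : c * δ ≤ f g - f (g - δ) := by
    have h2 := hmv (g - δ) ⟨by linarith, by linarith⟩ g ⟨by linarith, by linarith⟩ (by linarith)
    have h3 : g - (g - δ) = δ := by ring
    rwa [h3] at h2
  have h3 := neg_abs_le (f g)
  have h4 := le_abs_self (f g)
  have hivt := intermediate_value_Icc (show g - δ ≤ g + δ by linarith) (f := f) hcont.continuousOn
  obtain ⟨α, hα, hα0⟩ := hivt (show (0 : ℝ) ∈ Set.Icc (f (g - δ)) (f (g + δ)) from ⟨by linarith, by linarith⟩)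
  refine ⟨α, hα0, ?_⟩
  rw [← hδ, abs_le]
  constructor
  · linarith [hα.2]
  · linarith [hα.1]

theorem root_near {q U V : Polynomial ℤ} {N₀ : ℤ} {Z : ℕ} (hZ : 2 ≤ Z) (hq : Sz Z q) (hU : Sz Z U) (hV : Sz Z V)
    (h0 : N₀ ≠ 0) (h : U * q + V * Polynomial.derivative q = Polynomial.C N₀) {g : ℝ} (hg : |g| ≤ 1 + 2 * Z)
    (hs : |Polynomial.aeval g q| * (16 * (TT Z : ℝ) ^ 3) ≤ 1) :
    ∃ α : ℝ, Polynomial.aeval α q = 0 ∧ |g - α| ≤ 4 * TT Z * |Polynomial.aeval g q| := by
  have hg2 : |g| ≤ 2 * Z + 2 := by linarith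
  have hT1n : 1 ≤ TT Z := Nat.one_le_pow _ _ (by omega)
  obtain ⟨T, hT⟩ : ∃ T : ℝ, T = (TT Z : ℝ) := ⟨_, rfl⟩
  have hT1 : 1 ≤ T := by
    rw [hT]
    exact_mod_cast hT1n
  have hT0 : 0 < T := by linarith
  have hb : ∀ s : Polynomial ℤ, Sz Z s → ∀ x : ℝ, |x| ≤ 2 * Z + 2 →
      |Polynomial.aeval x s| ≤ T ∧ |Polynomial.aeval x (Polynomial.derivative s)| ≤ T ∧
        |Polynomial.aeval x (Polynomial.derivative (Polynomial.derivative s))| ≤ T := by
    intro s hs x hx
    rw [hT]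
    exact ev_tt hZ hs hx
  rw [← hT] at hs ⊢
  obtain ⟨ε, hε⟩ : ∃ ε : ℝ, ε = |Polynomial.aeval g q| := ⟨_, rfl⟩
  rw [← hε] at hs ⊢
  have hε0 : 0 ≤ ε := by rw [hε]; exact abs_nonneg _
  have hT3 : T ≤ T ^ 3 := le_self_pow₀ hT1 (by norm_num)
  -- the derivative at `g`
  have hid : Polynomial.aeval g U * Polynomial.aeval g q +
      Polynomial.aeval g V * Polynomial.aeval g (Polynomial.derivative q) = (N₀ : ℝ) := by
    have h1 := congrArg (fun F : Polynomial ℤ => Polynomial.aeval g F) h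
    simp only [map_add, map_mul, Polynomial.aeval_C] at h1
    exact h1
  have hN : (1 : ℝ) ≤ |(N₀ : ℝ)| := by exact_mod_cast Int.one_le_abs h0
  have h1 : |Polynomial.aeval g U * Polynomial.aeval g q| ≤ 1 / 2 := by
    rw [abs_mul, ← hε]
    have h2 := (hb U hU g hg2).1
    have h3 : |Polynomial.aeval g U| * ε ≤ T * ε := mul_le_mul_of_nonneg_right h2 hε0
    have h4 : T * ε ≤ T ^ 3 * ε := mul_le_mul_of_nonneg_right hT3 hε0
    nlinarith
  have h2 : 1 / 2 ≤ |Polynomial.aeval g V| * |Polynomial.aeval g (Polynomial.derivative q)| := by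
    rw [← abs_mul]
    have h3 : |(N₀ : ℝ)| ≤ |Polynomial.aeval g U * Polynomial.aeval g q| +
        |Polynomial.aeval g V * Polynomial.aeval g (Polynomial.derivative q)| := by
      rw [← hid]
      exact abs_add_le _ _
    linarith
  have h3 : 1 / (2 * T) ≤ |Polynomial.aeval g (Polynomial.derivative q)| := by
    have h4 := (hb V hV g hg2).1
    have h5 : |Polynomial.aeval g V| * |Polynomial.aeval g (Polynomial.derivative q)| ≤
        T * |Polynomial.aeval g (Polynomial.derivative q)| := mul_le_mul_of_nonneg_right h4 (abs_nonneg _)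
    rw [div_le_iff₀ (by positivity)]
    linarith
  -- the derivative near `g`
  obtain ⟨r, hr⟩ : ∃ r : ℝ, r = 1 / (4 * T ^ 2) := ⟨_, rfl⟩
  have hr1 : r ≤ 1 := by
    rw [hr, div_le_one (by positivity)]
    nlinarith
  have hTr : T * r = 1 / (4 * T) := by
    rw [hr]
    field_simp
  have hder : ∀ x, |x - g| ≤ r → |Polynomial.aeval x (Polynomial.derivative q) -
      Polynomial.aeval g (Polynomial.derivative q)| ≤ 1 / (4 * T) := by
    intro x hx
    have hx2 : |x| ≤ 2 * Z + 2 := by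
      have h4 : |x| ≤ |x - g| + |g| := by
        have := abs_add_le (x - g) g
        rwa [sub_add_cancel] at this
      linarith
    have h4 := lip (s := Polynomial.derivative q) (C := T) (R := 2 * Z + 2)
      (fun u hu => (hb q hq u hu).2.2) hx2 hg2
    refine h4.trans ?_
    rw [← hTr]
    exact mul_le_mul_of_nonneg_left hx hT0.le
  have hc : (0 : ℝ) < 1 / (4 * T) := by positivity
  have h44 : 1 / (2 * T) = 1 / (4 * T) + 1 / (4 * T) := by
    field_simp
    norm_num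
  have hsm : ε ≤ 1 / (4 * T) * r := by
    have h5 : 1 / (4 * T) * r = 1 / (16 * T ^ 3) := by
      rw [hr]
      field_simp
      norm_num
    rw [h5, le_div_iff₀ (by positivity)]
    exact hs
  have hfin : ∀ e : ℝ, |e| / (1 / (4 * T)) = 4 * T * |e| := by
    intro e
    field_simp
  rcases le_total 0 (Polynomial.aeval g (Polynomial.derivative q)) with hsg | hsg
  · rw [abs_of_nonneg hsg] at h3
    obtain ⟨α, hα, hα2⟩ := zero_incr (f := fun x : ℝ => Polynomial.aeval x q)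
      (f' := fun x : ℝ => Polynomial.aeval x (Polynomial.derivative q))
      (fun x => Polynomial.hasDerivAt_aeval q x) (g := g) (h := r) hc (fun x hx => by
        have h4 := (abs_le.1 (hder x hx)).1
        show 1 / (4 * T) ≤ Polynomial.aeval x (Polynomial.derivative q)
        linarith) (by
        show |Polynomial.aeval g q| ≤ 1 / (4 * T) * r
        rw [← hε]
        exact hsm)
    refine ⟨α, hα, ?_⟩
    rw [hε]
    rw [← hfin]
    exact hα2
  · rw [abs_of_nonpos hsg] at h3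
    obtain ⟨α, hα, hα2⟩ := zero_incr (f := fun x : ℝ => -Polynomial.aeval x q)
      (f' := fun x : ℝ => -Polynomial.aeval x (Polynomial.derivative q))
      (fun x => (Polynomial.hasDerivAt_aeval q x).neg) (g := g) (h := r) hc (fun x hx => by
        have h4 := (abs_le.1 (hder x hx)).2
        show 1 / (4 * T) ≤ -Polynomial.aeval x (Polynomial.derivative q)
        linarith) (by
        show |-Polynomial.aeval g q| ≤ 1 / (4 * T) * r
        rw [abs_neg, ← hε]
        exact hsm)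
    refine ⟨α, neg_eq_zero.1 hα, ?_⟩
    rw [hε]
    rw [← hfin]
    have h5 : |-Polynomial.aeval g q| = |Polynomial.aeval g q| := abs_neg _
    rw [← h5]
    exact hα2

/-- values at two neighbouring points -/
theorem val_lip {s : Polynomial ℤ} {Z : ℕ} (hZ : 2 ≤ Z) (hs : Sz Z s) {x y : ℝ} (hx : |x| ≤ 2 * Z + 2)
    (hy : |y| ≤ 2 * Z + 2) : |Polynomial.aeval x s - Polynomial.aeval y s| ≤ TT Z * |x - y| :=
  lip (fun _ hu => (ev_tt hZ hs hu).2.1) hx hy

/-- values at the complex zeros of `q` -/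
theorem val_root {q s : Polynomial ℤ} {Z : ℕ} (hZ : 2 ≤ Z) (hm : q.Monic) (hq : Sz Z q) (hs : Sz Z s) {β : ℂ}
    (hβ : Polynomial.aeval β q = 0) : ‖Polynomial.aeval β s‖ ≤ TT Z := by
  have hZ1 : (1 : ℝ) ≤ Z := by exact_mod_cast (by omega : 1 ≤ Z)
  have hβZ : ‖β‖ ≤ Z := by
    by_contra hcon
    push Not at hcon
    have hβ1 : 1 ≤ ‖β‖ := by linarith
    obtain ⟨r, hr⟩ : ∃ r, r = q.natDegree := ⟨_, rfl⟩
    have hqr : q.coeff r = 1 := by rw [hr]; exact hm
    have h1 : β ^ r = -∑ i ∈ Finset.range r, q.coeff i • β ^ i := by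
      rw [Polynomial.aeval_eq_sum_range, ← hr, Finset.sum_range_succ, hqr, one_smul] at hβ
      exact eq_neg_of_add_eq_zero_right hβ
    have hsum : ∑ i ∈ Finset.range r, |(q.coeff i : ℝ)| ≤ Z - 1 := by
      have h2 : ∑ i ∈ Finset.range (r + 1), |(q.coeff i : ℝ)| ≤ Z := by
        refine (Finset.sum_le_sum_of_subset_of_nonneg (Finset.range_subset_range.2 ?_)
          (fun i _ _ => abs_nonneg _)).trans (sz_real hq)
        have := hq.1
        omega
      rw [Finset.sum_range_succ, hqr] at h2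
      simp only [Int.cast_one, abs_one] at h2
      linarith
    rcases Nat.eq_zero_or_pos r with hr0 | hr0
    · rw [hr0, Finset.range_zero, Finset.sum_empty, pow_zero, neg_zero] at h1
      exact one_ne_zero h1
    · have h3 : ‖β‖ ^ r ≤ (Z - 1) * ‖β‖ ^ (r - 1) := by
        rw [← norm_pow, h1, norm_neg]
        calc ‖∑ i ∈ Finset.range r, q.coeff i • β ^ i‖ ≤ ∑ i ∈ Finset.range r, ‖q.coeff i • β ^ i‖ :=
              norm_sum_le _ _
          _ ≤ ∑ i ∈ Finset.range r, |(q.coeff i : ℝ)| * ‖β‖ ^ (r - 1) := by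
              refine Finset.sum_le_sum fun i hi => ?_
              have h4 : i ≤ r - 1 := by
                have := Finset.mem_range.1 hi
                omega
              rw [zsmul_eq_mul, norm_mul, norm_pow, Complex.norm_intCast]
              exact mul_le_mul_of_nonneg_left (pow_le_pow_right₀ hβ1 h4) (abs_nonneg _)
          _ = (∑ i ∈ Finset.range r, |(q.coeff i : ℝ)|) * ‖β‖ ^ (r - 1) := by rw [Finset.sum_mul]
          _ ≤ (Z - 1) * ‖β‖ ^ (r - 1) :=
              mul_le_mul_of_nonneg_right hsum (pow_nonneg (norm_nonneg _) _)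
      have h4 : ‖β‖ ^ r = ‖β‖ * ‖β‖ ^ (r - 1) := by
        rw [← pow_succ']
        congr 1
        omega
      rw [h4] at h3
      have h5 := le_of_mul_le_mul_right h3 (pow_pos (by linarith) _)
      linarith
  rw [Polynomial.aeval_eq_sum_range' (Nat.lt_succ_of_le hs.1)]
  have h6 := tt_bd Z 1 (by norm_num) (by omega)
  rw [pow_one] at h6
  refine le_trans ?_ h6
  calc ‖∑ i ∈ Finset.range (Z + 1), s.coeff i • β ^ i‖ ≤ ∑ i ∈ Finset.range (Z + 1), ‖s.coeff i • β ^ i‖ :=
        norm_sum_le _ _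
    _ ≤ ∑ i ∈ Finset.range (Z + 1), |(s.coeff i : ℝ)| * (2 * Z + 2) ^ Z := by
        refine Finset.sum_le_sum fun i hi => ?_
        have h4 : i ≤ Z := by
          have := Finset.mem_range.1 hi
          omega
        rw [zsmul_eq_mul, norm_mul, norm_pow, Complex.norm_intCast]
        refine mul_le_mul_of_nonneg_left ?_ (abs_nonneg _)
        exact (pow_le_pow_left₀ (norm_nonneg _) (show ‖β‖ ≤ 2 * (Z : ℝ) + 2 by linarith) i).trans
          (pow_le_pow_right₀ (by linarith) h4)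
    _ = (∑ i ∈ Finset.range (Z + 1), |(s.coeff i : ℝ)|) * (2 * Z + 2) ^ Z := by rw [Finset.sum_mul]
    _ ≤ Z * (2 * Z + 2) ^ Z := mul_le_mul_of_nonneg_right (sz_real hs) (by positivity)

end Pool.Agent.H85.SA
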