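import Pool.Agent.H85.SA.Spd

/-! # [H85 SA IRB] Irreducibility is a finite check

`q` monic of degree `r ≥ 1`. If `q` is reducible: `q = a b`, both monic of degree `< r` (`Polynomial.Monic.irreducible_of..`, `Monic.not_irreducible_iff_exists_add_mul..`, or by hand), `M(a), M(b) ≤ M(q) ≤ ∑ |q_i|` (Mahler's measure is multiplicative,
`≥ 1` for monic polynomials), `|coeff a i| ≤ 2^r ∑ |q_i| = Q` (`norm_coeff_le_choose_mul_mahlerMeasure`). `dg r Q w = ∑_(i<r) (digit_i(w) - Q) X^i`, `w < (2Q+1)^r`, represents all polynomials of degree `< r` with coefficients in `[-Q, Q]`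
(`w = ∑ (a_i + Q) (2Q+1)^i`). Conversely if `dg w * dg w' = q`, both factors have degree `< r` and (`q` monic) leading coefficients `± 1`, both have degree `≥ 1`: `q` is reducible. -/

namespace Pool.Agent.H85.SA

open Polynomial

/-- the polynomial of degree `< r` with the digits of `w` -/
noncomputable def dg (r Q w : ℕ) : ℤ[X] := ∑ i ∈ Finset.range r, C (((w / (2 * Q + 1) ^ i % (2 * Q + 1) : ℕ) : ℤ) - Q) * X ^ i

lemma dg_coeff (r Q w i : ℕ) : (dg r Q w).coeff i =
    if i < r then (((w / (2 * Q + 1) ^ i % (2 * Q + 1) : ℕ) : ℤ) - Q) else 0 := by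
  unfold dg
  simp only [finset_sum_coeff, coeff_C_mul_X_pow]
  by_cases h : i < r
  · rw [if_pos h, Finset.sum_eq_single i]
    · simp
    · intro b _ hb
      rw [if_neg (fun h' => hb h'.symm)]
    · intro hi
      exact absurd (Finset.mem_range.2 h) hi
  · rw [if_neg h]
    refine Finset.sum_eq_zero fun j hj => ?_
    rw [if_neg]
    rintro rfl
    exact h (Finset.mem_range.1 hj)

lemma dg_natDegree {r : ℕ} (hr : 1 ≤ r) (Q w : ℕ) : (dg r Q w).natDegree < r := by
  rw [Nat.lt_iff_le_pred (by omega)]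
  rw [natDegree_le_iff_coeff_eq_zero]
  intro N hN
  rw [dg_coeff, if_neg]
  have := Nat.pred_eq_sub_one (n := r)
  omega

/-- every digit sequence occurs -/
lemma digs (B : ℕ) (hB : 0 < B) (c : ℕ → ℕ) (hc : ∀ i, c i < B) (r : ℕ) :
    ∃ w < B ^ r, ∀ i < r, w / B ^ i % B = c i := by
  induction r with
  | zero => exact ⟨0, by simp, fun i hi => absurd hi (Nat.not_lt_zero _)⟩
  | succ r ih =>
    obtain ⟨w, hw, h⟩ := ih
    refine ⟨w + c r * B ^ r, ?_, ?_⟩
    · have h1 : c r + 1 ≤ B := hc r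
      calc w + c r * B ^ r < B ^ r + c r * B ^ r := by omega
        _ = (c r + 1) * B ^ r := by ring
        _ ≤ B * B ^ r := Nat.mul_le_mul_right _ h1
        _ = B ^ (r + 1) := by ring
    · intro i hi
      rcases Nat.lt_succ_iff_lt_or_eq.1 hi with h1 | h1
      · rw [← h i h1]
        obtain ⟨k, rfl⟩ : ∃ k, r = i + 1 + k := ⟨r - (i + 1), by omega⟩
        have e : w + c (i + 1 + k) * B ^ (i + 1 + k) = w + B ^ i * (B * (c (i + 1 + k) * B ^ k)) := by ring
        rw [e, Nat.add_mul_div_left _ _ (pow_pos hB i), Nat.add_mul_mod_self_left]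
      · subst h1
        rw [Nat.add_mul_div_right _ _ (pow_pos hB i), Nat.div_eq_of_lt hw, zero_add, Nat.mod_eq_of_lt (hc i)]

lemma dg_ex {r Q : ℕ} {a : ℤ[X]} (hd : a.natDegree < r) (ha : ∀ i, |a.coeff i| ≤ (Q : ℤ)) :
    ∃ w < (2 * Q + 1) ^ r, dg r Q w = a := by
  have hb : ∀ i, 0 ≤ a.coeff i + Q ∧ a.coeff i + Q < 2 * Q + 1 := fun i => by
    have := abs_le.1 (ha i)
    constructor <;> omega
  obtain ⟨w, hw, h⟩ := digs (2 * Q + 1) (by omega) (fun i => (a.coeff i + Q).toNat)
    (fun i => by have := hb i; omega) r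
  refine ⟨w, hw, ?_⟩
  ext i
  rw [dg_coeff]
  split_ifs with hi
  · rw [h i hi]
    have := hb i
    omega
  · rw [coeff_eq_zero_of_natDegree_lt (by omega)]

/-- the coefficients of a monic factor -/
lemma fac_coeff {q a b : ℤ[X]} (hb : b.Monic) (h : a * b = q) (hq : q ≠ 0) {r : ℕ} (hr : a.natDegree ≤ r) (i : ℕ) :
    |a.coeff i| ≤ 2 ^ r * ∑ i ∈ Finset.range (q.natDegree + 1), |q.coeff i| := by
  set f := Int.castRingHom ℂ
  have hinj : Function.Injective f := Int.cast_injective
  have h1 : (a.map f).mahlerMeasure ≤ (q.map f).mahlerMeasure := by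
    rw [← h, Polynomial.map_mul, mahlerMeasure_mul]
    have : 1 ≤ (b.map f).mahlerMeasure := by
      refine one_le_mahlerMeasure_of_one_le_norm_leadingCoeff ?_
      rw [(hb.map f).leadingCoeff]
      simp
    exact le_mul_of_one_le_right (mahlerMeasure_nonneg _) this
  have h2 : (q.map f).mahlerMeasure ≤ ∑ i ∈ Finset.range (q.natDegree + 1), |(q.coeff i : ℝ)| := by
    refine (mahlerMeasure_le_sum_norm_coeff _).trans ?_
    rw [Polynomial.sum_over_range' _ (fun n => norm_zero) (q.natDegree + 1)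
      (by rw [natDegree_map_eq_of_injective hinj]; omega)]
    refine le_of_eq (Finset.sum_congr rfl fun i _ => ?_)
    rw [coeff_map]
    simp [f]
  have h3 : ‖(a.map f).coeff i‖ ≤ 2 ^ r * (a.map f).mahlerMeasure := by
    refine (norm_coeff_le_choose_mul_mahlerMeasure i _).trans ?_
    refine mul_le_mul_of_nonneg_right ?_ (mahlerMeasure_nonneg _)
    rw [natDegree_map_eq_of_injective hinj]
    have h4 : (a.natDegree).choose i ≤ 2 ^ r :=
      (Nat.choose_le_two_pow _ _).trans (Nat.pow_le_pow_right (by norm_num) hr)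
    exact_mod_cast h4
  have h5 : ‖(a.map f).coeff i‖ = |(a.coeff i : ℝ)| := by
    rw [coeff_map]
    simp [f]
  rw [h5] at h3
  have h6 : |(a.coeff i : ℝ)| ≤ 2 ^ r * ∑ i ∈ Finset.range (q.natDegree + 1), |(q.coeff i : ℝ)| :=
    h3.trans (mul_le_mul_of_nonneg_left (h1.trans h2) (by positivity))
  exact_mod_cast h6

theorem irr_iff {q : ℤ[X]} (hm : q.Monic) {Q : ℕ}
    (hQ : 2 ^ q.natDegree * ∑ i ∈ Finset.range (q.natDegree + 1), |q.coeff i| ≤ (Q : ℤ)) :
    Irreducible q ↔ 1 ≤ q.natDegree ∧ ∀ w < (2 * Q + 1) ^ q.natDegree, ∀ w' < (2 * Q + 1) ^ q.natDegree,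
      dg q.natDegree Q w * dg q.natDegree Q w' ≠ q := by
  constructor
  · intro hi
    have hr : 1 ≤ q.natDegree := by
      by_contra h0
      have h1 : q = 1 := eq_one_of_monic_natDegree_zero hm (by omega)
      exact hi.not_isUnit (h1 ▸ isUnit_one)
    refine ⟨hr, fun w _ w' _ h => ?_⟩
    have hq0 : q ≠ 0 := hm.ne_zero
    have ha0 : dg q.natDegree Q w ≠ 0 := by
      intro h0
      rw [h0, zero_mul] at h
      exact hq0 h.symm
    have hb0 : dg q.natDegree Q w' ≠ 0 := by
      intro h0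
      rw [h0, mul_zero] at h
      exact hq0 h.symm
    have hdeg : (dg q.natDegree Q w).natDegree + (dg q.natDegree Q w').natDegree = q.natDegree := by
      rw [← natDegree_mul ha0 hb0, h]
    have h1 := dg_natDegree hr Q w
    have h2 := dg_natDegree hr Q w'
    rcases hi.isUnit_or_isUnit h.symm with hu | hu
    · have := natDegree_eq_zero_of_isUnit hu
      omega
    · have := natDegree_eq_zero_of_isUnit hu
      omega
  · rintro ⟨hr, hno⟩
    rw [hm.irreducible_iff_natDegree]
    refine ⟨fun h1 => ?_, fun f g hf hg h => ?_⟩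
    · rw [h1] at hr
      simp at hr
    · by_contra hcon
      push Not at hcon
      have hdeg : f.natDegree + g.natDegree = q.natDegree := by
        rw [← hf.natDegree_mul hg, h]
      have hfl : f.natDegree < q.natDegree := by omega
      have hgl : g.natDegree < q.natDegree := by omega
      have hq0 : q ≠ 0 := hm.ne_zero
      obtain ⟨w, hw, h1⟩ := dg_ex (r := q.natDegree) (Q := Q) hfl
        (fun i => (fac_coeff hg h hq0 hfl.le i).trans hQ)
      obtain ⟨w', hw', h2⟩ := dg_ex (r := q.natDegree) (Q := Q) hgl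
        (fun i => (fac_coeff hf (by rw [mul_comm]; exact h) hq0 hgl.le i).trans hQ)
      exact hno w hw w' hw' (by rw [h1, h2, h])

end Pool.Agent.H85.SA
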