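import Pool.Agent.H98.SFA.Fin3
import Pool.Agent.H69.SFA.Cr0
import Pool.Agent.H46.SF2.Cmg

/-! # [H85 SA FIN] ONE algorithm whose only input is `F` -/

namespace Pool.Agent.H85.SA

theorem algG : AlgG :=
  Pool.Agent.H98.SFA.algG_fin (P00 := Pool.Agent.H69.SFA.P00)
    (Pool.Agent.H69.SFA.sr_p00 (Pool.Agent.H69.SFA.PC.code Primrec.fst) Primrec.snd)
    (fun _ _ h => Pool.Agent.H69.SFA.p00_sound h) (fun _ h => Pool.Agent.H69.SFA.p00_ex h)
    fun _ hF h => Pool.Agent.H46.SF2.completeG hF h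

end Pool.Agent.H85.SA
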