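import Pool.Agent.H85.SA.Spd

/-! # [H85 SA GRA] Graeffe's method and Mahler's measure

Over `ℂ` (all maps are `Polynomial.map (Int.castRingHom ℂ)`): `p = ∏_(j<r) (X - β_j)` (monic, splits). `(-1)^r p(X) p(-X) = ∏ (X - β_j)(X + β_j) = ∏ (X² - β_j²) = H(X²)`,
`H = ∏ (X - β_j²)`. The coefficient of `X^(2n)` of the left side is `(-1)^r ∑_j (-1)^j p_j p_(2n-j)`, so `nxt r p = H` (`r = natDegree p`): monic of degree `r`,
`M(H) = ∏ max(1, |β_j|²) = M(p)²` (`Polynomial.mahlerMeasure_eq_leadingCoeff_mul_prod_roots`). Induction: `M(G k) = M(q)^(2^k)`.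
`M ≤ ∑ |coeff|` (`mahlerMeasure_le_sum_norm_coeff` or similar), `|coeff i| ≤ (r choose i) M` (`norm_coeff_le_choose_mul_mahlerMeasure`), `∑_i (r choose i) = 2^r`. -/

namespace Pool.Agent.H85.SA

open Polynomial

private theorem coeff_neg (P : ℂ[X]) (n : ℕ) : (P.comp (-X)).coeff n = (-1) ^ n * P.coeff n := by
  have h : (-X : ℂ[X]) = C (-1) * X := by simp
  rw [h, Polynomial.comp_C_mul_X_coeff, mul_comm]

private theorem expand_prod (s : Multiset ℂ) :
    expand ℂ 2 (s.map fun a => X - C (a ^ 2)).prod =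
      (-1) ^ s.card * ((s.map fun a => X - C a).prod * ((s.map fun a => X - C a).prod.comp (-X))) := by
  induction s using Multiset.induction_on with
  | empty => simp
  | cons a s ih =>
    rw [Multiset.map_cons, Multiset.prod_cons, map_mul, ih, Multiset.map_cons, Multiset.prod_cons,
      Multiset.card_cons, mul_comp]
    have h : expand ℂ 2 (X - C (a ^ 2)) = -((X - C a) * (X - C a).comp (-X)) := by
      simp only [map_sub, expand_X, expand_C, sub_comp, X_comp, C_comp, map_pow]
      ring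
    rw [h]
    ring

private theorem deg_sq (s : Multiset ℂ) : (s.map fun a => X - C (a ^ 2)).prod.natDegree = s.card := by
  have h : (s.map fun a => X - C (a ^ 2)) = (s.map fun a => a ^ 2).map fun a => X - C a := by
    rw [Multiset.map_map]
    rfl
  rw [h, Polynomial.natDegree_multiset_prod_X_sub_C_eq_card, Multiset.card_map]

/-- the next polynomial of Graeffe over `ℂ` -/
private theorem nxt_map {p : ℤ[X]} (hm : p.Monic) : (nxt p.natDegree p).map (Int.castRingHom ℂ) =
    (((p.map (Int.castRingHom ℂ)).roots).map fun a => X - C (a ^ 2)).prod := by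
  obtain ⟨r, hr⟩ : ∃ r, r = p.natDegree := ⟨_, rfl⟩
  obtain ⟨P, hP⟩ : ∃ P : ℂ[X], P = p.map (Int.castRingHom ℂ) := ⟨_, rfl⟩
  rw [← hr, ← hP]
  have hPm : P.Monic := by rw [hP]; exact hm.map _
  have hPr : P.natDegree = r := by rw [hP, hm.natDegree_map, hr]
  have hs : P = (P.roots.map fun a => X - C a).prod :=
    (IsAlgClosed.splits P).eq_prod_roots_of_monic hPm
  have hc : P.roots.card = r := by
    rw [← (IsAlgClosed.splits P).natDegree_eq_card_roots, hPr]
  obtain ⟨H, hH⟩ : ∃ H : ℂ[X], H = (P.roots.map fun a => X - C (a ^ 2)).prod := ⟨_, rfl⟩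
  have hHd : H.natDegree = r := by
    rw [hH, ← hc]
    exact deg_sq P.roots
  rw [← hH]
  have hex : expand ℂ 2 H = (-1) ^ r * (P * P.comp (-X)) := by
    rw [hH, expand_prod, ← hs, hc]
  ext n
  rw [nxt, Polynomial.coeff_map, Polynomial.finsetSum_coeff]
  simp only [Polynomial.coeff_C_mul_X_pow]
  rw [Finset.sum_ite_eq]
  have h1 : H.coeff n = (-1) ^ r * ∑ j ∈ Finset.range (2 * n + 1),
      (-1) ^ j * P.coeff j * P.coeff (2 * n - j) := by
    rw [← Polynomial.coeff_expand_mul' (show 0 < 2 by norm_num) H n, hex]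
    have h2 : ((-1 : ℂ[X]) ^ r * (P * P.comp (-X))).coeff (2 * n) =
        (-1) ^ r * (P * P.comp (-X)).coeff (2 * n) := by
      have h3 : ((-1 : ℂ[X]) ^ r) = C ((-1) ^ r) := by simp
      rw [h3, Polynomial.coeff_C_mul]
    rw [h2, Polynomial.coeff_mul, Finset.Nat.sum_antidiagonal_eq_sum_range_succ_mk]
    congr 1
    refine Finset.sum_congr rfl fun j hj => ?_
    rw [Finset.mem_range] at hj
    have h4 : ((-1 : ℂ)) ^ (2 * n - j) = (-1) ^ j := by
      have h5 : ((-1 : ℂ)) ^ (2 * n - j) * (-1) ^ j = 1 := by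
        rw [← pow_add, show 2 * n - j + j = 2 * n by omega, pow_mul]
        norm_num
      have h6 : ((-1 : ℂ)) ^ j * (-1) ^ j = 1 := by
        rw [← mul_pow]
        norm_num
      calc ((-1 : ℂ)) ^ (2 * n - j) = (-1) ^ (2 * n - j) * ((-1) ^ j * (-1) ^ j) := by
            rw [h6, mul_one]
        _ = ((-1) ^ (2 * n - j) * (-1) ^ j) * (-1) ^ j := by ring
        _ = (-1) ^ j := by rw [h5, one_mul]
    rw [coeff_neg, h4]
    ring
  by_cases hn : n ∈ Finset.range (r + 1)
  · rw [if_pos hn, h1, hP]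
    simp only [map_mul, map_pow, map_sum, map_neg, map_one, Polynomial.coeff_map]
  · rw [if_neg hn, map_zero]
    rw [Finset.mem_range] at hn
    rw [Polynomial.coeff_eq_zero_of_natDegree_lt (by omega)]

theorem nxt_monic {p : ℤ[X]} (hm : p.Monic) : (nxt p.natDegree p).Monic ∧ (nxt p.natDegree p).natDegree = p.natDegree := by
  have hinj : Function.Injective (Int.castRingHom ℂ) := RingHom.injective_int _
  have h1 := nxt_map hm
  have h2 : ((nxt p.natDegree p).map (Int.castRingHom ℂ)).Monic := by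
    rw [h1]
    exact Polynomial.monic_multiset_prod_of_monic _ _ fun a _ => Polynomial.monic_X_sub_C _
  refine ⟨Polynomial.monic_of_injective hinj h2, ?_⟩
  rw [← Polynomial.natDegree_map_eq_of_injective hinj, h1, deg_sq,
    ← (IsAlgClosed.splits _).natDegree_eq_card_roots, hm.natDegree_map]

theorem nxt_mahler {p : ℤ[X]} (hm : p.Monic) :
    ((nxt p.natDegree p).map (Int.castRingHom ℂ)).mahlerMeasure = (p.map (Int.castRingHom ℂ)).mahlerMeasure ^ 2 := by
  obtain ⟨P, hP⟩ : ∃ P : ℂ[X], P = p.map (Int.castRingHom ℂ) := ⟨_, rfl⟩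
  have hPm : P.Monic := by rw [hP]; exact hm.map _
  have hs : P = (P.roots.map fun a => X - C a).prod :=
    (IsAlgClosed.splits P).eq_prod_roots_of_monic hPm
  rw [nxt_map hm, ← hP]
  have h2 : P.mahlerMeasure = (P.roots.map fun a => max 1 ‖a‖).prod := by
    conv_lhs => rw [hs]
    rw [Polynomial.prod_mahlerMeasure_eq_mahlerMeasure_prod, Multiset.map_map]
    simp only [Function.comp_def, Polynomial.mahlerMeasure_X_sub_C]
  rw [h2, Polynomial.prod_mahlerMeasure_eq_mahlerMeasure_prod, Multiset.map_map, ← Multiset.prod_map_pow]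
  simp only [Function.comp_def, Polynomial.mahlerMeasure_X_sub_C]
  congr 1
  refine Multiset.map_congr rfl fun a _ => ?_
  rw [norm_pow]
  rcases le_total 1 ‖a‖ with h | h
  · rw [max_eq_right h, max_eq_right (one_le_pow₀ h)]
  · rw [max_eq_left h, max_eq_left (pow_le_one₀ (norm_nonneg _) h), one_pow]

theorem gra {q : ℤ[X]} (hm : q.Monic) {k : ℕ} {G : ℕ → ℤ[X]} (h0 : G 0 = q)
    (h : ∀ i < k, G (i + 1) = nxt q.natDegree (G i)) :
    (q.map (Int.castRingHom ℂ)).mahlerMeasure ^ 2 ^ k ≤ ∑ i ∈ Finset.range (q.natDegree + 1), |((G k).coeff i : ℝ)| ∧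
      ∑ i ∈ Finset.range (q.natDegree + 1), |((G k).coeff i : ℝ)| ≤
        2 ^ q.natDegree * (q.map (Int.castRingHom ℂ)).mahlerMeasure ^ 2 ^ k := by
  have key : ∀ j ≤ k, (G j).Monic ∧ (G j).natDegree = q.natDegree ∧
      ((G j).map (Int.castRingHom ℂ)).mahlerMeasure =
        (q.map (Int.castRingHom ℂ)).mahlerMeasure ^ 2 ^ j := by
    intro j
    induction j with
    | zero =>
      intro _
      rw [h0, pow_zero, pow_one]
      exact ⟨hm, rfl, rfl⟩
    | succ j ih =>
      intro hj
      obtain ⟨h1, h2, h3⟩ := ih (by omega)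
      rw [h j (by omega), ← h2]
      refine ⟨(nxt_monic h1).1, (nxt_monic h1).2, ?_⟩
      rw [nxt_mahler h1, h3, ← pow_mul, pow_succ]
  obtain ⟨h1, h2, h3⟩ := key k le_rfl
  have hinj : Function.Injective (Int.castRingHom ℂ) := RingHom.injective_int _
  have hd : ((G k).map (Int.castRingHom ℂ)).natDegree = q.natDegree := by
    rw [Polynomial.natDegree_map_eq_of_injective hinj, h2]
  have hn : ∀ i, ‖((G k).map (Int.castRingHom ℂ)).coeff i‖ = |((G k).coeff i : ℝ)| := by
    intro i
    rw [Polynomial.coeff_map, eq_intCast, Complex.norm_intCast]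
  rw [← h3]
  constructor
  · refine (Polynomial.mahlerMeasure_le_sum_norm_coeff _).trans (le_of_eq ?_)
    rw [Polynomial.sum_over_range _ (fun n => norm_zero), hd]
    exact Finset.sum_congr rfl fun i _ => hn i
  · have h4 : ∀ i ∈ Finset.range (q.natDegree + 1), |((G k).coeff i : ℝ)| ≤
        (q.natDegree.choose i : ℝ) * ((G k).map (Int.castRingHom ℂ)).mahlerMeasure := by
      intro i _
      rw [← hn i, ← hd]
      exact Polynomial.norm_coeff_le_choose_mul_mahlerMeasure i _
    refine (Finset.sum_le_sum h4).trans (le_of_eq ?_)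
    rw [← Finset.sum_mul]
    congr 1
    exact_mod_cast Nat.sum_range_choose q.natDegree

end Pool.Agent.H85.SA
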