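import Pool.Agent.H85.SA.Spd

/-! # [H85 SA GRD] The grid

`q` monic, `Sz X₀ q` (so `1 ≤ X₀`, leading coefficient 1): a real zero `α` has `|α| ≤ X₀` (if `|α| > 1`: `|α|^r ≤ ∑_(i<r) |q_i| |α|^i ≤ X₀ |α|^(r-1)`).
* `grid_sound`: let `j' = ⌊α N⌋` or the like, `x = j'/N`, `|α - x| ≤ 1/N`, `|x| ≤ X₀ + 1 ≤ X₀ + 2`, `j = j' + (X₀+2) N`. If `|x - u_i/v_i| + 1/N ≤ 1/Δ` done. Otherwise `|q(x)| > T/N`, but
  `|q(x)| = |q(x) - q(α)| ≤ T |x - α| ≤ T/N` (`T` bounds `|q'|`, all points in `[-X₀-2, X₀+2]`). (`∑ q_i j'^i N^(r-i) = N^r q(j'/N)`.)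
* `grid_ex`: suppose that for every `N ≥ 1` there is a bad `x_N = j_N/N ∈ [-X₀-2, X₀+2]`: `|x_N - u_i/v_i| + 1/N > 1/Δ` for all `i < L` and `|q(x_N)| ≤ T/N`. A subsequence converges to `x`
  (`IsCompact.tendsto_subseq`): `q(x) = 0` and `|x - u_i/v_i| ≥ 1/Δ` for all `i < L`: contradiction to the hypothesis. -/

namespace Pool.Agent.H85.SA

open Polynomial

private lemma pw_lip {x y M : ℝ} (hM : 1 ≤ M) (hx : |x| ≤ M) (hy : |y| ≤ M) (i : ℕ) :
    |x ^ i - y ^ i| ≤ i * M ^ i * |x - y| := by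
  induction i with
  | zero => simp
  | succ i ih =>
      have e : x ^ (i + 1) - y ^ (i + 1) = x * (x ^ i - y ^ i) + y ^ i * (x - y) := by ring
      have h0 : 0 ≤ |x - y| := abs_nonneg _
      have hM0 : 0 ≤ M := by linarith
      have hMi : 0 ≤ M ^ i := pow_nonneg hM0 i
      have h1 : |x * (x ^ i - y ^ i)| ≤ M * (i * M ^ i * |x - y|) := by
        rw [abs_mul]
        exact mul_le_mul hx ih (abs_nonneg _) hM0
      have h2 : |y ^ i * (x - y)| ≤ M ^ i * |x - y| := by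
        rw [abs_mul, abs_pow]
        exact mul_le_mul_of_nonneg_right (pow_le_pow_left₀ (abs_nonneg _) hy i) h0
      have h3 : M ^ i * |x - y| ≤ M ^ i * |x - y| * M := le_mul_of_one_le_right (mul_nonneg hMi h0) hM
      rw [e]
      refine (abs_add_le _ _).trans ((add_le_add h1 (h2.trans h3)).trans (le_of_eq ?_))
      push_cast
      ring

private lemma q_lip {q : ℤ[X]} {X₀ : ℕ} (hX : Sz X₀ q) {x y : ℝ} (hx : |x| ≤ X₀ + 2) (hy : |y| ≤ X₀ + 2) :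
    |aeval x q - aeval y q| ≤ ((X₀ ^ 2 * (X₀ + 2) ^ X₀ : ℕ) : ℝ) * |x - y| := by
  obtain ⟨hd, hs⟩ := hX
  have hM : (1 : ℝ) ≤ X₀ + 2 := by
    have : (0 : ℝ) ≤ X₀ := Nat.cast_nonneg _
    linarith
  rw [aeval_eq_sum_range' (n := X₀ + 1) (by omega), aeval_eq_sum_range' (n := X₀ + 1) (by omega), ← Finset.sum_sub_distrib]
  have h0 : 0 ≤ |x - y| := abs_nonneg _
  have hb : ∀ i ∈ Finset.range (X₀ + 1), |q.coeff i • x ^ i - q.coeff i • y ^ i| ≤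
      ((|q.coeff i| : ℤ) : ℝ) * (X₀ * (X₀ + 2) ^ X₀ * |x - y|) := by
    intro i hi
    have hi' : i ≤ X₀ := by
      have := Finset.mem_range.mp hi
      omega
    rw [← smul_sub, zsmul_eq_mul, abs_mul, Int.cast_abs]
    refine mul_le_mul_of_nonneg_left ((pw_lip hM hx hy i).trans ?_) (abs_nonneg _)
    refine mul_le_mul_of_nonneg_right ?_ h0
    exact mul_le_mul (by exact_mod_cast hi') (pow_le_pow_right₀ hM hi') (pow_nonneg (by linarith) _) (Nat.cast_nonneg _)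
  refine (Finset.abs_sum_le_sum_abs _ _).trans ((Finset.sum_le_sum hb).trans ?_)
  rw [← Finset.sum_mul, ← Int.cast_sum]
  have hs' : ((∑ i ∈ Finset.range (X₀ + 1), |q.coeff i| : ℤ) : ℝ) ≤ X₀ := by exact_mod_cast hs
  have hnn : (0 : ℝ) ≤ X₀ * (X₀ + 2) ^ X₀ * |x - y| := by positivity
  refine (mul_le_mul_of_nonneg_right hs' hnn).trans (le_of_eq ?_)
  push_cast
  ring

private lemma ev_cast (q : ℤ[X]) (a : ℤ) {N : ℕ} (hN : 1 ≤ N) :
    ((∑ i ∈ Finset.range (q.natDegree + 1), q.coeff i * a ^ i * N ^ (q.natDegree - i) : ℤ) : ℝ) =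
      (N : ℝ) ^ q.natDegree * aeval ((a : ℝ) / N) q := by
  have hN0 : (N : ℝ) ≠ 0 := by
    have : (0 : ℝ) < N := by exact_mod_cast hN
    exact ne_of_gt this
  rw [aeval_eq_sum_range, Finset.mul_sum, Int.cast_sum]
  refine Finset.sum_congr rfl fun i hi => ?_
  have hi' : i ≤ q.natDegree := by
    have := Finset.mem_range.mp hi
    omega
  have e : (N : ℝ) ^ q.natDegree = N ^ (q.natDegree - i) * N ^ i := by
    rw [← pow_add, Nat.sub_add_cancel hi']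
  rw [e, zsmul_eq_mul, div_pow]
  push_cast
  field_simp

private lemma root_le {q : ℤ[X]} (hm : q.Monic) {X₀ : ℕ} (hX : Sz X₀ q) {α : ℝ} (hα : aeval α q = 0) : |α| ≤ X₀ := by
  obtain ⟨hd, hs⟩ := hX
  have hX1 : (1 : ℝ) ≤ X₀ := by
    have h1 : |q.coeff q.natDegree| ≤ ∑ i ∈ Finset.range (X₀ + 1), |q.coeff i| :=
      Finset.single_le_sum (f := fun i => |q.coeff i|) (fun i _ => abs_nonneg _) (Finset.mem_range.mpr (by omega))
    have h2 : q.coeff q.natDegree = 1 := hm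
    rw [h2] at h1
    have h3 : (1 : ℤ) ≤ X₀ := by
      have : |(1 : ℤ)| = 1 := abs_one
      omega
    exact_mod_cast h3
  by_cases h1 : |α| ≤ 1
  · exact h1.trans hX1
  rw [not_le] at h1
  have ha0 : 0 < |α| := by linarith
  rcases Nat.eq_zero_or_pos q.natDegree with h0 | hr
  · have : q = 1 := by
      exact eq_one_of_monic_natDegree_zero hm h0
    rw [this] at hα
    simp at hα
  have hsum := hα
  rw [aeval_eq_sum_range, Finset.sum_range_succ] at hsum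
  have h2 : q.coeff q.natDegree = 1 := hm
  rw [h2, one_smul] at hsum
  have e : α ^ q.natDegree = -∑ i ∈ Finset.range q.natDegree, q.coeff i • α ^ i := by linarith
  have hle : |α| ^ q.natDegree ≤ X₀ * |α| ^ (q.natDegree - 1) := by
    rw [← abs_pow, e, abs_neg]
    refine (Finset.abs_sum_le_sum_abs _ _).trans ?_
    have hb : ∀ i ∈ Finset.range q.natDegree, |q.coeff i • α ^ i| ≤ ((|q.coeff i| : ℤ) : ℝ) * |α| ^ (q.natDegree - 1) := by
      intro i hi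
      rw [zsmul_eq_mul, abs_mul, abs_pow, Int.cast_abs]
      refine mul_le_mul_of_nonneg_left (pow_le_pow_right₀ h1.le ?_) (abs_nonneg _)
      have := Finset.mem_range.mp hi
      omega
    refine (Finset.sum_le_sum hb).trans ?_
    rw [← Finset.sum_mul, ← Int.cast_sum]
    refine mul_le_mul_of_nonneg_right ?_ (pow_nonneg ha0.le _)
    have h4 : ∑ i ∈ Finset.range q.natDegree, |q.coeff i| ≤ ∑ i ∈ Finset.range (X₀ + 1), |q.coeff i| :=
      Finset.sum_le_sum_of_subset_of_nonneg (Finset.range_subset_range.mpr (by omega)) fun i _ _ => abs_nonneg _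
    exact_mod_cast h4.trans hs
  have e2 : |α| ^ q.natDegree = |α| * |α| ^ (q.natDegree - 1) := by
    rw [← pow_succ', Nat.sub_add_cancel hr]
  rw [e2] at hle
  exact le_of_mul_le_mul_right hle (pow_pos ha0 _)

private lemma near_iff {a u v : ℤ} {N Δ : ℕ} (hN : 1 ≤ N) (hv : 1 ≤ v) (hΔ : 1 ≤ Δ) :
    (Δ : ℤ) * (|a * v - u * N| + v) ≤ N * v ↔ |(a : ℝ) / N - u / v| + 1 / N ≤ 1 / Δ := by
  have hN0 : (0 : ℝ) < N := by exact_mod_cast hN
  have hv0 : (0 : ℝ) < v := by exact_mod_cast hv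
  have hD0 : (0 : ℝ) < Δ := by exact_mod_cast hΔ
  have e1 : |(a : ℝ) / N - u / v| + 1 / N = (|(a : ℝ) * v - u * N| + v) / (N * v) := by
    rw [div_sub_div _ _ hN0.ne' hv0.ne', abs_div, abs_of_pos (mul_pos hN0 hv0), add_div, mul_comm (N : ℝ) (u : ℝ)]
    congr 1
    field_simp
  rw [e1, div_le_div_iff₀ (mul_pos hN0 hv0) hD0, one_mul]
  constructor
  · intro h
    have h' : ((Δ * (|a * v - u * N| + v) : ℤ) : ℝ) ≤ ((N * v : ℤ) : ℝ) := by exact_mod_cast h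
    push_cast at h'
    linarith
  · intro h
    have h' : ((Δ * (|a * v - u * N| + v) : ℤ) : ℝ) ≤ ((N * v : ℤ) : ℝ) := by
      push_cast
      linarith
    exact_mod_cast h'

private lemma far_iff (q : ℤ[X]) (a : ℤ) {N T : ℕ} (hN : 1 ≤ N) :
    (T : ℤ) * N ^ q.natDegree < N * |∑ i ∈ Finset.range (q.natDegree + 1), q.coeff i * a ^ i * N ^ (q.natDegree - i)| ↔
      (T : ℝ) < N * |aeval ((a : ℝ) / N) q| := by
  have hN0 : (0 : ℝ) < N := by exact_mod_cast hN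
  have hNr : (0 : ℝ) < (N : ℝ) ^ q.natDegree := pow_pos hN0 _
  have key : (((T : ℤ) * N ^ q.natDegree : ℤ) : ℝ) <
      ((N * |∑ i ∈ Finset.range (q.natDegree + 1), q.coeff i * a ^ i * N ^ (q.natDegree - i)| : ℤ) : ℝ) ↔
      (T : ℝ) < N * |aeval ((a : ℝ) / N) q| := by
    rw [Int.cast_mul, Int.cast_mul, Int.cast_abs, ev_cast q a hN, abs_mul, abs_of_pos hNr]
    push_cast
    rw [show (N : ℝ) * ((N : ℝ) ^ q.natDegree * |aeval ((a : ℝ) / N) q|) = (N * |aeval ((a : ℝ) / N) q|) * (N : ℝ) ^ q.natDegree from by ring]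
    exact mul_lt_mul_iff_left₀ hNr
  rw [← key]
  exact Int.cast_lt.symm

theorem grid_sound {q : ℤ[X]} (hm : q.Monic) {L : ℕ} {u v : ℕ → ℤ} {Δ N X₀ : ℕ} (hv : ∀ i < L, 1 ≤ v i) (hΔ : 1 ≤ Δ)
    (h : Grid q L u v Δ N X₀) {α : ℝ} (hα : aeval α q = 0) : ∃ i < L, |α - u i / v i| ≤ 1 / Δ := by
  obtain ⟨hN, hX, hg⟩ := h
  have hN0 : (0 : ℝ) < N := by exact_mod_cast hN
  have hab := root_le hm hX hα
  obtain ⟨hl, hu⟩ := abs_le.mp hab
  have hX0 : (0 : ℝ) ≤ X₀ := Nat.cast_nonneg _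
  set a : ℤ := ⌊α * N⌋ with ha
  have h1 : (a : ℝ) ≤ α * N := Int.floor_le _
  have h2 : α * N < a + 1 := Int.lt_floor_add_one _
  have hN1 : (1 : ℝ) ≤ N := by exact_mod_cast hN
  have ha1 : a ≤ X₀ * N := by
    have : (a : ℝ) ≤ X₀ * N := h1.trans (mul_le_mul_of_nonneg_right hu hN0.le)
    exact_mod_cast this
  have ha2 : -((X₀ : ℤ) * N) - 1 ≤ a := by
    have h3 : -((X₀ : ℝ) * N) ≤ α * N := by
      have := mul_le_mul_of_nonneg_right hl hN0.le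
      linarith
    have h4 : ((-((X₀ : ℤ) * N) - 1 : ℤ) : ℝ) ≤ a := by
      push_cast
      linarith
    exact_mod_cast h4
  have hNz : (1 : ℤ) ≤ N := by exact_mod_cast hN
  obtain ⟨j, hj⟩ : ∃ j : ℕ, (j : ℤ) = a + (X₀ + 2) * N := by
    refine ⟨(a + (X₀ + 2) * N).toNat, Int.toNat_of_nonneg ?_⟩
    nlinarith
  have hj' : j < 2 * (X₀ + 2) * N + 1 := by
    have : (j : ℤ) < 2 * (X₀ + 2) * N + 1 := by
      rw [hj]
      nlinarith
    exact_mod_cast this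
  have hja : (j : ℤ) - (X₀ + 2) * N = a := by
    rw [hj]
    ring
  have hd : |α - (a : ℝ) / N| ≤ 1 / N := by
    have e : α - (a : ℝ) / N = (α * N - a) / N := by
      field_simp
    rw [e, abs_div, abs_of_pos hN0]
    refine div_le_div_of_nonneg_right ?_ hN0.le
    rw [abs_le]
    constructor <;> linarith
  rcases hg j hj' with ⟨i, hi, hn⟩ | hf
  · refine ⟨i, hi, ?_⟩
    rw [hja] at hn
    have hn' := (near_iff hN (hv i hi) hΔ).mp hn
    calc |α - u i / v i| ≤ |α - (a : ℝ) / N| + |(a : ℝ) / N - u i / v i| := abs_sub_le _ _ _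
      _ ≤ 1 / N + |(a : ℝ) / N - u i / v i| := by linarith
      _ ≤ 1 / Δ := by linarith
  · exfalso
    rw [hja] at hf
    have hf' := (far_iff q a hN).mp hf
    have hx : |(a : ℝ) / N| ≤ X₀ + 2 := by
      have h5 : |(a : ℝ) / N| ≤ |(a : ℝ) / N - α| + |α| := by
        have := abs_add_le ((a : ℝ) / N - α) α
        simpa using this
      have h6 : (1 : ℝ) / N ≤ 1 := by
        rw [div_le_one hN0]
        exact hN1
      rw [abs_sub_comm] at h5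
      linarith
    have hlip := q_lip hX hx (y := α) (by linarith)
    rw [hα, sub_zero] at hlip
    have h7 : (N : ℝ) * |aeval ((a : ℝ) / N) q| ≤ ((X₀ ^ 2 * (X₀ + 2) ^ X₀ : ℕ) : ℝ) := by
      have h8 : |(a : ℝ) / N - α| ≤ 1 / N := by
        rw [abs_sub_comm]
        exact hd
      have h9 : |aeval ((a : ℝ) / N) q| ≤ ((X₀ ^ 2 * (X₀ + 2) ^ X₀ : ℕ) : ℝ) * (1 / N) :=
        hlip.trans (mul_le_mul_of_nonneg_left h8 (Nat.cast_nonneg _))
      calc (N : ℝ) * |aeval ((a : ℝ) / N) q| ≤ N * (((X₀ ^ 2 * (X₀ + 2) ^ X₀ : ℕ) : ℝ) * (1 / N)) :=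
            mul_le_mul_of_nonneg_left h9 hN0.le
        _ = ((X₀ ^ 2 * (X₀ + 2) ^ X₀ : ℕ) : ℝ) := by
            field_simp
    linarith

theorem grid_ex {q : ℤ[X]} (hm : q.Monic) {L : ℕ} {u v : ℕ → ℤ} {Δ X₀ : ℕ} (hv : ∀ i < L, 1 ≤ v i) (hΔ : 1 ≤ Δ)
    (hX : Sz X₀ q) (h : ∀ α : ℝ, aeval α q = 0 → ∃ i < L, |α - u i / v i| < 1 / Δ) : ∃ N, Grid q L u v Δ N X₀ := by
  by_contra hcon
  rw [not_exists] at hcon
  have hbad : ∀ n : ℕ, ∃ a : ℤ, |(a : ℝ) / ((n + 1 : ℕ) : ℝ)| ≤ X₀ + 2 ∧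
      (∀ i < L, 1 / (Δ : ℝ) < |(a : ℝ) / ((n + 1 : ℕ) : ℝ) - u i / v i| + 1 / ((n + 1 : ℕ) : ℝ)) ∧
      ((n + 1 : ℕ) : ℝ) * |aeval ((a : ℝ) / ((n + 1 : ℕ) : ℝ)) q| ≤ ((X₀ ^ 2 * (X₀ + 2) ^ X₀ : ℕ) : ℝ) := by
    intro n
    have h1 := hcon (n + 1)
    have hN : 1 ≤ n + 1 := by omega
    have hN0 : (0 : ℝ) < ((n + 1 : ℕ) : ℝ) := by exact_mod_cast hN
    have h2 : ∃ j < 2 * (X₀ + 2) * (n + 1) + 1,
        ¬ ((∃ i < L, (Δ : ℤ) * (|((j : ℤ) - (X₀ + 2) * ((n + 1 : ℕ) : ℤ)) * v i - u i * ((n + 1 : ℕ) : ℤ)| + v i) ≤ ((n + 1 : ℕ) : ℤ) * v i) ∨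
      ((X₀ ^ 2 * (X₀ + 2) ^ X₀ : ℕ) : ℤ) * ((n + 1 : ℕ) : ℤ) ^ q.natDegree <
        ((n + 1 : ℕ) : ℤ) * |∑ i ∈ Finset.range (q.natDegree + 1), q.coeff i * ((j : ℤ) - (X₀ + 2) * ((n + 1 : ℕ) : ℤ)) ^ i * ((n + 1 : ℕ) : ℤ) ^ (q.natDegree - i)|) := by
      by_contra hno
      refine h1 ⟨hN, hX, fun j hj => ?_⟩
      by_contra hj2
      exact hno ⟨j, hj, hj2⟩
    obtain ⟨j, hj, hj2⟩ := h2
    rw [not_or] at hj2
    obtain ⟨hj3, hj4⟩ := hj2
    refine ⟨(j : ℤ) - (X₀ + 2) * ((n + 1 : ℕ) : ℤ), ?_, ?_, ?_⟩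
    · rw [abs_div, abs_of_pos hN0, div_le_iff₀ hN0, abs_le]
      have hj5 : (j : ℝ) ≤ 2 * (X₀ + 2) * ((n + 1 : ℕ) : ℝ) := by
        have : j ≤ 2 * (X₀ + 2) * (n + 1) := by omega
        exact_mod_cast this
      have hj6 : (0 : ℝ) ≤ j := Nat.cast_nonneg _
      constructor
      · push_cast at hj5 ⊢
        linarith
      · push_cast at hj5 ⊢
        linarith
    · intro i hi
      by_contra hle
      rw [not_lt] at hle
      exact hj3 ⟨i, hi, (near_iff hN (hv i hi) hΔ).mpr hle⟩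
    · by_contra hlt
      rw [not_le] at hlt
      exact hj4 ((far_iff q _ hN).mpr hlt)
  choose a ha1 ha2 ha3 using hbad
  have hmem : ∀ n : ℕ, (a n : ℝ) / ((n + 1 : ℕ) : ℝ) ∈ Set.Icc (-((X₀ : ℝ) + 2)) (X₀ + 2) := fun n => by
    have := abs_le.mp (ha1 n)
    exact ⟨this.1, this.2⟩
  obtain ⟨x, _, φ, hφ, hlim⟩ := isCompact_Icc.tendsto_subseq hmem
  have hN : Filter.Tendsto (fun n : ℕ => (1 : ℝ) / ((φ n + 1 : ℕ) : ℝ)) Filter.atTop (nhds 0) := by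
    have h1 : Filter.Tendsto (fun n : ℕ => (1 : ℝ) / ((n : ℝ) + 1)) Filter.atTop (nhds 0) :=
      tendsto_one_div_add_atTop_nhds_zero_nat
    have h2 := h1.comp hφ.tendsto_atTop
    refine h2.congr fun n => ?_
    simp
  have hq : aeval x q = 0 := by
    have hc : Continuous fun y : ℝ => |aeval y q| := (Polynomial.continuous_aeval q).abs
    have h1 : Filter.Tendsto (fun n : ℕ => |aeval ((a (φ n) : ℝ) / ((φ n + 1 : ℕ) : ℝ)) q|) Filter.atTop (nhds |aeval x q|) :=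
      (hc.tendsto x).comp hlim
    have h2 : Filter.Tendsto (fun n : ℕ => ((X₀ ^ 2 * (X₀ + 2) ^ X₀ : ℕ) : ℝ) * ((1 : ℝ) / ((φ n + 1 : ℕ) : ℝ))) Filter.atTop (nhds 0) := by
      have := hN.const_mul ((X₀ ^ 2 * (X₀ + 2) ^ X₀ : ℕ) : ℝ)
      rwa [mul_zero] at this
    have h3 : |aeval x q| ≤ 0 := by
      refine le_of_tendsto_of_tendsto' h1 h2 fun n => ?_
      have hN0 : (0 : ℝ) < ((φ n + 1 : ℕ) : ℝ) := by
        exact_mod_cast Nat.succ_pos (φ n)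
      rw [mul_one_div, le_div_iff₀ hN0, mul_comm]
      exact ha3 (φ n)
    exact abs_nonpos_iff.mp h3
  obtain ⟨i, hi, hlt⟩ := h x hq
  have h4 : Filter.Tendsto (fun n : ℕ => |(a (φ n) : ℝ) / ((φ n + 1 : ℕ) : ℝ) - u i / v i| + 1 / ((φ n + 1 : ℕ) : ℝ))
      Filter.atTop (nhds (|x - u i / v i| + 0)) := by
    have hlim' : Filter.Tendsto (fun n : ℕ => (a (φ n) : ℝ) / ((φ n + 1 : ℕ) : ℝ)) Filter.atTop (nhds x) := hlim
    exact ((hlim'.sub_const _).abs).add hN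
  rw [add_zero] at h4
  have h5 : 1 / (Δ : ℝ) ≤ |x - u i / v i| :=
    ge_of_tendsto' h4 fun n => (ha2 (φ n) i hi).le
  linarith

end Pool.Agent.H85.SA
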