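import Mathlib

/-!
# MP_5c9d8c_al, class two: the statement (T)

`x`, `a`, `b` elements of a group such that the pairs `(x, a)`, `(x, b)`, `(x^a, b)`,
`(x^(a^-1), b)` generate groups of class at most two, and `x` has odd order. Then `[x, a]` and
`[x, b]` commute, that is, `x` commutes with `x^(ab)`.
-/

namespace Pool.Agent.H85.SA

variable {G : Type*} [Group G]

/-- The relation `(E_e)`. -/
private theorem relE {x s τ u : G} (hxs : x * s = s * x) (hxτ : x * τ = τ * x)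
    (hu : u * (x * τ) = x * τ * u) (hp : x * s * (x * τ * u) = x * τ * u * (x * s)) :
    s * τ * u = τ * τ * u * τ⁻¹ * s := by
  have h1 : u * x = x * τ * u * τ⁻¹ := by
    rw [eq_mul_inv_iff_mul_eq, mul_assoc]
    exact hu
  have h2 : x * x * (s * τ * u) = x * x * (τ * τ * u * τ⁻¹ * s) := by
    calc x * x * (s * τ * u) = x * (x * s) * τ * u := by group
      _ = x * (s * x) * τ * u := by rw [hxs]
      _ = x * s * (x * τ * u) := by group
      _ = x * τ * u * (x * s) := hp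
      _ = x * τ * (u * x) * s := by group
      _ = x * τ * (x * τ * u * τ⁻¹) * s := by rw [h1]
      _ = x * (τ * x) * τ * u * τ⁻¹ * s := by group
      _ = x * (x * τ) * τ * u * τ⁻¹ * s := by rw [hxτ]
      _ = x * x * (τ * τ * u * τ⁻¹ * s) := by group
  exact mul_left_cancel h2

/-- An element commuting with the square of an element of odd order commutes with it. -/
theorem commute_of_sq {g τ : G} {m : ℕ} (hτ : τ ^ (2 * m + 1) = 1) (h : Commute g (τ * τ)) :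
    Commute g τ := by
  have h1 : Commute g ((τ * τ) ^ (m + 1)) := h.pow_right _
  have h2 : (τ * τ) ^ (m + 1) = τ := by
    rw [← pow_two, ← pow_mul, show 2 * (m + 1) = 2 * m + 1 + 1 from by ring, pow_succ, hτ, one_mul]
  rwa [h2] at h1

/-- Step 2: `z = s^τ u` commutes with `τ` and `s`. -/
private theorem step2 {x s τ u : G} {m : ℕ} (hτ : τ ^ (2 * m + 1) = 1)
    (hxs : x * s = s * x) (hxτ : x * τ = τ * x)
    (hu : u * (x * τ) = x * τ * u) (hp : x * s * (x * τ * u) = x * τ * u * (x * s))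
    (hn : x * s⁻¹ * (x * τ * u⁻¹) = x * τ * u⁻¹ * (x * s⁻¹)) :
    Commute (τ⁻¹ * s * τ * u) τ ∧ Commute (τ⁻¹ * s * τ * u) s := by
  have e1 := relE hxs hxτ hu hp
  have hxs' : x * s⁻¹ = s⁻¹ * x := by
    have : Commute x s := hxs
    exact this.inv_right.eq
  have hu' : u⁻¹ * (x * τ) = x * τ * u⁻¹ := by
    have : Commute u (x * τ) := hu
    exact this.inv_left.eq
  have e2 := relE hxs' hxτ hu' hn
  have e1' : τ⁻¹ * (τ⁻¹ * s * τ * u) = u * τ⁻¹ * s := by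
    calc τ⁻¹ * (τ⁻¹ * s * τ * u) = τ⁻¹ * τ⁻¹ * (s * τ * u) := by group
      _ = τ⁻¹ * τ⁻¹ * (τ * τ * u * τ⁻¹ * s) := by rw [e1]
      _ = u * τ⁻¹ * s := by group
  have e2' : u * τ⁻¹ * s = τ * (τ⁻¹ * s * τ * u) * (τ⁻¹ * τ⁻¹) := by
    have h3 := congrArg (fun g => g⁻¹) e2
    simp only [mul_inv_rev, inv_inv] at h3
    calc u * τ⁻¹ * s = u * (τ⁻¹ * s) := by group
      _ = s * (τ * (u * (τ⁻¹ * τ⁻¹))) := h3
      _ = τ * (τ⁻¹ * s * τ * u) * (τ⁻¹ * τ⁻¹) := by group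
  have hsq : Commute (τ⁻¹ * s * τ * u) (τ * τ) := by
    have h4 : τ⁻¹ * (τ⁻¹ * s * τ * u) = τ * (τ⁻¹ * s * τ * u) * (τ⁻¹ * τ⁻¹) := by
      rw [e1', e2']
    show τ⁻¹ * s * τ * u * (τ * τ) = τ * τ * (τ⁻¹ * s * τ * u)
    calc τ⁻¹ * s * τ * u * (τ * τ) = τ * (τ⁻¹ * (τ⁻¹ * s * τ * u)) * (τ * τ) := by group
      _ = τ * (τ * (τ⁻¹ * s * τ * u) * (τ⁻¹ * τ⁻¹)) * (τ * τ) := by rw [h4]
      _ = τ * τ * (τ⁻¹ * s * τ * u) := by group
  have hτz : Commute (τ⁻¹ * s * τ * u) τ := commute_of_sq hτ hsq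
  refine ⟨hτz, ?_⟩
  -- `w u = u w`
  have h5 : τ⁻¹ * s * τ * u = u * (τ⁻¹ * s * τ) := by
    have h6 : τ⁻¹ * (τ⁻¹ * s * τ * u) = τ⁻¹ * s * τ * u * τ⁻¹ := (hτz.inv_right.eq).symm
    calc τ⁻¹ * s * τ * u = τ⁻¹ * s * τ * u * τ⁻¹ * τ := by group
      _ = τ⁻¹ * (τ⁻¹ * s * τ * u) * τ := by rw [h6]
      _ = u * τ⁻¹ * s * τ := by rw [e1']
      _ = u * (τ⁻¹ * s * τ) := by group
  have hwz : Commute (τ⁻¹ * s * τ * u) (τ⁻¹ * s * τ) := by
    show τ⁻¹ * s * τ * u * (τ⁻¹ * s * τ) = τ⁻¹ * s * τ * (τ⁻¹ * s * τ * u)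
    calc τ⁻¹ * s * τ * u * (τ⁻¹ * s * τ) = τ⁻¹ * s * τ * (u * (τ⁻¹ * s * τ)) := by group
      _ = τ⁻¹ * s * τ * (τ⁻¹ * s * τ * u) := by rw [← h5]
  have h7 : Commute (τ⁻¹ * s * τ * u) (τ * (τ⁻¹ * s * τ) * τ⁻¹) :=
    (hτz.mul_right hwz).mul_right hτz.inv_right
  have h8 : τ * (τ⁻¹ * s * τ) * τ⁻¹ = s := by group
  rwa [h8] at h7

/-- The core: with `s = [x, a]`, `t = [x, b]` given abstractly. -/
theorem commute_core {x b s t : G} {m : ℕ} (hs : s ^ (2 * m + 1) = 1) (ht : t ^ (2 * m + 1) = 1)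
    (hxs : Commute x s) (hxt : Commute x t) (hbt : Commute b t)
    (hb : b⁻¹ * x * b = x * t)
    (hp1 : Commute (x * s) (b⁻¹ * (x * s) * b))
    (hn1 : Commute (x * s⁻¹) (b⁻¹ * (x * s⁻¹) * b))
    (hp2 : Commute (x * s) (b⁻¹ * (b⁻¹ * (x * s) * b) * b))
    (hn2 : Commute (x * s⁻¹) (b⁻¹ * (b⁻¹ * (x * s⁻¹) * b) * b)) : Commute s t := by
  set u : G := b⁻¹ * s * b with hu
  set v : G := b⁻¹ * u * b with hv
  have hb2 : b⁻¹ * (x * t) * b = x * (t * t) := by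
    calc b⁻¹ * (x * t) * b = b⁻¹ * x * (t * b) := by group
      _ = b⁻¹ * x * (b * t) := by rw [hbt.eq]
      _ = b⁻¹ * x * b * t := by group
      _ = x * t * t := by rw [hb]
      _ = x * (t * t) := by group
  have c1 : b⁻¹ * (x * s) * b = x * t * u := by
    rw [hu, ← hb]; group
  have c2 : b⁻¹ * (x * s⁻¹) * b = x * t * u⁻¹ := by
    rw [hu, ← hb]; group
  have c3 : b⁻¹ * (b⁻¹ * (x * s) * b) * b = x * (t * t) * v := by
    rw [c1, hv, ← hb2]; group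
  have c4 : b⁻¹ * (b⁻¹ * (x * s⁻¹) * b) * b = x * (t * t) * v⁻¹ := by
    rw [c2, hv, ← hb2]; group
  have hux : u * (x * t) = x * t * u := by
    rw [← hb, hu]
    calc b⁻¹ * s * b * (b⁻¹ * x * b) = b⁻¹ * (s * x) * b := by group
      _ = b⁻¹ * (x * s) * b := by rw [hxs.eq]
      _ = b⁻¹ * x * b * (b⁻¹ * s * b) := by group
  have hvx : v * (x * (t * t)) = x * (t * t) * v := by
    rw [← hb2, hv]
    calc b⁻¹ * u * b * (b⁻¹ * (x * t) * b) = b⁻¹ * (u * (x * t)) * b := by group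
      _ = b⁻¹ * (x * t * u) * b := by rw [hux]
      _ = b⁻¹ * (x * t) * b * (b⁻¹ * u * b) := by group
  have htt : (t * t) ^ (2 * m + 1) = 1 := by
    rw [← pow_two, ← pow_mul, mul_comm, pow_mul, ht, one_pow]
  obtain ⟨z1t, z1s⟩ := step2 (x := x) (s := s) (τ := t) (u := u) ht hxs.eq hxt.eq hux
    (by rw [← c1]; exact hp1.eq) (by rw [← c2]; exact hn1.eq)
  obtain ⟨z2t, z2s⟩ := step2 (x := x) (s := s) (τ := t * t) (u := v) htt hxs.eq
    (hxt.mul_right hxt).eq hvx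
    (by rw [← c3]; exact hp2.eq) (by rw [← c4]; exact hn2.eq)
  have z2t' := commute_of_sq ht z2t
  set z : G := t⁻¹ * s * t * u with hz
  set z2 : G := (t * t)⁻¹ * s * (t * t) * v with hz2
  have zinvt : Commute (b⁻¹ * z * b) t := by
    show b⁻¹ * z * b * t = t * (b⁻¹ * z * b)
    calc b⁻¹ * z * b * t = b⁻¹ * z * (b * t) := by group
      _ = b⁻¹ * z * (t * b) := by rw [hbt.eq]
      _ = b⁻¹ * (z * t) * b := by group
      _ = b⁻¹ * (t * z) * b := by rw [z1t.eq]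
      _ = b⁻¹ * t * (b * (b⁻¹ * z * b)) := by group
      _ = b⁻¹ * (t * b) * (b⁻¹ * z * b) := by group
      _ = b⁻¹ * (b * t) * (b⁻¹ * z * b) := by rw [hbt.eq]
      _ = t * (b⁻¹ * z * b) := by group
  -- `y = s^(t^2)`
  set y : G := (t * t)⁻¹ * s * (t * t) with hy
  have hv1 : v = y⁻¹ * z2 := by rw [hz2]; group
  have hu1 : u = t⁻¹ * s⁻¹ * t * z := by rw [hz]; group
  -- `v = z^-1 y z^b`
  have hv2 : v = z⁻¹ * y * (b⁻¹ * z * b) := by
    have hzy : Commute z (t⁻¹ * u⁻¹ * t) := by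
      have : Commute z u := by
        rw [hu1]
        exact ((z1t.inv_right.mul_right z1s.inv_right).mul_right z1t).mul_right (Commute.refl z)
      exact (z1t.inv_right.mul_right this.inv_right).mul_right z1t
    have h9 : b⁻¹ * z * b = t⁻¹ * u * t * v := by
      have htb : b⁻¹ * t * b = t := by rw [mul_assoc, ← hbt.eq]; group
      have htb' : b⁻¹ * t⁻¹ * b = t⁻¹ := by
        calc b⁻¹ * t⁻¹ * b = (b⁻¹ * t * b)⁻¹ := by group
          _ = t⁻¹ := by rw [htb]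
      calc b⁻¹ * z * b = (b⁻¹ * t⁻¹ * b) * (b⁻¹ * s * b) * (b⁻¹ * t * b) * (b⁻¹ * u * b) := by
            rw [hz]; group
        _ = t⁻¹ * u * t * v := by rw [htb, htb', ← hu, ← hv]
    have h10 : t⁻¹ * u⁻¹ * t = z⁻¹ * y := by
      have h11 : t⁻¹ * u⁻¹ * t = t⁻¹ * (z⁻¹ * (t⁻¹ * s * t)) * t := by
        rw [hu1]; group
      rw [h11]
      have hz1 : t⁻¹ * z⁻¹ = z⁻¹ * t⁻¹ := (z1t.inv_inv.eq).symm
      calc t⁻¹ * (z⁻¹ * (t⁻¹ * s * t)) * t = t⁻¹ * z⁻¹ * (t⁻¹ * s * t) * t := by group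
        _ = z⁻¹ * t⁻¹ * (t⁻¹ * s * t) * t := by rw [hz1]
        _ = z⁻¹ * y := by rw [hy]; group
    rw [← h10, h9]; group
  -- conclusion
  have h12 : y * y = z * z2 * (b⁻¹ * z * b)⁻¹ := by
    have h13 : y⁻¹ * z2 = z⁻¹ * y * (b⁻¹ * z * b) := by rw [← hv1, ← hv2]
    have hzy : Commute z y := by
      rw [hy]
      exact ((z1t.mul_right z1t).inv_right.mul_right z1s).mul_right (z1t.mul_right z1t)
    have h14 : z2 = y * (z⁻¹ * y) * (b⁻¹ * z * b) := by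
      calc z2 = y * (y⁻¹ * z2) := by group
        _ = y * (z⁻¹ * y * (b⁻¹ * z * b)) := by rw [h13]
        _ = y * (z⁻¹ * y) * (b⁻¹ * z * b) := by group
    rw [h14]
    have h15 : z * y = y * z := hzy.eq
    calc y * y = y * z * z⁻¹ * y := by group
      _ = z * y * z⁻¹ * y := by rw [h15]
      _ = z * (y * (z⁻¹ * y) * (b⁻¹ * z * b)) * (b⁻¹ * z * b)⁻¹ := by group
  have h16 : Commute (y * y) t := by
    rw [h12]
    exact (z1t.mul_left z2t').mul_left zinvt.inv_left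
  have h17 : Commute t (y * y) := h16.symm
  have hyodd : y ^ (2 * m + 1) = 1 := by
    have : y = (t * t)⁻¹ * s * ((t * t)⁻¹)⁻¹ := by rw [hy, inv_inv]
    rw [this, conj_pow, hs]; group
  have h18 : Commute t y := commute_of_sq hyodd h17
  have h19 : Commute t s := by
    have h20 : s = (t * t) * y * (t * t)⁻¹ := by rw [hy]; group
    rw [h20]
    exact (((Commute.refl t).mul_right (Commute.refl t)).mul_right h18).mul_right
      ((Commute.refl t).mul_right (Commute.refl t)).inv_right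
  exact h19.symm

/-- If `X` commutes with `[X, b]` and `b` commutes with `[X, b]`, then `X` commutes with
`X^(b^2)`. -/
private theorem commute_conj_two {X b : G} (h1 : Commute X (b⁻¹ * X * b))
    (h2 : Commute b (X⁻¹ * (b⁻¹ * X * b))) :
    Commute X (b⁻¹ * (b⁻¹ * X * b) * b) := by
  set t : G := X⁻¹ * (b⁻¹ * X * b) with ht
  have h3 : b⁻¹ * X * b = X * t := by rw [ht]; group
  have h4 : Commute X t := by
    rw [ht]; exact (Commute.refl X).inv_right.mul_right h1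
  have h5 : b⁻¹ * (b⁻¹ * X * b) * b = X * t * t := by
    rw [h3]
    calc b⁻¹ * (X * t) * b = b⁻¹ * X * (t * b) := by group
      _ = b⁻¹ * X * (b * t) := by rw [h2.eq]
      _ = b⁻¹ * X * b * t := by group
      _ = X * t * t := by rw [h3]
  rw [h5]
  exact ((Commute.refl X).mul_right h4).mul_right h4

/-- **(T)**. -/
theorem commute_commutators {x a b : G} {m : ℕ} (hx : x ^ (2 * m + 1) = 1)
    (xa : Commute x (a⁻¹ * x * a)) (ax : Commute a (x⁻¹ * (a⁻¹ * x * a)))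
    (xb : Commute x (b⁻¹ * x * b)) (bx : Commute b (x⁻¹ * (b⁻¹ * x * b)))
    (xab : Commute (a⁻¹ * x * a) (b⁻¹ * (a⁻¹ * x * a) * b))
    (bxa : Commute b ((a⁻¹ * x * a)⁻¹ * (b⁻¹ * (a⁻¹ * x * a) * b)))
    (xab' : Commute (a * x * a⁻¹) (b⁻¹ * (a * x * a⁻¹) * b))
    (bxa' : Commute b ((a * x * a⁻¹)⁻¹ * (b⁻¹ * (a * x * a⁻¹) * b))) :
    Commute (x⁻¹ * (a⁻¹ * x * a)) (x⁻¹ * (b⁻¹ * x * b)) := by
  set s : G := x⁻¹ * (a⁻¹ * x * a) with hs
  set t : G := x⁻¹ * (b⁻¹ * x * b) with ht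
  have hxs : Commute x s := by
    rw [hs]; exact (Commute.refl x).inv_right.mul_right xa
  have hxt : Commute x t := by
    rw [ht]; exact (Commute.refl x).inv_right.mul_right xb
  have e1 : a⁻¹ * x * a = x * s := by rw [hs]; group
  have e2 : b⁻¹ * x * b = x * t := by rw [ht]; group
  have e3 : a * x * a⁻¹ = x * s⁻¹ := by
    have h1 : x = a * (x * s) * a⁻¹ := by rw [← e1]; group
    have h2 : a * s = s * a := ax.eq
    have h3 : a * (x * s) * a⁻¹ = a * x * a⁻¹ * s := by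
      calc a * (x * s) * a⁻¹ = a * x * a⁻¹ * (a * s) * a⁻¹ := by group
        _ = a * x * a⁻¹ * (s * a) * a⁻¹ := by rw [h2]
        _ = a * x * a⁻¹ * s := by group
    rw [h3] at h1
    rw [eq_mul_inv_iff_mul_eq]
    exact h1.symm
  have hsm : s ^ (2 * m + 1) = 1 := by
    rw [hs, Commute.mul_pow]
    · rw [inv_pow, hx, inv_one, one_mul]
      have : a⁻¹ * x * a = a⁻¹ * x * (a⁻¹)⁻¹ := by rw [inv_inv]
      rw [this, conj_pow, hx]; group
    · exact xa.inv_left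
  have htm : t ^ (2 * m + 1) = 1 := by
    rw [ht, Commute.mul_pow]
    · rw [inv_pow, hx, inv_one, one_mul]
      have : b⁻¹ * x * b = b⁻¹ * x * (b⁻¹)⁻¹ := by rw [inv_inv]
      rw [this, conj_pow, hx]; group
    · exact xb.inv_left
  have hp2 := commute_conj_two xab bxa
  have hn2 := commute_conj_two xab' bxa'
  rw [e1] at xab hp2
  rw [e3] at xab' hn2
  exact commute_core hsm htm hxs hxt bx e2 xab xab' hp2 hn2

/-- **(T)**, second form: `x` commutes with `x^(ab)`. -/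
theorem commute_conj_mul {x a b : G} {m : ℕ} (hx : x ^ (2 * m + 1) = 1)
    (xa : Commute x (a⁻¹ * x * a)) (ax : Commute a (x⁻¹ * (a⁻¹ * x * a)))
    (xb : Commute x (b⁻¹ * x * b)) (bx : Commute b (x⁻¹ * (b⁻¹ * x * b)))
    (xab : Commute (a⁻¹ * x * a) (b⁻¹ * (a⁻¹ * x * a) * b))
    (bxa : Commute b ((a⁻¹ * x * a)⁻¹ * (b⁻¹ * (a⁻¹ * x * a) * b)))
    (xab' : Commute (a * x * a⁻¹) (b⁻¹ * (a * x * a⁻¹) * b))
    (bxa' : Commute b ((a * x * a⁻¹)⁻¹ * (b⁻¹ * (a * x * a⁻¹) * b))) :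
    Commute x ((a * b)⁻¹ * x * (a * b)) := by
  have h := commute_commutators hx xa ax xb bx xab bxa xab' bxa'
  set s : G := x⁻¹ * (a⁻¹ * x * a) with hs
  set t : G := x⁻¹ * (b⁻¹ * x * b) with ht
  have hxs : Commute x s := by
    rw [hs]; exact (Commute.refl x).inv_right.mul_right xa
  have hxt : Commute x t := by
    rw [ht]; exact (Commute.refl x).inv_right.mul_right xb
  have e1 : a⁻¹ * x * a = x * s := by rw [hs]; group
  -- `x^(b^-1) = x t^-1` commutes with `x s`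
  have e3 : b * x * b⁻¹ = x * t⁻¹ := by
    have e2 : b⁻¹ * x * b = x * t := by rw [ht]; group
    have h1 : x = b * (x * t) * b⁻¹ := by rw [← e2]; group
    have h2 : b * t = t * b := bx.eq
    have h3 : b * (x * t) * b⁻¹ = b * x * b⁻¹ * t := by
      calc b * (x * t) * b⁻¹ = b * x * b⁻¹ * (b * t) * b⁻¹ := by group
        _ = b * x * b⁻¹ * (t * b) * b⁻¹ := by rw [h2]
        _ = b * x * b⁻¹ * t := by group
    rw [h3] at h1
    rw [eq_mul_inv_iff_mul_eq]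
    exact h1.symm
  have h4 : Commute (b * x * b⁻¹) (a⁻¹ * x * a) := by
    rw [e3, e1]
    exact ((Commute.refl x).mul_right hxs).mul_left
      ((hxt.symm.inv_left).mul_right h.symm.inv_left)
  have h5 : b⁻¹ * (b * x * b⁻¹ * (a⁻¹ * x * a)) * b = b⁻¹ * (a⁻¹ * x * a * (b * x * b⁻¹)) * b := by
    rw [h4.eq]
  show x * ((a * b)⁻¹ * x * (a * b)) = (a * b)⁻¹ * x * (a * b) * x
  calc x * ((a * b)⁻¹ * x * (a * b)) = b⁻¹ * (b * x * b⁻¹ * (a⁻¹ * x * a)) * b := by group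
    _ = b⁻¹ * (a⁻¹ * x * a * (b * x * b⁻¹)) * b := h5
    _ = (a * b)⁻¹ * x * (a * b) * x := by group

end Pool.Agent.H85.SA
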