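import Mathlib

/-! # [H85 SA NUM] The numbers, with room for `r` -/

namespace Pool.Agent.H85.SA

theorem num' {r s γ n W : ℕ} (hr : 25 ≤ r) (hs : 1 ≤ s) (hn : r * s ≤ n)
    (hW : s * W * (r - 3) ≤ 3 * γ + r * s + s * (r - 3)) :
    (88 * W + 46) * s * r + r ≤ 300 * (n + γ) := by
  obtain ⟨t, rfl⟩ : ∃ t, r = t + 3 := ⟨r - 3, by omega⟩
  rw [Nat.add_sub_cancel] at hW
  have ht : 22 ≤ t := by omega
  have h1 : ((88 * W + 46) * s * (t + 3) + (t + 3)) * t ≤ 300 * (n + γ) * t := by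
    have h2 : 88 * (t + 3) * (s * W * t) ≤ 88 * (t + 3) * (3 * γ + (t + 3) * s + s * t) :=
      Nat.mul_le_mul_left _ hW
    have h3 : 300 * ((t + 3) * s + γ) * t ≤ 300 * (n + γ) * t := by gcongr
    refine le_trans ?_ h3
    have h4 : ((88 * W + 46) * s * (t + 3) + (t + 3)) * t = 88 * (t + 3) * (s * W * t) + 46 * s * (t + 3) * t + (t + 3) * t := by ring
    rw [h4]
    refine le_trans (Nat.add_le_add_right (Nat.add_le_add_right h2 _) _) ?_
    have h5 : 22 * γ ≤ t * γ := Nat.mul_le_mul_right _ ht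
    have h6 : 22 * (s * t) ≤ t * (s * t) := Nat.mul_le_mul_right _ ht
    have h7 : 22 * s ≤ t * s := Nat.mul_le_mul_right _ ht
    have h8 : t * 1 ≤ t * s := Nat.mul_le_mul_left _ hs
    have h9 : t * t * 1 ≤ t * t * s := Nat.mul_le_mul_left _ hs
    nlinarith
  exact Nat.le_of_mul_le_mul_right h1 (by omega)

end Pool.Agent.H85.SA
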