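import Pool.Agent.H85.SA.Gra
import Pool.Agent.H85.SA.Grd
import Pool.Agent.H85.SF.Lio

/-! # [H85 SA SPA] `Spc` and `Special`

* `spc_sound`: `B' = P^(1/2^k)` (real): `B'^(2^k) = P`, `1 ≤ B' ≤ P ≤ Z`. `M(q)^(2^k) ≤ ∑ |G k| ≤ P`, so `M(q) ≤ B'`; `B^(2^k) ≤ P`, so `|u i|, v i ≤ B ≤ B'`. A real zero `α` has `|α - u_i/v_i| ≤ 1/Δ`
  (`grid_sound`), and `Δ^(-r) (2^r B')^κ ≤ 1`: the `2^k`-th power is `(2^r)^(κ 2^k) P^κ ≤ Δ^(r 2^k)`.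
* `spc_ex`: the zeros `α_i`, `i < L`, of `q` in `ℝ` (finite), `u_i, v_i` from `Special`: `|α_i - u_i/v_i|^r (2^r B)^(κ+r) ≤ 1`. Take `k` with `κ ≤ 2^k`, `P = 2^r B^(2^k)`, `G i = (nxt r)^[i] q` (then `∑ |G k| ≤ 2^r M(q)^(2^k) ≤ P` by `gra`),
  `x = ((2^r B)^κ)^(1/r) * 2` real. `(2^r)^(κ 2^k) P^κ = (2^r)^(κ 2^k) 2^(r κ) B^(κ 2^k) ≤ ((2^r B)^κ 2^r)^(2^k) = x^(r 2^k)` since `2^(r κ) ≤ 2^(r 2^k)`. `Δ = ⌈x⌉ ≤ x + 1 ≤ 2x` (`x ≥ 1`), so the inequality for `Δ` holds, and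
  `Δ^r ≤ 2^r x^r = (2^r B)^κ 4^r`, while `|α_i - u_i/v_i|^r ≤ (2^r B)^(-κ-r)`; `4^r < (2^r B)^r` because `4 < 2^r ≤ 2^r B` (`r ≥ 3`): `|α_i - u_i/v_i|^r Δ^r < 1`, so `|α_i - u_i/v_i| < 1/Δ`. `grid_ex` gives `N`; `Z = P`. -/

namespace Pool.Agent.H85.SA

open Polynomial

/-- a real root -/
private theorem root_pow (P k : ℕ) : ∃ B : ℝ, 0 ≤ B ∧ B ^ 2 ^ k = P := by
  refine ⟨(P : ℝ) ^ (((2 ^ k : ℕ) : ℝ)⁻¹), by positivity, ?_⟩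
  exact Real.rpow_inv_natCast_pow (Nat.cast_nonneg P) (by positivity)

theorem spc_sound {q : ℤ[X]} {κ Z : ℕ} (h : Spc q κ Z) : ∃ B : ℝ, 1 ≤ B ∧ B ≤ Z ∧ SpR q B κ := by
  obtain ⟨hm, hirr, hdeg, k, P, B, L, Δ, N, X₀, G, u, v, hG0, hGs, hP, hB1, hBP, hPZ, huv, hΔ, hineq, hgrid⟩ := h
  obtain ⟨B', hB0, hB'⟩ := root_pow P k
  have h2k : (2 ^ k : ℕ) ≠ 0 := by positivity
  have hP1 : 1 ≤ P := (Nat.one_le_pow _ _ hB1).trans hBP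
  have hP1' : (1 : ℝ) ≤ P := by exact_mod_cast hP1
  have hB'1 : 1 ≤ B' := by
    refine le_of_pow_le_pow_left₀ h2k hB0 ?_
    rw [one_pow, hB']
    exact hP1'
  have hBB' : (B : ℝ) ≤ B' := by
    refine le_of_pow_le_pow_left₀ h2k hB0 ?_
    rw [hB']
    exact_mod_cast hBP
  have hB'P : B' ≤ P := by
    rw [← hB']
    exact le_self_pow₀ hB'1 h2k
  refine ⟨B', hB'1, hB'P.trans (by exact_mod_cast hPZ), hm, hirr, hdeg, ?_, ?_⟩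
  · refine le_of_pow_le_pow_left₀ h2k hB0 ?_
    rw [hB']
    refine (gra hm hG0 hGs).1.trans ?_
    exact_mod_cast hP
  · intro α hα
    obtain ⟨i, hi, hαi⟩ := grid_sound hm (fun i hi => (huv i hi).1) hΔ hgrid hα
    obtain ⟨h1, h2, h3⟩ := huv i hi
    refine ⟨u i, v i, h1, ?_, ?_, ?_⟩
    · refine le_trans ?_ hBB'
      exact_mod_cast h3
    · refine le_trans ?_ hBB'
      exact_mod_cast h2
    · have hΔ0 : (0 : ℝ) < Δ := by exact_mod_cast hΔ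
      have h4 : ((2 : ℝ) ^ q.natDegree * B') ^ κ ≤ (Δ : ℝ) ^ q.natDegree := by
        refine le_of_pow_le_pow_left₀ h2k (by positivity) ?_
        have h5 : (((2 : ℝ) ^ q.natDegree * B') ^ κ) ^ 2 ^ k =
            (2 ^ q.natDegree) ^ (κ * 2 ^ k) * (B' ^ 2 ^ k) ^ κ := by
          rw [mul_pow, mul_pow, ← pow_mul, ← pow_mul B', ← pow_mul B', mul_comm κ (2 ^ k)]
        rw [h5, hB', ← pow_mul (Δ : ℝ)]
        exact_mod_cast hineq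
      have h6 : |α - u i / v i| ^ q.natDegree ≤ (1 / (Δ : ℝ)) ^ q.natDegree :=
        pow_le_pow_left₀ (abs_nonneg _) hαi _
      calc |α - u i / v i| ^ q.natDegree * (2 ^ q.natDegree * B') ^ κ
          ≤ (1 / (Δ : ℝ)) ^ q.natDegree * (Δ : ℝ) ^ q.natDegree := by
            refine mul_le_mul h6 h4 (by positivity) (by positivity)
        _ = 1 := by
            rw [← mul_pow, one_div, inv_mul_cancel₀ hΔ0.ne', one_pow]

theorem spc_mono {q : ℤ[X]} {κ Z Z' : ℕ} (h : Spc q κ Z) (hZ : Z ≤ Z') : Spc q κ Z' := by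
  obtain ⟨h1, h2, h3, k, P, B, L, Δ, N, X₀, G, u, v, a1, a2, a3, a4, a5, a6, a7⟩ := h
  exact ⟨h1, h2, h3, k, P, B, L, Δ, N, X₀, G, u, v, a1, a2, a3, a4, a5, a6.trans hZ, a7⟩

/-- a size for every polynomial -/
private theorem sz_ex (s : ℤ[X]) : ∃ Z, Sz Z s := by
  refine ⟨s.natDegree + (∑ i ∈ Finset.range (s.natDegree + 1), |s.coeff i|).natAbs, Nat.le_add_right _ _, ?_⟩
  have h0 : 0 ≤ ∑ i ∈ Finset.range (s.natDegree + 1), |s.coeff i| :=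
    Finset.sum_nonneg fun i _ => abs_nonneg _
  have h1 : ∑ i ∈ Finset.range (s.natDegree + (∑ i ∈ Finset.range (s.natDegree + 1), |s.coeff i|).natAbs + 1),
      |s.coeff i| = ∑ i ∈ Finset.range (s.natDegree + 1), |s.coeff i| := by
    symm
    refine Finset.sum_subset (fun i hi => ?_) (fun i _ hi => ?_)
    · rw [Finset.mem_range] at hi ⊢
      omega
    · rw [Finset.mem_range, not_lt] at hi
      rw [Polynomial.coeff_eq_zero_of_natDegree_lt (by omega), abs_zero]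
  rw [h1]
  push_cast
  rw [abs_of_nonneg h0]
  have : (0 : ℤ) ≤ s.natDegree := Int.natCast_nonneg _
  linarith

/-- the integer `Δ` -/
private theorem del_ex {r κ k B : ℕ} (hr : 3 ≤ r) (hB : 1 ≤ B) (hk : κ ≤ 2 ^ k) :
    ∃ Δ : ℕ, 1 ≤ Δ ∧ (2 ^ r) ^ (κ * 2 ^ k) * (2 ^ r * B ^ 2 ^ k) ^ κ ≤ Δ ^ (r * 2 ^ k) ∧
      ((Δ : ℝ)) ^ r ≤ (2 ^ r * (B : ℝ)) ^ κ * 4 ^ r := by
  have hr0 : r ≠ 0 := by omega
  have hB' : (1 : ℝ) ≤ B := by exact_mod_cast hB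
  obtain ⟨A, hA⟩ : ∃ A : ℝ, A = (2 ^ r * (B : ℝ)) ^ κ := ⟨_, rfl⟩
  have hA1 : 1 ≤ A := by
    rw [hA]
    refine one_le_pow₀ ?_
    have : (1 : ℝ) ≤ 2 ^ r := one_le_pow₀ (by norm_num)
    nlinarith
  obtain ⟨y, hy⟩ : ∃ y : ℝ, y = A ^ ((r : ℝ)⁻¹) := ⟨_, rfl⟩
  have hyr : y ^ r = A := by
    rw [hy]
    exact Real.rpow_inv_natCast_pow (by linarith) hr0
  have hy1 : 1 ≤ y := by
    rw [hy]
    exact Real.one_le_rpow hA1 (by positivity)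
  refine ⟨⌈y * 2⌉₊, ?_, ?_, ?_⟩
  · exact Nat.one_le_ceil_iff.2 (by linarith)
  · have h1 : y * 2 ≤ (⌈y * 2⌉₊ : ℝ) := Nat.le_ceil _
    have h2 : (y * 2) ^ (r * 2 ^ k) ≤ (⌈y * 2⌉₊ : ℝ) ^ (r * 2 ^ k) :=
      pow_le_pow_left₀ (by linarith) h1 _
    have h3 : (y * 2) ^ (r * 2 ^ k) = ((2 ^ r * (B : ℝ)) ^ κ * 2 ^ r) ^ 2 ^ k := by
      rw [pow_mul, mul_pow, hyr, hA]
    have h4 : (((2 ^ r) ^ (κ * 2 ^ k) * (2 ^ r * B ^ 2 ^ k) ^ κ : ℕ) : ℝ) ≤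
        ((2 ^ r * (B : ℝ)) ^ κ * 2 ^ r) ^ 2 ^ k := by
      push_cast
      have e1 : ((2 : ℝ) ^ r * (B : ℝ) ^ 2 ^ k) ^ κ = ((2 : ℝ) ^ r) ^ κ * (B : ℝ) ^ (κ * 2 ^ k) := by
        rw [mul_pow, ← pow_mul (B : ℝ), mul_comm (2 ^ k) κ]
      have e2 : ((2 ^ r * (B : ℝ)) ^ κ * 2 ^ r) ^ 2 ^ k =
          ((2 : ℝ) ^ r) ^ (κ * 2 ^ k) * (B : ℝ) ^ (κ * 2 ^ k) * ((2 : ℝ) ^ r) ^ 2 ^ k := by
        rw [mul_pow, mul_pow, mul_pow, ← pow_mul, ← pow_mul (B : ℝ)]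
      rw [e1, e2]
      have e3 : ((2 : ℝ) ^ r) ^ κ ≤ ((2 : ℝ) ^ r) ^ 2 ^ k :=
        pow_le_pow_right₀ (one_le_pow₀ (by norm_num)) hk
      calc ((2 : ℝ) ^ r) ^ (κ * 2 ^ k) * (((2 : ℝ) ^ r) ^ κ * (B : ℝ) ^ (κ * 2 ^ k))
          = ((2 : ℝ) ^ r) ^ (κ * 2 ^ k) * (B : ℝ) ^ (κ * 2 ^ k) * ((2 : ℝ) ^ r) ^ κ := by ring
        _ ≤ ((2 : ℝ) ^ r) ^ (κ * 2 ^ k) * (B : ℝ) ^ (κ * 2 ^ k) * ((2 : ℝ) ^ r) ^ 2 ^ k :=
            mul_le_mul_of_nonneg_left e3 (by positivity)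
    have h5 := h4.trans (h3 ▸ h2)
    exact_mod_cast h5
  · have h1 : (⌈y * 2⌉₊ : ℝ) ≤ y * 4 := by
      have := (Nat.ceil_lt_add_one (show 0 ≤ y * 2 by linarith)).le
      linarith
    calc (⌈y * 2⌉₊ : ℝ) ^ r ≤ (y * 4) ^ r := pow_le_pow_left₀ (by positivity) h1 _
      _ = (2 ^ r * (B : ℝ)) ^ κ * 4 ^ r := by rw [mul_pow, hyr, hA]

theorem spc_ex {q : ℤ[X]} {B κ : ℕ} (h : Pool.Agent.H85.SF.Special q B (κ + q.natDegree)) (hr : 3 ≤ q.natDegree) :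
    ∃ Z, Spc q κ Z := by
  obtain ⟨hm, hirr, hdeg, hM, hz⟩ := h
  have hB1 : 1 ≤ B := by
    have h1 := Polynomial.one_le_mahlerMeasure_of_ne_zero hm.ne_zero
    have h2 : (1 : ℝ) ≤ B := h1.trans hM
    exact_mod_cast h2
  obtain ⟨k, hk⟩ : ∃ k : ℕ, κ ≤ 2 ^ k := ⟨κ, Nat.lt_two_pow_self.le⟩
  obtain ⟨Δ, hΔ1, hΔ2, hΔ3⟩ := del_ex hr hB1 hk
  obtain ⟨X₀, hX₀⟩ := sz_ex q
  choose! U V hUV using hz
  obtain ⟨l, hl⟩ : ∃ l : List ℝ, ∀ α : ℝ, α ∈ l ↔ aeval α q = 0 := by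
    refine ⟨(q.aroots ℝ).toList, fun α => ?_⟩
    rw [Multiset.mem_toList, Polynomial.mem_aroots]
    exact ⟨fun h => h.2, fun h => ⟨hm.ne_zero, h⟩⟩
  have hget : ∀ i < l.length, aeval (l.getD i 0) q = 0 := by
    intro i hi
    rw [← hl, List.getD_eq_getElem _ _ hi]
    exact List.getElem_mem hi
  have hnear : ∀ α : ℝ, aeval α q = 0 → |α - U α / V α| < 1 / (Δ : ℝ) := by
    intro α hα
    obtain ⟨h1, -, -, h4⟩ := hUV α hα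
    have hΔ0 : (0 : ℝ) < Δ := by exact_mod_cast hΔ1
    have hB0 : (1 : ℝ) ≤ B := by exact_mod_cast hB1
    have h8 : (8 : ℝ) ≤ 2 ^ q.natDegree := by
      calc (8 : ℝ) = 2 ^ 3 := by norm_num
        _ ≤ 2 ^ q.natDegree := pow_le_pow_right₀ (by norm_num) hr
    have hC : (4 : ℝ) < 2 ^ q.natDegree * B := by nlinarith
    have hr0 : q.natDegree ≠ 0 := by omega
    have h5 : (|α - U α / V α| * Δ) ^ q.natDegree * (2 ^ q.natDegree * (B : ℝ)) ^ q.natDegree ≤ 4 ^ q.natDegree := by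
      rw [mul_pow]
      calc |α - U α / V α| ^ q.natDegree * (Δ : ℝ) ^ q.natDegree * (2 ^ q.natDegree * (B : ℝ)) ^ q.natDegree
          ≤ |α - U α / V α| ^ q.natDegree * ((2 ^ q.natDegree * (B : ℝ)) ^ κ * 4 ^ q.natDegree) *
              (2 ^ q.natDegree * (B : ℝ)) ^ q.natDegree := by gcongr
        _ = (|α - U α / V α| ^ q.natDegree * (2 ^ q.natDegree * (B : ℝ)) ^ (κ + q.natDegree)) * 4 ^ q.natDegree := by
            rw [pow_add]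
            ring
        _ ≤ 1 * 4 ^ q.natDegree := mul_le_mul_of_nonneg_right h4 (by positivity)
        _ = 4 ^ q.natDegree := one_mul _
    have h6 : (4 : ℝ) ^ q.natDegree < (2 ^ q.natDegree * (B : ℝ)) ^ q.natDegree :=
      pow_lt_pow_left₀ hC (by norm_num) hr0
    have h7 : (|α - U α / V α| * Δ) ^ q.natDegree < 1 := by
      by_contra hcon
      rw [not_lt] at hcon
      have h9 : (0 : ℝ) ≤ (2 ^ q.natDegree * (B : ℝ)) ^ q.natDegree := by positivity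
      have := mul_le_mul_of_nonneg_right hcon h9
      linarith
    have h10 : |α - U α / V α| * Δ < 1 := by
      by_contra hcon
      rw [not_lt] at hcon
      exact absurd (one_le_pow₀ hcon) (not_le.2 h7)
    rw [lt_div_iff₀ hΔ0]
    exact h10
  obtain ⟨N, hN⟩ := grid_ex (q := q) hm (L := l.length) (u := fun i => U (l.getD i 0)) (v := fun i => V (l.getD i 0))
    (Δ := Δ) (X₀ := X₀) (fun i hi => (hUV _ (hget i hi)).1) hΔ1 hX₀ (fun α hα => by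
      obtain ⟨i, hi, rfl⟩ := List.getElem_of_mem ((hl α).2 hα)
      refine ⟨i, hi, ?_⟩
      have := hnear _ hα
      simp only [List.getD_eq_getElem _ _ hi]
      exact this)
  have hG := gra (q := q) hm (k := k) (G := fun i => (nxt q.natDegree)^[i] q) rfl (fun i _ => by
    rw [Function.iterate_succ_apply'])
  refine ⟨2 ^ q.natDegree * B ^ 2 ^ k, hm, hirr, hdeg, k, 2 ^ q.natDegree * B ^ 2 ^ k, B, l.length, Δ, N, X₀,
    fun i => (nxt q.natDegree)^[i] q, fun i => U (l.getD i 0), fun i => V (l.getD i 0), rfl, fun i _ => ?_, ?_, hB1,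
    ?_, le_rfl, fun i hi => ?_, hΔ1, hΔ2, hN⟩
  · simp only [Function.iterate_succ_apply']
  · have h1 : ∑ i ∈ Finset.range (q.natDegree + 1), |(((nxt q.natDegree)^[k] q).coeff i : ℝ)| ≤
        2 ^ q.natDegree * (B : ℝ) ^ 2 ^ k := by
      refine hG.2.trans ?_
      have h0 : 0 ≤ (q.map (Int.castRingHom ℂ)).mahlerMeasure := mahlerMeasure_nonneg _
      exact mul_le_mul_of_nonneg_left (pow_le_pow_left₀ h0 hM _) (by positivity)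
    exact_mod_cast h1
  · have : 1 ≤ 2 ^ q.natDegree := Nat.one_le_two_pow
    exact Nat.le_mul_of_pos_left _ this
  · obtain ⟨h1, h2, h3, -⟩ := hUV _ (hget i hi)
    exact ⟨h1, h3, h2⟩

end Pool.Agent.H85.SA
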